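import Mathlib

/-!
Linear recurrences satisfied by an integer vector: algebraic part.
-/

open Polynomial

namespace Pool.Agent.W10.Schl

/-- The linear functional `X ^ j ↦ x j` on polynomials. -/
noncomputable def L (x : ℕ → ℤ) : ℚ[X] →ₗ[ℚ] ℚ :=
  Polynomial.lsum fun j => LinearMap.mulRight ℚ (x j : ℚ)

theorem L_apply (x : ℕ → ℤ) (p : ℚ[X]) (N : ℕ) (hN : p.natDegree < N) :
    L x p = ∑ j ∈ Finset.range N, p.coeff j * x j := by
  rw [L, Polynomial.lsum_apply, Polynomial.sum_over_range' p _ N hN]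
  · rfl
  · intro j; simp

theorem L_monomial (x : ℕ → ℤ) (j : ℕ) (a : ℚ) : L x (monomial j a) = a * x j := by
  rw [L, Polynomial.lsum_apply, Polynomial.sum_monomial_index]
  · rfl
  · simp

theorem L_X_pow_mul (x : ℕ → ℤ) (p : ℚ[X]) (N i : ℕ) (hN : p.natDegree < N) :
    L x (X ^ i * p) = ∑ j ∈ Finset.range N, p.coeff j * x (j + i) := by
  conv_lhs => rw [as_sum_range' p N hN]
  rw [Finset.mul_sum, map_sum]
  refine Finset.sum_congr rfl fun j _ => ?_
  rw [← monomial_one_right_eq_X_pow, monomial_mul_monomial, one_mul, L_monomial, add_comm]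

theorem L_mul (x : ℕ → ℤ) (P R : ℚ[X]) (N i : ℕ) (hN : R.natDegree < N) :
    L x (X ^ i * (P * R)) = ∑ j ∈ Finset.range N, R.coeff j * L x (X ^ (i + j) * P) := by
  conv_lhs => rw [as_sum_range' R N hN]
  rw [Finset.mul_sum, Finset.mul_sum, map_sum]
  refine Finset.sum_congr rfl fun j _ => ?_
  have : X ^ i * (P * monomial j (R.coeff j)) = R.coeff j • (X ^ (i + j) * P) := by
    rw [← C_mul_X_pow_eq_monomial, smul_eq_C_mul, pow_add]
    ring
  rw [this, map_smul, smul_eq_mul]

theorem finrank_degreeLT' (N : ℕ) : Module.finrank ℚ (degreeLT ℚ N) = N := by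
  rw [(degreeLTEquiv ℚ N).finrank_eq]; simp

theorem natDegree_lt_of_mem {N : ℕ} {p : ℚ[X]} (hp : p ∈ degreeLT ℚ N) (h0 : p ≠ 0) :
    p.natDegree < N := by
  rw [mem_degreeLT] at hp
  exact (natDegree_lt_iff_degree_lt h0).2 hp

theorem mem_degreeLT_of_natDegree_lt {N : ℕ} {p : ℚ[X]} (hp : p.natDegree < N) :
    p ∈ degreeLT ℚ N := by
  rw [mem_degreeLT]
  by_cases h0 : p = 0
  · simp [h0]
  · exact (natDegree_lt_iff_degree_lt h0).1 hp

/-- The kernel of the Hankel matrix. -/
theorem kernel (x : ℕ → ℤ) (n s : ℕ) (hs : s ≤ n) (P : ℚ[X]) (hP : P ≠ 0)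
    (hPd : P.natDegree ≤ s + 1) (hPL : ∀ i, i + s + 1 ≤ n → L x (X ^ i * P) = 0)
    (hmin : ∀ U : ℚ[X], U ≠ 0 → U.natDegree ≤ s → ¬ ∀ i, i + s ≤ n → L x (X ^ i * U) = 0) :
    2 * s ≤ n ∧ ∀ G : ℚ[X], G.natDegree + s ≤ n → (∀ i ≤ s, L x (X ^ i * G) = 0) →
      ∃ R : ℚ[X], G = P * R ∧ (R ≠ 0 → R.natDegree + 2 * s + 1 ≤ n) := by
  classical
  set N := n - s + 1 with hN
  set V : Submodule ℚ ℚ[X] := degreeLT ℚ N with hV
  let c : V →ₗ[ℚ] (Fin (s + 1) → ℚ) := LinearMap.pi fun i =>
    (L x).comp ((LinearMap.mulLeft ℚ ((X : ℚ[X]) ^ (i : ℕ))).comp V.subtype)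
  have hc : ∀ (G : V) (i : Fin (s + 1)), c G i = L x (X ^ (i : ℕ) * (G : ℚ[X])) := fun G i => rfl
  have hfd : FiniteDimensional ℚ V := by
    exact (degreeLTEquiv ℚ N).symm.finiteDimensional
  have hsurj : LinearMap.range c = ⊤ := by
    by_contra hne
    obtain ⟨f, hf0, hf⟩ := Submodule.exists_le_ker_of_lt_top _ (lt_top_iff_ne_top.2 hne)
    have hfw : ∀ w : Fin (s + 1) → ℚ, f w = ∑ i, w i * f (Pi.single i 1) := by
      intro w
      conv_lhs => rw [show w = ∑ i, w i • (Pi.single i (1 : ℚ) : Fin (s + 1) → ℚ) by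
        ext j; simp [Finset.sum_apply, Pi.single_apply]]
      rw [map_sum]
      simp
    let U : ℚ[X] := ∑ i : Fin (s + 1), monomial (i : ℕ) (f (Pi.single i 1))
    have hUc : ∀ i : Fin (s + 1), U.coeff i = f (Pi.single i 1) := by
      intro i
      simp only [U, finsetSum_coeff, coeff_monomial]
      rw [Finset.sum_eq_single i]
      · simp
      · intro j _ hj
        rw [if_neg]
        intro h
        exact hj (Fin.ext h)
      · simp
    have hUdeg : U.natDegree ≤ s := by
      refine natDegree_sum_le_of_forall_le _ _ fun i _ => ?_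
      exact (natDegree_monomial_le _).trans (by have := i.2; omega)
    have hU0 : U ≠ 0 := by
      intro h0
      apply hf0
      ext i
      have := hUc i
      rw [h0, coeff_zero] at this
      simpa using this.symm
    apply hmin U hU0 hUdeg
    intro i hi
    rw [L_X_pow_mul x U (s + 1) i (by omega)]
    have hXV : (X : ℚ[X]) ^ i ∈ V := mem_degreeLT_of_natDegree_lt (by
      rw [natDegree_X_pow]; omega)
    have h1 : f (c ⟨X ^ i, hXV⟩) = 0 := by
      have : c ⟨X ^ i, hXV⟩ ∈ LinearMap.range c := ⟨_, rfl⟩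
      exact hf this
    rw [hfw] at h1
    rw [← h1, Finset.sum_range]
    refine Finset.sum_congr rfl fun j _ => ?_
    rw [hUc, hc]
    have : (X : ℚ[X]) ^ (j : ℕ) * X ^ i = monomial ((j : ℕ) + i) 1 := by
      rw [← pow_add, monomial_one_right_eq_X_pow]
    simp only [this]
    rw [L_monomial]
    ring
  have hrk := LinearMap.finrank_range_add_finrank_ker c
  rw [hsurj, finrank_top, finrank_degreeLT'] at hrk
  rw [Module.finrank_fin_fun] at hrk
  have h2s : 2 * s ≤ n := by omega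
  refine ⟨h2s, fun G hG hGL => ?_⟩
  -- the two subspaces
  let K : Submodule ℚ ℚ[X] := Submodule.map V.subtype (LinearMap.ker c)
  have hKrk : Module.finrank ℚ K = n - 2 * s := by
    rw [Submodule.finrank_map_subtype_eq]
    omega
  let M : Submodule ℚ ℚ[X] := Submodule.map (LinearMap.mulLeft ℚ P) (degreeLT ℚ (n - 2 * s))
  have hMrk : Module.finrank ℚ M = n - 2 * s := by
    have hinj : Function.Injective (LinearMap.mulLeft ℚ P) := by
      intro a b hab
      simpa [hP] using hab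
    have := (Submodule.equivMapOfInjective (LinearMap.mulLeft ℚ P) hinj
      (degreeLT ℚ (n - 2 * s))).finrank_eq
    rw [finrank_degreeLT'] at this
    exact this.symm
  have hKmem : ∀ G : ℚ[X], G ∈ K ↔ G ∈ V ∧ ∀ i ≤ s, L x (X ^ i * G) = 0 := by
    intro G
    constructor
    · rintro ⟨g, hg, rfl⟩
      refine ⟨g.2, fun i hi => ?_⟩
      have : c g = 0 := hg
      exact congrFun this ⟨i, by omega⟩
    · rintro ⟨hGV, h⟩
      refine ⟨⟨G, hGV⟩, ?_, rfl⟩
      change c ⟨G, hGV⟩ = 0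
      ext i
      exact h i (by have := i.2; omega)
  have hMK : M ≤ K := by
    rintro _ ⟨R, hR, rfl⟩
    have hR' : R ∈ degreeLT ℚ (n - 2 * s) := hR
    rw [hKmem]
    by_cases hR0 : R = 0
    · subst hR0
      simp
    have hRd := natDegree_lt_of_mem hR' hR0
    constructor
    · apply mem_degreeLT_of_natDegree_lt
      rw [LinearMap.mulLeft_apply, natDegree_mul hP hR0]
      omega
    · intro i hi
      rw [LinearMap.mulLeft_apply, L_mul x P R (n - 2 * s) i hRd]
      refine Finset.sum_eq_zero fun j hj => ?_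
      rw [Finset.mem_range] at hj
      rw [hPL (i + j) (by omega), mul_zero]
  have hfdK : FiniteDimensional ℚ K := by
    have : FiniteDimensional ℚ (LinearMap.ker c) := inferInstance
    exact Module.Finite.map _ _
  have hMKeq : M = K := Submodule.eq_of_le_of_finrank_eq hMK (by rw [hMrk, hKrk])
  have hGK : G ∈ K := (hKmem G).2 ⟨mem_degreeLT_of_natDegree_lt (by omega), hGL⟩
  rw [← hMKeq] at hGK
  obtain ⟨R, hR, hRG⟩ := hGK
  refine ⟨R, by rw [← hRG]; rfl, fun hR0 => ?_⟩
  have := natDegree_lt_of_mem hR hR0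
  omega

/-- The minimal recurrence of an integer vector. -/
theorem struct (x : ℕ → ℤ) (n : ℕ) (hn : 1 ≤ n) (hx : x 0 ≠ 0) :
    ∃ (s : ℕ) (P : ℤ[X]), s + 1 ≤ n ∧ P ≠ 0 ∧ P.natDegree ≤ s + 1 ∧
      (∑ j ∈ Finset.range (s + 2), P.coeff j * x j = 0) ∧ 2 * s ≤ n ∧
      ∀ G : ℤ[X], G.natDegree + s ≤ n →
        (∀ i ≤ s, ∑ l ∈ Finset.range (n - s + 1), G.coeff l * x (l + i) = 0) →
        ∃ R : ℤ[X], G = P * R ∧ (R ≠ 0 → R.natDegree + 2 * s + 1 ≤ n) := by
  classical
  have hbase : ∃ P : ℚ[X], P ≠ 0 ∧ P.natDegree ≤ n ∧ ∀ i, i + n ≤ n → L x (X ^ i * P) = 0 := by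
    have hdeg : (monomial 0 (x 1 : ℚ) - monomial 1 (x 0 : ℚ)).natDegree ≤ 1 :=
      (natDegree_sub_le _ _).trans (max_le ((natDegree_monomial_le _).trans (by omega))
        (natDegree_monomial_le _))
    refine ⟨monomial 0 (x 1 : ℚ) - monomial 1 (x 0 : ℚ), ?_, by omega, ?_⟩
    · intro h0
      have := congrArg (fun p => p.coeff 1) h0
      simp only [coeff_sub, coeff_monomial, coeff_zero] at this
      simp at this
      exact hx this
    · intro i hi
      have hi0 : i = 0 := by omega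
      subst hi0
      rw [pow_zero, one_mul, map_sub, L_monomial, L_monomial]
      ring
  have hex : ∃ d, ∃ P : ℚ[X], P ≠ 0 ∧ P.natDegree ≤ d ∧ ∀ i, i + d ≤ n → L x (X ^ i * P) = 0 :=
    ⟨n, hbase⟩
  set r := Nat.find hex with hr
  obtain ⟨P, hP0, hPd, hPL⟩ := Nat.find_spec hex
  rw [← hr] at hPd hPL
  have hrn : r ≤ n := Nat.find_min' hex hbase
  have hr1 : 1 ≤ r := by
    by_contra h
    have hr0 : r = 0 := by omega
    rw [hr0] at hPd hPL
    have h1 := hPL 0 (by omega)
    rw [L_X_pow_mul x P 1 0 (by omega), Finset.sum_range_one] at h1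
    have h2 : P.coeff 0 = 0 := by
      rcases mul_eq_zero.1 h1 with h | h
      · exact h
      · exact absurd (by exact_mod_cast h) hx
    apply hP0
    rw [eq_C_of_natDegree_le_zero hPd, h2, C_0]
  obtain ⟨s, hs⟩ : ∃ s, r = s + 1 := ⟨r - 1, by omega⟩
  have hmin : ∀ U : ℚ[X], U ≠ 0 → U.natDegree ≤ s → ¬ ∀ i, i + s ≤ n → L x (X ^ i * U) = 0 := by
    intro U hU0 hUd hUL
    exact Nat.find_min hex (m := s) (by omega) ⟨U, hU0, hUd, hUL⟩
  -- an integral primitive multiple
  obtain ⟨P', hP'0, hP'prim, q, hq0, hP'q⟩ : ∃ P' : ℤ[X], P' ≠ 0 ∧ P'.IsPrimitive ∧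
      ∃ q : ℚ, q ≠ 0 ∧ P'.map (Int.castRingHom ℚ) = C q * P := by
    obtain ⟨b, hb, hbP⟩ := IsLocalization.integerNormalization_spec (nonZeroDivisors ℤ) P
    set P₁ := IsLocalization.integerNormalization (nonZeroDivisors ℤ) P with hP₁
    have hb0 : (b : ℤ) ≠ 0 := nonZeroDivisors.ne_zero hb
    have hbP' : P₁.map (Int.castRingHom ℚ) = C (b : ℚ) * P := by
      have : (algebraMap ℤ ℚ) = Int.castRingHom ℚ := rfl
      rw [← this, hbP, zsmul_eq_mul]
      simp
    have hP₁0 : P₁ ≠ 0 := by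
      intro h0
      rw [h0, Polynomial.map_zero] at hbP'
      have : (C (b : ℚ) * P) = 0 := hbP'.symm
      rcases mul_eq_zero.1 this with h | h
      · rw [C_eq_zero] at h
        exact hb0 (by exact_mod_cast h)
      · exact hP0 h
    have hcont : (P₁.content : ℚ) ≠ 0 := by
      have : P₁.content ≠ 0 := fun h => hP₁0 (content_eq_zero_iff.1 h)
      exact_mod_cast this
    refine ⟨P₁.primPart, P₁.primPart_ne_zero, P₁.isPrimitive_primPart, (b : ℚ) / P₁.content,
      div_ne_zero (by exact_mod_cast hb0) hcont, ?_⟩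
    have h1 := congrArg (Polynomial.map (Int.castRingHom ℚ)) P₁.eq_C_content_mul_primPart
    rw [hbP', Polynomial.map_mul, Polynomial.map_C] at h1
    have h2 : C ((b : ℚ) / P₁.content) * P = C ((P₁.content : ℚ)⁻¹) * (C (b : ℚ) * P) := by
      rw [← mul_assoc, ← C_mul]; congr 2; field_simp
    rw [h2, h1, ← mul_assoc, ← C_mul]
    simp only [eq_intCast]
    rw [inv_mul_cancel₀ hcont, C_1, one_mul]
  have hmap0 : P'.map (Int.castRingHom ℚ) ≠ 0 := by
    rw [hP'q]; exact mul_ne_zero (by simpa using hq0) hP0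
  have hdeg : P'.natDegree = P.natDegree := by
    rw [← natDegree_map_eq_of_injective (f := Int.castRingHom ℚ) Int.cast_injective P', hP'q,
      natDegree_C_mul hq0]
  have hL' : ∀ i, i + s + 1 ≤ n → L x (X ^ i * P'.map (Int.castRingHom ℚ)) = 0 := by
    intro i hi
    have : X ^ i * P'.map (Int.castRingHom ℚ) = q • (X ^ i * P) := by
      rw [hP'q, smul_eq_C_mul]; ring
    rw [this, map_smul, hPL i (by omega), smul_zero]
  obtain ⟨h2s, hker⟩ := kernel x n s (by omega) (P'.map (Int.castRingHom ℚ)) hmap0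
    (by rw [natDegree_map_eq_of_injective (f := Int.castRingHom ℚ) Int.cast_injective]; omega) hL' hmin
  refine ⟨s, P', by omega, hP'0, by omega, ?_, h2s, ?_⟩
  · have h1 := hL' 0 (by omega)
    rw [L_X_pow_mul x _ (s + 2) 0
      (by rw [natDegree_map_eq_of_injective (f := Int.castRingHom ℚ) Int.cast_injective]; omega)] at h1
    simp only [coeff_map, eq_intCast, add_zero] at h1
    exact_mod_cast h1
  · intro G hG hGx
    obtain ⟨R, hR, -⟩ := hker (G.map (Int.castRingHom ℚ))
      (by rw [natDegree_map_eq_of_injective (f := Int.castRingHom ℚ) Int.cast_injective]; exact hG)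
      (by
        intro i hi
        rw [L_X_pow_mul x _ (n - s + 1) i
          (by rw [natDegree_map_eq_of_injective (f := Int.castRingHom ℚ) Int.cast_injective]; omega)]
        simp only [coeff_map, eq_intCast]
        exact_mod_cast hGx i hi)
    have hdvd : P' ∣ G := by
      rw [IsPrimitive.Int.dvd_iff_map_cast_dvd_map_cast P' G hP'prim]
      exact ⟨R, hR⟩
    obtain ⟨R', hR'⟩ := hdvd
    refine ⟨R', hR', fun hR'0 => ?_⟩
    obtain ⟨R₂, hR₂, hdeg₂⟩ := hker (G.map (Int.castRingHom ℚ))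
      (by rw [natDegree_map_eq_of_injective (f := Int.castRingHom ℚ) Int.cast_injective]; exact hG)
      (by
        intro i hi
        rw [L_X_pow_mul x _ (n - s + 1) i
          (by rw [natDegree_map_eq_of_injective (f := Int.castRingHom ℚ) Int.cast_injective]; omega)]
        simp only [coeff_map, eq_intCast]
        exact_mod_cast hGx i hi)
    have heq : R₂ = R'.map (Int.castRingHom ℚ) := by
      have h1 : P'.map (Int.castRingHom ℚ) * R₂ = P'.map (Int.castRingHom ℚ) * R'.map (Int.castRingHom ℚ) := by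
        rw [← hR₂, hR', Polynomial.map_mul]
      exact mul_left_cancel₀ hmap0 h1
    have hne : R₂ ≠ 0 := by
      rw [heq]
      intro h0
      apply hR'0
      exact (Polynomial.map_eq_zero_iff (f := Int.castRingHom ℚ) Int.cast_injective).1 h0
    have := hdeg₂ hne
    rwa [heq, natDegree_map_eq_of_injective (f := Int.castRingHom ℚ) Int.cast_injective] at this

end Pool.Agent.W10.Schl
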