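import Mathlib
import Pool.Agent.W10.SchlA

/-!
Linear recurrences satisfied by an integer vector close to the Veronese curve: the height of the
characteristic polynomial.
-/

open Polynomial

namespace Pool.Agent.W10.Schl

/-- The naive height of an integer polynomial. -/
def hgt (P : ℤ[X]) : ℕ := P.support.sup fun i => (P.coeff i).natAbs

theorem coeff_le_hgt (P : ℤ[X]) (i : ℕ) : (P.coeff i).natAbs ≤ hgt P := by
  by_cases h : i ∈ P.support
  · exact Finset.le_sup (f := fun i => (P.coeff i).natAbs) h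
  · rw [notMem_support_iff.1 h]; simp

theorem abs_coeff_le_hgt (P : ℤ[X]) (i : ℕ) : |(P.coeff i : ℝ)| ≤ hgt P := by
  rw [← Int.cast_abs, Int.abs_eq_natAbs]
  exact_mod_cast coeff_le_hgt P i

theorem exists_coeff_eq_hgt (P : ℤ[X]) (hP : P ≠ 0) : ∃ i, (P.coeff i).natAbs = hgt P := by
  obtain ⟨i, -, hi⟩ := Finset.exists_mem_eq_sup P.support (nonempty_support_iff.2 hP)
    (fun i => (P.coeff i).natAbs)
  exact ⟨i, hi.symm⟩

theorem hgt_pos (P : ℤ[X]) (hP : P ≠ 0) : 0 < hgt P := by
  have h := coeff_le_hgt P P.natDegree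
  have h1 : P.coeff P.natDegree ≠ 0 := by
    rw [coeff_natDegree]; exact leadingCoeff_ne_zero.2 hP
  have := Int.natAbs_pos.2 h1
  omega

theorem gelfond (P R : ℤ[X]) (hP : P ≠ 0) (hR : R ≠ 0) (n : ℕ) (hn : (P * R).natDegree ≤ n)
    (A : ℝ) (hA : ∀ l, |((P * R).coeff l : ℝ)| ≤ A) (i j : ℕ) :
    |(P.coeff i : ℝ)| * |(R.coeff j : ℝ)| ≤ 2 ^ n * ((n + 1) * A) := by
  have hA0 : 0 ≤ A := (abs_nonneg _).trans (hA 0)
  set p := P.map (Int.castRingHom ℂ) with hp
  set r := R.map (Int.castRingHom ℂ) with hr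
  have hpd : p.natDegree = P.natDegree := natDegree_map_eq_of_injective Int.cast_injective P
  have hrd : r.natDegree = R.natDegree := natDegree_map_eq_of_injective Int.cast_injective R
  have h1 : |(P.coeff i : ℝ)| ≤ 2 ^ P.natDegree * p.mahlerMeasure := by
    have h := norm_coeff_le_choose_mul_mahlerMeasure i p
    rw [hp, coeff_map, ← hp, hpd] at h
    have e : ‖(Int.castRingHom ℂ) (P.coeff i)‖ = |(P.coeff i : ℝ)| := by
      simp
    rw [e] at h
    refine h.trans ?_
    have : ((P.natDegree.choose i : ℕ) : ℝ) ≤ 2 ^ P.natDegree := by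
      exact_mod_cast Nat.choose_le_two_pow _ _
    have h0 := p.mahlerMeasure_nonneg
    gcongr
  have h2 : |(R.coeff j : ℝ)| ≤ 2 ^ R.natDegree * r.mahlerMeasure := by
    have h := norm_coeff_le_choose_mul_mahlerMeasure j r
    rw [hr, coeff_map, ← hr, hrd] at h
    have e : ‖(Int.castRingHom ℂ) (R.coeff j)‖ = |(R.coeff j : ℝ)| := by
      simp
    rw [e] at h
    refine h.trans ?_
    have : ((R.natDegree.choose j : ℕ) : ℝ) ≤ 2 ^ R.natDegree := by
      exact_mod_cast Nat.choose_le_two_pow _ _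
    have h0 := r.mahlerMeasure_nonneg
    gcongr
  have h3 : p.mahlerMeasure * r.mahlerMeasure ≤ (n + 1) * A := by
    rw [← mahlerMeasure_mul, hp, hr, ← Polynomial.map_mul]
    refine (mahlerMeasure_le_sum_norm_coeff _).trans ?_
    rw [sum_over_range' _ (by simp) (n + 1)]
    · calc ∑ a ∈ Finset.range (n + 1), ‖(Polynomial.map (Int.castRingHom ℂ) (P * R)).coeff a‖
          ≤ ∑ a ∈ Finset.range (n + 1), A := by
            refine Finset.sum_le_sum fun a _ => ?_
            rw [coeff_map]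
            have e : ‖(Int.castRingHom ℂ) ((P * R).coeff a)‖ = |((P * R).coeff a : ℝ)| := by
              simp
            rw [e]
            exact hA a
        _ = (n + 1) * A := by simp
    · rw [natDegree_map_eq_of_injective (f := Int.castRingHom ℂ) Int.cast_injective]
      omega
  have hp0 := p.mahlerMeasure_nonneg
  have hr0 := r.mahlerMeasure_nonneg
  calc |(P.coeff i : ℝ)| * |(R.coeff j : ℝ)|
      ≤ (2 ^ P.natDegree * p.mahlerMeasure) * (2 ^ R.natDegree * r.mahlerMeasure) := by gcongr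
    _ = 2 ^ (P.natDegree + R.natDegree) * (p.mahlerMeasure * r.mahlerMeasure) := by ring
    _ ≤ 2 ^ n * ((n + 1) * A) := by
      rw [← natDegree_mul hP hR]
      gcongr
      norm_num

/-- The pigeonhole count. -/
theorem count (ξ : ℝ) (n s : ℕ) (hs : s ≤ n) (h2s : 2 * s ≤ n) (P : ℤ[X]) (hP : P ≠ 0)
    (A ε : ℝ) (hA : 0 ≤ A) (hε : 0 < ε) (b : ℝ) (hb1 : 1 ≤ b) (hb : ∀ i ≤ n, |ξ| ^ i ≤ b)
    (hdiv : ∀ G : ℤ[X], G.natDegree + s ≤ n → (∀ l, |(G.coeff l : ℝ)| ≤ A) →
      |∑ l ∈ Finset.range (n - s + 1), (G.coeff l : ℝ) * ξ ^ l| < ε →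
      ∃ R : ℤ[X], G = P * R ∧ (R ≠ 0 → R.natDegree + 2 * s + 1 ≤ n)) :
    A ^ (n - s + 1) ≤ (2 * (2 ^ n * ((n + 1) * A) / hgt P) + 1) ^ (n - 2 * s) *
      (2 * ((n + 1) * b * A / ε) + 5) := by
  classical
  set M : ℕ := ⌊A⌋₊ with hM
  have hMA : (M : ℝ) ≤ A := Nat.floor_le hA
  have hMA' : A < M + 1 := Nat.lt_floor_add_one A
  set N := n - s + 1 with hN
  have hNn : N ≤ n + 1 := by omega
  let S : Finset (Fin N → ℕ) := Fintype.piFinset fun _ => Finset.range (M + 1)
  have hScard : S.card = (M + 1) ^ N := by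
    simp [S]
  let G : (Fin N → ℕ) → ℤ[X] := fun g => ∑ i : Fin N, monomial (i : ℕ) (g i : ℤ)
  have hGc : ∀ g (i : Fin N), (G g).coeff i = g i := by
    intro g i
    simp only [G, finsetSum_coeff, coeff_monomial]
    rw [Finset.sum_eq_single i]
    · simp
    · intro j _ hj
      rw [if_neg]
      intro h
      exact hj (Fin.ext h)
    · simp
  have hGdeg : ∀ g, (G g).natDegree ≤ n - s := by
    intro g
    refine natDegree_sum_le_of_forall_le _ _ fun i _ => ?_
    exact (natDegree_monomial_le _).trans (by have := i.2; omega)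
  have hGc' : ∀ g l, N ≤ l → (G g).coeff l = 0 := fun g l hl =>
    coeff_eq_zero_of_natDegree_lt (lt_of_le_of_lt (hGdeg g) (by omega))
  let ev : (Fin N → ℕ) → ℝ := fun g => ∑ l ∈ Finset.range N, ((G g).coeff l : ℝ) * ξ ^ l
  have hev : ∀ g ∈ S, |ev g| ≤ (n + 1) * b * A := by
    intro g hg
    have hg' : ∀ i, g i ≤ M := fun i => by
      have := (Fintype.mem_piFinset.1 hg) i
      rw [Finset.mem_range] at this
      omega
    calc |ev g| ≤ ∑ l ∈ Finset.range N, |((G g).coeff l : ℝ) * ξ ^ l| :=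
          Finset.abs_sum_le_sum_abs _ _
      _ ≤ ∑ l ∈ Finset.range N, A * b := by
          refine Finset.sum_le_sum fun l hl => ?_
          rw [Finset.mem_range] at hl
          rw [abs_mul, abs_pow]
          have h1 : |((G g).coeff l : ℝ)| ≤ A := by
            have := hGc g ⟨l, hl⟩
            simp only at this
            rw [this]
            have h2 : ((g ⟨l, hl⟩ : ℕ) : ℝ) ≤ M := by exact_mod_cast hg' _
            rw [Int.cast_natCast, abs_of_nonneg (Nat.cast_nonneg _)]
            exact h2.trans hMA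
          have h3 := hb l (by omega)
          gcongr
      _ = N * (A * b) := by simp
      _ ≤ (n + 1) * (A * b) := by
          gcongr
          exact_mod_cast hNn
      _ = _ := by ring
  let f : (Fin N → ℕ) → ℤ := fun g => ⌊ev g / ε⌋
  set T : ℕ := ⌈(n + 1) * b * A / ε⌉₊ + 1 with hT
  have hTle : ((n + 1) * b * A / ε) + 1 ≤ T := by
    have := Nat.le_ceil ((n + 1) * b * A / ε)
    rw [hT]; push_cast; linarith
  have hTub : (T : ℝ) ≤ (n + 1) * b * A / ε + 2 := by
    have := Nat.ceil_lt_add_one (a := (n + 1) * b * A / ε) (by positivity)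
    rw [hT]; push_cast; linarith
  have hf : ∀ g ∈ S, f g ∈ Finset.Icc (-(T : ℤ)) T := by
    intro g hg
    have h1 := hev g hg
    have h2 : |ev g / ε| ≤ (n + 1) * b * A / ε := by
      rw [abs_div, abs_of_pos hε]; gcongr
    rw [abs_le] at h2
    have h3 := Int.floor_le (ev g / ε)
    have h4 := Int.lt_floor_add_one (ev g / ε)
    rw [Finset.mem_Icc]
    constructor
    · have : (-(T : ℝ)) ≤ (f g : ℝ) := by simp only [f]; linarith [h2.1]
      exact_mod_cast this
    · have : (f g : ℝ) ≤ T := by simp only [f]; linarith [h2.2]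
      exact_mod_cast this
  have hH : (0 : ℝ) < hgt P := by exact_mod_cast hgt_pos P hP
  set B : ℕ := ⌊2 ^ n * ((n + 1) * A) / hgt P⌋₊ with hB
  have hBle : (B : ℝ) ≤ 2 ^ n * ((n + 1) * A) / hgt P := Nat.floor_le (by positivity)
  -- the fibres
  have hfib : ∀ c ∈ Finset.Icc (-(T : ℤ)) T, (S.filter fun g => f g = c).card ≤ (2 * B + 1) ^ (n - 2 * s) := by
    intro c _
    rcases (S.filter fun g => f g = c).eq_empty_or_nonempty with he | ⟨g₀, hg₀⟩
    · rw [he]; simp
    rw [Finset.mem_filter] at hg₀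
    have hR : ∀ g ∈ S.filter (fun g => f g = c), ∃ R : ℤ[X], G g - G g₀ = P * R ∧
        (R ≠ 0 → R.natDegree + 2 * s + 1 ≤ n) := by
      intro g hg
      rw [Finset.mem_filter] at hg
      apply hdiv
      · have := natDegree_sub_le (G g) (G g₀)
        have h1 := hGdeg g
        have h2 := hGdeg g₀
        have h3 : max (G g).natDegree (G g₀).natDegree ≤ n - s := max_le h1 h2
        omega
      · intro l
        rw [coeff_sub]
        rcases lt_or_ge l N with hl | hl
        · have e1 := hGc g ⟨l, hl⟩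
          have e2 := hGc g₀ ⟨l, hl⟩
          simp only at e1 e2
          rw [e1, e2]
          have g1 := (Fintype.mem_piFinset.1 hg.1) ⟨l, hl⟩
          have g2 := (Fintype.mem_piFinset.1 hg₀.1) ⟨l, hl⟩
          rw [Finset.mem_range] at g1 g2
          have g1' : ((g ⟨l, hl⟩ : ℕ) : ℝ) ≤ M := by exact_mod_cast (by omega : g ⟨l, hl⟩ ≤ M)
          have g2' : ((g₀ ⟨l, hl⟩ : ℕ) : ℝ) ≤ M := by exact_mod_cast (by omega : g₀ ⟨l, hl⟩ ≤ M)
          push_cast
          rw [abs_le]
          have p1 : (0 : ℝ) ≤ (g ⟨l, hl⟩ : ℕ) := Nat.cast_nonneg _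
          have p2 : (0 : ℝ) ≤ (g₀ ⟨l, hl⟩ : ℕ) := Nat.cast_nonneg _
          constructor <;> linarith
        · rw [hGc' g l hl, hGc' g₀ l hl]
          simpa using hA
      · have e1 : ∑ l ∈ Finset.range (n - s + 1), ((G g - G g₀).coeff l : ℝ) * ξ ^ l = ev g - ev g₀ := by
          simp only [ev, coeff_sub, Int.cast_sub, sub_mul, Finset.sum_sub_distrib, hN]
        rw [e1]
        have e2 : ⌊ev g / ε⌋ = ⌊ev g₀ / ε⌋ := by
          have h1 : f g = c := hg.2
          have h2 : f g₀ = c := hg₀.2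
          exact h1.trans h2.symm
        have e3 := Int.abs_sub_lt_one_of_floor_eq_floor e2
        rw [← sub_div, abs_div, abs_of_pos hε, div_lt_one hε] at e3
        exact e3
    choose! R hR1 hR2 using hR
    have hRdeg : ∀ g ∈ S.filter (fun g => f g = c), ∀ j, n - 2 * s ≤ j → (R g).coeff j = 0 := by
      intro g hg j hj
      by_cases h0 : R g = 0
      · rw [h0, coeff_zero]
      · have := hR2 g hg h0
        exact coeff_eq_zero_of_natDegree_lt (by omega)
    have hRb : ∀ g ∈ S.filter (fun g => f g = c), ∀ j, (R g).coeff j ∈ Finset.Icc (-(B : ℤ)) B := by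
      intro g hg j
      rw [Finset.mem_Icc, ← abs_le]
      by_cases h0 : R g = 0
      · rw [h0, coeff_zero, abs_zero]; positivity
      have hg' := Finset.mem_filter.1 hg
      obtain ⟨i, hi⟩ := exists_coeff_eq_hgt P hP
      have hdeg : (P * R g).natDegree ≤ n := by
        rw [← hR1 g hg]
        have := natDegree_sub_le (G g) (G g₀)
        have h1 := hGdeg g
        have h2 := hGdeg g₀
        have h3 : max (G g).natDegree (G g₀).natDegree ≤ n - s := max_le h1 h2
        omega
      have hcf : ∀ l, |((P * R g).coeff l : ℝ)| ≤ A := by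
        intro l
        rw [← hR1 g hg, coeff_sub]
        rcases lt_or_ge l N with hl | hl
        · have e1 := hGc g ⟨l, hl⟩
          have e2 := hGc g₀ ⟨l, hl⟩
          simp only at e1 e2
          rw [e1, e2]
          have g1 := (Fintype.mem_piFinset.1 hg'.1) ⟨l, hl⟩
          have g2 := (Fintype.mem_piFinset.1 hg₀.1) ⟨l, hl⟩
          rw [Finset.mem_range] at g1 g2
          have g1' : ((g ⟨l, hl⟩ : ℕ) : ℝ) ≤ M := by exact_mod_cast (by omega : g ⟨l, hl⟩ ≤ M)
          have g2' : ((g₀ ⟨l, hl⟩ : ℕ) : ℝ) ≤ M := by exact_mod_cast (by omega : g₀ ⟨l, hl⟩ ≤ M)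
          push_cast
          rw [abs_le]
          have p1 : (0 : ℝ) ≤ (g ⟨l, hl⟩ : ℕ) := Nat.cast_nonneg _
          have p2 : (0 : ℝ) ≤ (g₀ ⟨l, hl⟩ : ℕ) := Nat.cast_nonneg _
          constructor <;> linarith
        · rw [hGc' g l hl, hGc' g₀ l hl]
          simpa using hA
      have h1 := gelfond P (R g) hP h0 n hdeg A hcf i j
      have h2 : |(P.coeff i : ℝ)| = hgt P := by
        rw [← Int.cast_abs, Int.abs_eq_natAbs, hi]; rfl
      rw [h2, mul_comm, ← le_div_iff₀ hH] at h1
      have h3 : ((R g).coeff j).natAbs ≤ B := by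
        apply Nat.le_floor
        have : |((R g).coeff j : ℝ)| = (((R g).coeff j).natAbs : ℝ) := by
          rw [← Int.cast_abs, Int.abs_eq_natAbs]; rfl
        rw [← this]
        exact h1
      rw [Int.abs_eq_natAbs]
      exact_mod_cast h3
    let U : Finset (Fin (n - 2 * s) → ℤ) := Fintype.piFinset fun _ => Finset.Icc (-(B : ℤ)) B
    have hUcard : U.card = (2 * B + 1) ^ (n - 2 * s) := by
      simp only [U, Fintype.card_piFinset, Int.card_Icc, Finset.prod_const, Finset.card_univ,
        Fintype.card_fin]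
      congr 1
      omega
    rw [← hUcard]
    refine Finset.card_le_card_of_injOn (fun g => fun j : Fin (n - 2 * s) => (R g).coeff j) ?_ ?_
    · intro g hg
      rw [Finset.mem_coe, Fintype.mem_piFinset]
      exact fun j => hRb g hg j
    · intro g hg g' hg' heq
      have h1 : R g = R g' := by
        ext j
        rcases lt_or_ge j (n - 2 * s) with hj | hj
        · exact congrFun heq ⟨j, hj⟩
        · rw [hRdeg g hg j hj, hRdeg g' hg' j hj]
      have h2 : G g = G g' := by
        have e1 := hR1 g hg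
        have e2 := hR1 g' hg'
        rw [h1] at e1
        have : G g - G g₀ = G g' - G g₀ := e1.trans e2.symm
        exact sub_left_injective this
      ext i
      have := hGc g i
      rw [h2, hGc g' i] at this
      exact_mod_cast this.symm
  have hcard := Finset.card_le_mul_card_image_of_maps_to hf ((2 * B + 1) ^ (n - 2 * s)) hfib
  rw [hScard, Int.card_Icc] at hcard
  have hcard' : ((M : ℝ) + 1) ^ N ≤ (2 * (B : ℝ) + 1) ^ (n - 2 * s) * (2 * (T : ℝ) + 1) := by
    have h1 : ((T : ℤ) + 1 - -(T : ℤ)).toNat = 2 * T + 1 := by omega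
    rw [h1] at hcard
    exact_mod_cast hcard
  calc A ^ N ≤ ((M : ℝ) + 1) ^ N := by gcongr
    _ ≤ (2 * (B : ℝ) + 1) ^ (n - 2 * s) * (2 * (T : ℝ) + 1) := hcard'
    _ ≤ (2 * (2 ^ n * ((n + 1) * A) / hgt P) + 1) ^ (n - 2 * s) *
      (2 * ((n + 1) * b * A / ε) + 5) := by
        have e1 : 2 * (B : ℝ) + 1 ≤ 2 * (2 ^ n * ((n + 1) * A) / hgt P) + 1 := by linarith
        have e2 : 2 * (T : ℝ) + 1 ≤ 2 * ((n + 1) * b * A / ε) + 5 := by linarith
        exact mul_le_mul (pow_le_pow_left₀ (by positivity) e1 _) e2 (by positivity) (by positivity)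

end Pool.Agent.W10.Schl
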