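import Mathlib
import Pool.Agent.W10.SchlB

/-!
Step one: a good simultaneous approximation yields a polynomial of small height and small value.
-/

open Polynomial Filter

namespace Pool.Agent.W10.Schl

theorem ev_gt (a K : ℝ) (ha : 0 < a) : ∀ᶠ q : ℕ in atTop, K < (q : ℝ) ^ a :=
  ((tendsto_rpow_atTop ha).comp tendsto_natCast_atTop_atTop).eventually (eventually_gt_atTop K)

set_option maxHeartbeats 4000000 in
theorem step1 (ξ l : ℝ) (n : ℕ) (hn : 1 ≤ n) (hl : 2 < n * l) :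
    ∃ C : ℝ, 0 < C ∧ ∀ᶠ q : ℕ in atTop, ∀ x : ℕ → ℤ, x 0 = q →
      (∀ j ≤ n, |(x j : ℝ) - q * ξ ^ j| ≤ (q : ℝ) ^ (-l)) →
      ∃ (s : ℕ) (P : ℤ[X]), 2 * s + 1 ≤ n ∧ P ≠ 0 ∧ P.natDegree ≤ s + 1 ∧
        (hgt P : ℝ) ^ (n - 2 * s) ≤ C * (q : ℝ) ^ (1 - s * l) ∧
        |∑ j ∈ Finset.range (s + 2), (P.coeff j : ℝ) * ξ ^ j| ≤ C * hgt P * (q : ℝ) ^ (-1 - l) := by
  have hnR : (1 : ℝ) ≤ n := by exact_mod_cast hn
  have hl0 : 0 < l := by
    by_contra h
    push Not at h
    nlinarith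
  set b : ℝ := (1 + |ξ|) ^ n with hb
  have hb1 : 1 ≤ b := one_le_pow₀ (by linarith [abs_nonneg ξ])
  have hbi : ∀ i ≤ n, |ξ| ^ i ≤ b := fun i hi => by
    calc |ξ| ^ i ≤ (1 + |ξ|) ^ i := by gcongr; linarith
      _ ≤ b := pow_le_pow_right₀ (by linarith [abs_nonneg ξ]) hi
  set g : ℝ := 2 * (2 ^ n * (n + 1)) with hg
  set C1 : ℝ := 8 * (n + 1) * b ^ 2 + 5 with hC1
  set K : ℝ := (g + 1) ^ n * C1 with hK
  set a : ℝ := 4 * (n + 1) with ha
  have hg0 : 0 < g := by positivity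
  have hC10 : 0 < C1 := by positivity
  have hK0 : 0 < K := by positivity
  have ha1 : 1 ≤ a := by rw [ha]; linarith
  have ha0 : 0 < a := by linarith
  set C : ℝ := K * a ^ n + (n + 2) with hC
  refine ⟨C, by positivity, ?_⟩
  have hE2 := ev_gt l a hl0
  have hE3 := ev_gt (n * l / 2 - 1) (K * a ^ n) (by linarith)
  have hE4 := ev_gt (n * l - 2) (K ^ 2 * a ^ n) (by linarith)
  filter_upwards [eventually_ge_atTop 1, hE2, hE3, hE4] with q hq1 hq2 hq3 hq4
  intro x hx0 hx
  have hqR : (1 : ℝ) ≤ q := by exact_mod_cast hq1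
  have hq0 : (0 : ℝ) < q := by linarith
  obtain ⟨s, P, hsn, hP0, hPd, hPx, h2s, hdiv⟩ := struct x n hn (by rw [hx0]; exact_mod_cast (by omega : q ≠ 0))
  have hH : (0 : ℝ) < hgt P := by exact_mod_cast hgt_pos P hP0
  have hH1 : (1 : ℝ) ≤ hgt P := by exact_mod_cast hgt_pos P hP0
  set A : ℝ := (q : ℝ) ^ l / a with hA
  have hA1 : 1 ≤ A := by rw [hA, le_div_iff₀ ha0]; linarith
  have hA0 : 0 < A := by linarith
  set ε : ℝ := 1 / (4 * b * q) with hε
  have hε0 : 0 < ε := by positivity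
  have hql : (q : ℝ) ^ (-l) * (q : ℝ) ^ l = 1 := by
    rw [← Real.rpow_add hq0]; simp
  have hcount := count ξ n s (by omega) h2s P hP0 A ε hA0.le hε0 b hb1 hbi (by
    intro G hGd hGA hGε
    apply hdiv G hGd
    intro i hi
    set y : ℤ := ∑ t ∈ Finset.range (n - s + 1), G.coeff t * x (t + i) with hy
    have hyR : (y : ℝ) = q * ξ ^ i * (∑ t ∈ Finset.range (n - s + 1), (G.coeff t : ℝ) * ξ ^ t) +
        ∑ t ∈ Finset.range (n - s + 1), (G.coeff t : ℝ) * ((x (t + i) : ℝ) - q * ξ ^ (t + i)) := by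
      rw [hy]
      push_cast
      rw [Finset.mul_sum, ← Finset.sum_add_distrib]
      refine Finset.sum_congr rfl fun t _ => ?_
      rw [pow_add]
      ring
    have h1 : |(q : ℝ) * ξ ^ i * (∑ t ∈ Finset.range (n - s + 1), (G.coeff t : ℝ) * ξ ^ t)| ≤ 1 / 4 := by
      rw [abs_mul, abs_mul, abs_pow, abs_of_pos hq0]
      calc (q : ℝ) * |ξ| ^ i * |∑ t ∈ Finset.range (n - s + 1), (G.coeff t : ℝ) * ξ ^ t|
          ≤ q * b * ε := by
            have := hbi i (by omega)
            gcongr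
        _ = 1 / 4 := by rw [hε]; field_simp
    have h2 : |∑ t ∈ Finset.range (n - s + 1), (G.coeff t : ℝ) * ((x (t + i) : ℝ) - q * ξ ^ (t + i))| ≤ 1 / 4 := by
      calc |∑ t ∈ Finset.range (n - s + 1), (G.coeff t : ℝ) * ((x (t + i) : ℝ) - q * ξ ^ (t + i))|
          ≤ ∑ t ∈ Finset.range (n - s + 1), |(G.coeff t : ℝ) * ((x (t + i) : ℝ) - q * ξ ^ (t + i))| :=
            Finset.abs_sum_le_sum_abs _ _
        _ ≤ ∑ t ∈ Finset.range (n - s + 1), A * (q : ℝ) ^ (-l) := by
            refine Finset.sum_le_sum fun t ht => ?_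
            rw [Finset.mem_range] at ht
            rw [abs_mul]
            have := hx (t + i) (by omega)
            have := hGA t
            gcongr
        _ = ((n - s + 1 : ℕ) : ℝ) * (A * (q : ℝ) ^ (-l)) := by simp
        _ ≤ (n + 1) * (A * (q : ℝ) ^ (-l)) := by
            gcongr
            exact_mod_cast (by omega : n - s + 1 ≤ n + 1)
        _ = 1 / 4 := by
            rw [hA, div_mul_eq_mul_div, mul_comm ((q : ℝ) ^ l), hql, ha]
            field_simp
    have h3 : |(y : ℝ)| < 1 := by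
      rw [hyR]
      refine lt_of_le_of_lt (abs_add_le _ _) ?_
      linarith
    have h4 : |y| < 1 := by exact_mod_cast h3
    exact Int.abs_lt_one_iff.1 h4)
  -- simplify the counting inequality
  have hcount2 : A ^ (n - s) ≤ (g * (A / hgt P) + 1) ^ (n - 2 * s) * C1 * q := by
    have e1 : 2 * (2 ^ n * ((n + 1) * A) / hgt P) + 1 = g * (A / hgt P) + 1 := by rw [hg]; ring
    have e2 : 2 * ((n + 1) * b * A / ε) + 5 ≤ C1 * (A * q) := by
      have e3 : (n + 1) * b * A / ε = 4 * (n + 1) * b ^ 2 * (A * q) := by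
        rw [hε]; field_simp
      have e4 : 1 ≤ A * q := one_le_mul_of_one_le_of_one_le hA1 hqR
      rw [e3, hC1]
      calc 2 * (4 * ((n : ℝ) + 1) * b ^ 2 * (A * q)) + 5
          = 8 * ((n : ℝ) + 1) * b ^ 2 * (A * q) + 5 * 1 := by ring
        _ ≤ 8 * ((n : ℝ) + 1) * b ^ 2 * (A * q) + 5 * (A * q) := by gcongr
        _ = _ := by ring
    rw [e1] at hcount
    have e3 : A ^ (n - s) * A ≤ (g * (A / hgt P) + 1) ^ (n - 2 * s) * C1 * q * A := by
      rw [← pow_succ]
      calc A ^ (n - s + 1) ≤ _ := hcount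
        _ ≤ (g * (A / hgt P) + 1) ^ (n - 2 * s) * (C1 * (A * q)) := by gcongr
        _ = _ := by ring
    exact le_of_mul_le_mul_right e3 hA0
  have hgp : 1 ≤ (g + 1) := by linarith
  have hpow : (g + 1) ^ (n - 2 * s) * C1 ≤ K := by
    rw [hK]
    gcongr
    omega
  rcases lt_or_ge A (hgt P) with hcase | hcase
  · -- large height: impossible
    exfalso
    have e1 : g * (A / hgt P) + 1 ≤ g + 1 := by
      have h1 : A / hgt P ≤ 1 := by rw [div_le_one hH]; exact hcase.le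
      have h2 : g * (A / hgt P) ≤ g * 1 := by gcongr
      linarith
    have e2 : A ^ (n - s) ≤ K * q := by
      calc A ^ (n - s) ≤ _ := hcount2
        _ ≤ (g + 1) ^ (n - 2 * s) * C1 * q := by gcongr
        _ ≤ K * q := by gcongr
    have e3 : A ^ n ≤ (K * q) ^ 2 := by
      calc A ^ n ≤ A ^ (2 * (n - s)) := pow_le_pow_right₀ hA1 (by omega)
        _ = (A ^ (n - s)) ^ 2 := by rw [← pow_mul]; congr 1; ring
        _ ≤ _ := by gcongr
    have e4 : A ^ n * a ^ n = (q : ℝ) ^ (n * l) := by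
      rw [hA, div_pow, div_mul_cancel₀ _ (by positivity), ← Real.rpow_natCast, ← Real.rpow_mul hq0.le]
      congr 1; ring
    have e5 : (q : ℝ) ^ (n * l) = (q : ℝ) ^ (n * l - 2) * (q : ℝ) ^ 2 := by
      rw [← Real.rpow_natCast (q : ℝ) 2, ← Real.rpow_add hq0]
      congr 1; push_cast; ring
    have e6 : A ^ n * a ^ n ≤ K ^ 2 * a ^ n * (q : ℝ) ^ 2 := by
      calc A ^ n * a ^ n ≤ (K * q) ^ 2 * a ^ n := by gcongr
        _ = _ := by ring
    rw [e4, e5] at e6
    have e7 : (0 : ℝ) < (q : ℝ) ^ 2 := by positivity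
    exact absurd (le_of_mul_le_mul_right e6 e7) (not_le.2 hq4)
  · -- the height bound
    have e1 : g * (A / hgt P) + 1 ≤ (g + 1) * (A / hgt P) := by
      have h1 : 1 ≤ A / hgt P := by rw [le_div_iff₀ hH]; linarith
      rw [add_mul, one_mul]
      linarith
    have e2 : A ^ (n - s) ≤ ((g + 1) * (A / hgt P)) ^ (n - 2 * s) * C1 * q := by
      calc A ^ (n - s) ≤ _ := hcount2
        _ ≤ _ := by gcongr
    have e3 : (hgt P : ℝ) ^ (n - 2 * s) * A ^ s ≤ K * q := by
      have f1 : A ^ (n - s) = A ^ (n - 2 * s) * A ^ s := by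
        rw [← pow_add]; congr 1; omega
      have f2 : ((g + 1) * (A / hgt P)) ^ (n - 2 * s) * (hgt P : ℝ) ^ (n - 2 * s) =
          (g + 1) ^ (n - 2 * s) * A ^ (n - 2 * s) := by
        rw [← mul_pow, ← mul_pow]; congr 1; field_simp
      have f3 : A ^ (n - 2 * s) * ((hgt P : ℝ) ^ (n - 2 * s) * A ^ s) ≤
          A ^ (n - 2 * s) * ((g + 1) ^ (n - 2 * s) * C1 * q) := by
        calc A ^ (n - 2 * s) * ((hgt P : ℝ) ^ (n - 2 * s) * A ^ s)
            = A ^ (n - s) * (hgt P : ℝ) ^ (n - 2 * s) := by rw [f1]; ring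
          _ ≤ (((g + 1) * (A / hgt P)) ^ (n - 2 * s) * C1 * q) * (hgt P : ℝ) ^ (n - 2 * s) := by gcongr
          _ = (((g + 1) * (A / hgt P)) ^ (n - 2 * s) * (hgt P : ℝ) ^ (n - 2 * s)) * C1 * q := by ring
          _ = _ := by rw [f2]; ring
      have f4 := le_of_mul_le_mul_left f3 (by positivity)
      refine f4.trans ?_
      gcongr
    have e4 : A ^ s * a ^ s = (q : ℝ) ^ (s * l) := by
      rw [hA, div_pow, div_mul_cancel₀ _ (by positivity), ← Real.rpow_natCast, ← Real.rpow_mul hq0.le]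
      congr 1; ring
    have e5 : (hgt P : ℝ) ^ (n - 2 * s) ≤ K * a ^ n * (q : ℝ) ^ (1 - s * l) := by
      have f1 : (q : ℝ) ^ (1 - s * l) * (q : ℝ) ^ (s * l) = q := by
        rw [← Real.rpow_add hq0]; simp
      have f2 : (hgt P : ℝ) ^ (n - 2 * s) * (q : ℝ) ^ (s * l) ≤
          (K * a ^ n * (q : ℝ) ^ (1 - s * l)) * (q : ℝ) ^ (s * l) := by
        calc (hgt P : ℝ) ^ (n - 2 * s) * (q : ℝ) ^ (s * l)
            = ((hgt P : ℝ) ^ (n - 2 * s) * A ^ s) * a ^ s := by rw [← e4]; ring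
          _ ≤ (K * q) * a ^ n := by
              have : a ^ s ≤ a ^ n := pow_le_pow_right₀ ha1 (by omega)
              gcongr
          _ = K * a ^ n * ((q : ℝ) ^ (1 - s * l) * (q : ℝ) ^ (s * l)) := by rw [f1]; ring
          _ = _ := by ring
      exact le_of_mul_le_mul_right f2 (by positivity)
    have hns : 2 * s + 1 ≤ n := by
      by_contra hcon
      have h2n : n = 2 * s := by omega
      have f0 : n - 2 * s = 0 := by omega
      rw [f0, pow_zero] at e5
      have f1 : (q : ℝ) ^ (1 - s * l) * (q : ℝ) ^ (n * l / 2 - 1) = 1 := by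
        rw [← Real.rpow_add hq0]
        have : (n : ℝ) = 2 * s := by exact_mod_cast h2n
        rw [this]
        have : (1 - (s : ℝ) * l) + (2 * s * l / 2 - 1) = 0 := by ring
        rw [this, Real.rpow_zero]
      have f2 : (q : ℝ) ^ (n * l / 2 - 1) ≤ K * a ^ n := by
        calc (q : ℝ) ^ (n * l / 2 - 1) = 1 * (q : ℝ) ^ (n * l / 2 - 1) := by ring
          _ ≤ (K * a ^ n * (q : ℝ) ^ (1 - s * l)) * (q : ℝ) ^ (n * l / 2 - 1) := by gcongr
          _ = K * a ^ n * ((q : ℝ) ^ (1 - s * l) * (q : ℝ) ^ (n * l / 2 - 1)) := by ring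
          _ = _ := by rw [f1, mul_one]
      linarith
    refine ⟨s, P, hns, hP0, hPd, ?_, ?_⟩
    · refine e5.trans ?_
      gcongr
      rw [hC]
      linarith
    · have f1 : (q : ℝ) * (∑ j ∈ Finset.range (s + 2), (P.coeff j : ℝ) * ξ ^ j) =
          - ∑ j ∈ Finset.range (s + 2), (P.coeff j : ℝ) * ((x j : ℝ) - q * ξ ^ j) := by
        have h0 : ((∑ j ∈ Finset.range (s + 2), P.coeff j * x j : ℤ) : ℝ) = 0 := by
          exact_mod_cast hPx
        push_cast at h0
        have h1 : ∑ j ∈ Finset.range (s + 2), (P.coeff j : ℝ) * ((x j : ℝ) - q * ξ ^ j) =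
            (∑ j ∈ Finset.range (s + 2), (P.coeff j : ℝ) * x j) -
              q * (∑ j ∈ Finset.range (s + 2), (P.coeff j : ℝ) * ξ ^ j) := by
          rw [Finset.mul_sum, ← Finset.sum_sub_distrib]
          refine Finset.sum_congr rfl fun j _ => by ring
        rw [h1, h0]; ring
      have f2 : |(q : ℝ) * (∑ j ∈ Finset.range (s + 2), (P.coeff j : ℝ) * ξ ^ j)| ≤
          (n + 2) * (hgt P * (q : ℝ) ^ (-l)) := by
        rw [f1, abs_neg]
        calc |∑ j ∈ Finset.range (s + 2), (P.coeff j : ℝ) * ((x j : ℝ) - q * ξ ^ j)|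
            ≤ ∑ j ∈ Finset.range (s + 2), |(P.coeff j : ℝ) * ((x j : ℝ) - q * ξ ^ j)| :=
              Finset.abs_sum_le_sum_abs _ _
          _ ≤ ∑ j ∈ Finset.range (s + 2), (hgt P : ℝ) * (q : ℝ) ^ (-l) := by
              refine Finset.sum_le_sum fun j hj => ?_
              rw [Finset.mem_range] at hj
              rw [abs_mul]
              have h1 := hx j (by omega)
              have h2 := abs_coeff_le_hgt P j
              gcongr
          _ = ((s + 2 : ℕ) : ℝ) * (hgt P * (q : ℝ) ^ (-l)) := by simp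
          _ ≤ (n + 2) * (hgt P * (q : ℝ) ^ (-l)) := by
              gcongr
              exact_mod_cast (by omega : s + 2 ≤ n + 2)
      rw [abs_mul, abs_of_pos hq0] at f2
      have f3 : (q : ℝ) ^ (-l) = q * (q : ℝ) ^ (-1 - l) := by
        rw [← Real.rpow_one_add' hq0.le]
        · congr 1; ring
        · linarith
      rw [f3] at f2
      have f4 : (q : ℝ) * |∑ j ∈ Finset.range (s + 2), (P.coeff j : ℝ) * ξ ^ j| ≤
          q * ((n + 2) * hgt P * (q : ℝ) ^ (-1 - l)) := by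
        refine f2.trans (le_of_eq ?_); ring
      have f5 := le_of_mul_le_mul_left f4 hq0
      refine f5.trans ?_
      have : (n : ℝ) + 2 ≤ C := by
        rw [hC]
        have : 0 < K * a ^ n := by positivity
        linarith
      gcongr

end Pool.Agent.W10.Schl
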