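import Mathlib
import Pool.Agent.W10.SchlB

/-!
Step two: a polynomial of small height and small value yields simultaneous approximations in a
higher dimension.
-/

open Polynomial Filter

namespace Pool.Agent.W10.Schl

theorem interp (d : ℕ) : ∃ C : ℝ, 1 ≤ C ∧ ∀ P : ℤ[X], P ≠ 0 → P.natDegree ≤ d →
    ∃ c : ℕ, c ≤ d ∧ (hgt P : ℝ) ≤ C * |((P.eval (c : ℤ) : ℤ) : ℝ)| := by
  classical
  let S := Finset.range (d + 1)
  let v : ℕ → ℝ := fun i => i
  have hv : Set.InjOn v S := fun a _ b _ h => by simpa [v] using h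
  let B : ℝ := ∑ i ∈ S, ∑ j ∈ S, |(Lagrange.basis S v i).coeff j|
  have hB0 : 0 ≤ B := Finset.sum_nonneg fun _ _ => Finset.sum_nonneg fun _ _ => abs_nonneg _
  refine ⟨B + 1, by linarith, fun P hP hPd => ?_⟩
  obtain ⟨c, hcS, hc⟩ := Finset.exists_max_image S (fun i => |((P.eval (i : ℤ) : ℤ) : ℝ)|)
    ⟨0, by simp [S]⟩
  refine ⟨c, by simpa [S, Nat.lt_succ_iff] using hcS, ?_⟩
  obtain ⟨j, hj⟩ := exists_coeff_eq_hgt P hP
  set p := P.map (Int.castRingHom ℝ) with hp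
  have hpd : p.degree < S.card := by
    have h1 : p.natDegree ≤ d := (natDegree_map_le).trans hPd
    have h2 : p ≠ 0 := (Polynomial.map_ne_zero_iff (f := Int.castRingHom ℝ) Int.cast_injective).2 hP
    rw [← natDegree_lt_iff_degree_lt h2]
    simp [S]; omega
  have heq := Lagrange.eq_interpolate hv hpd
  have hcoef : p.coeff j = ∑ i ∈ S, p.eval (v i) * (Lagrange.basis S v i).coeff j := by
    conv_lhs => rw [heq, Lagrange.interpolate_apply, finsetSum_coeff]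
    refine Finset.sum_congr rfl fun i _ => ?_
    rw [coeff_C_mul]
  have hjd : j ∈ S := by
    by_contra hjn
    have : P.coeff j = 0 := coeff_eq_zero_of_natDegree_lt (by simp [S] at hjn; omega)
    rw [this] at hj
    have := hgt_pos P hP
    simp at hj
    omega
  have hev : ∀ i : ℕ, p.eval (v i) = ((P.eval (i : ℤ) : ℤ) : ℝ) := by
    intro i
    have := Polynomial.eval_intCast_map (Int.castRingHom ℝ) P (i : ℤ)
    simp [v, hp]
  have h1 : (hgt P : ℝ) = |p.coeff j| := by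
    rw [hp, coeff_map, eq_intCast, ← Int.cast_abs, Int.abs_eq_natAbs, hj]; rfl
  rw [h1, hcoef]
  set m := |((P.eval (c : ℤ) : ℤ) : ℝ)| with hm
  calc |∑ i ∈ S, p.eval (v i) * (Lagrange.basis S v i).coeff j|
      ≤ ∑ i ∈ S, |p.eval (v i) * (Lagrange.basis S v i).coeff j| := Finset.abs_sum_le_sum_abs _ _
    _ ≤ ∑ i ∈ S, m * ∑ j ∈ S, |(Lagrange.basis S v i).coeff j| := by
        refine Finset.sum_le_sum fun i hi => ?_
        rw [abs_mul, hev i]
        have e1 := hc i hi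
        have e2 : |(Lagrange.basis S v i).coeff j| ≤ ∑ j ∈ S, |(Lagrange.basis S v i).coeff j| :=
          Finset.single_le_sum (f := fun j => |(Lagrange.basis S v i).coeff j|)
            (fun _ _ => abs_nonneg _) hjd
        gcongr
    _ = B * m := by rw [← Finset.mul_sum, mul_comm]
    _ ≤ (B + 1) * m := by
        have : 0 ≤ m := abs_nonneg _
        nlinarith

/-- The expansion of an integer polynomial around an integer. -/
theorem shift (P : ℤ[X]) (d : ℕ) (hd : P.natDegree ≤ d) (c : ℕ) :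
    ∃ b : ℕ → ℤ, b 0 = P.eval (c : ℤ) ∧
      (∀ i, |(b i : ℝ)| ≤ (d + 1) * (2 ^ d * (c + 1) ^ d) * hgt P) ∧
      ∀ η : ℝ, ∑ i ∈ Finset.range (d + 1), (b i : ℝ) * η ^ i =
        ∑ j ∈ Finset.range (d + 1), (P.coeff j : ℝ) * (c + η) ^ j := by
  refine ⟨fun i => ∑ j ∈ Finset.range (d + 1), P.coeff j * ((j.choose i : ℕ) * (c : ℤ) ^ (j - i)),
    ?_, ?_, ?_⟩
  · rw [eval_eq_sum_range' (n := d + 1) (by omega)]
    simp
  · intro i
    push_cast
    calc |∑ j ∈ Finset.range (d + 1), (P.coeff j : ℝ) * ((j.choose i : ℕ) * (c : ℝ) ^ (j - i))|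
        ≤ ∑ j ∈ Finset.range (d + 1), |(P.coeff j : ℝ) * ((j.choose i : ℕ) * (c : ℝ) ^ (j - i))| :=
          Finset.abs_sum_le_sum_abs _ _
      _ ≤ ∑ j ∈ Finset.range (d + 1), (hgt P : ℝ) * (2 ^ d * (c + 1) ^ d) := by
          refine Finset.sum_le_sum fun j hj => ?_
          rw [Finset.mem_range] at hj
          rw [abs_mul, abs_of_nonneg (by positivity : (0 : ℝ) ≤ (j.choose i : ℕ) * (c : ℝ) ^ (j - i))]
          have h1 := abs_coeff_le_hgt P j
          have h2 : ((j.choose i : ℕ) : ℝ) ≤ 2 ^ d := by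
            have h3 : j.choose i ≤ 2 ^ j := Nat.choose_le_two_pow _ _
            have h4 : 2 ^ j ≤ 2 ^ d := Nat.pow_le_pow_right (by norm_num) (by omega)
            exact_mod_cast h3.trans h4
          have h3 : (c : ℝ) ^ (j - i) ≤ (c + 1) ^ d := by
            calc (c : ℝ) ^ (j - i) ≤ (c + 1) ^ (j - i) := by gcongr; linarith
              _ ≤ (c + 1) ^ d := pow_le_pow_right₀ (by linarith [(Nat.cast_nonneg c : (0 : ℝ) ≤ c)]) (by omega)
          gcongr
      _ = _ := by simp; ring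
  · intro η
    push_cast
    simp_rw [Finset.sum_mul]
    rw [Finset.sum_comm]
    refine Finset.sum_congr rfl fun j hj => ?_
    rw [Finset.mem_range] at hj
    rw [add_comm (c : ℝ) η, add_pow, Finset.mul_sum]
    rw [← Finset.sum_subset (s₁ := Finset.range (j + 1)) (s₂ := Finset.range (d + 1))]
    · refine Finset.sum_congr rfl fun i _ => ?_
      ring
    · intro a ha
      rw [Finset.mem_range] at ha ⊢
      omega
    · intro a _ ha
      rw [Finset.mem_range] at ha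
      rw [Nat.choose_eq_zero_of_lt (by omega)]
      simp

/-- A pigeonhole lemma for integral vectors. -/
theorem pigeon (m s : ℕ) (hsm : s ≤ m) (Z : ℕ) (Λ : Fin s → (Fin (m + 1) → ℕ) → ℝ)
    (Γ : Fin (m - s) → (Fin (m + 1) → ℕ) → ℤ) (T₁ T₂ : ℕ)
    (hΛ : ∀ w : Fin (m + 1) → ℕ, (∀ i, w i < Z) → ∀ t, |Λ t w| ≤ T₁)
    (hΓ : ∀ w : Fin (m + 1) → ℕ, (∀ i, w i < Z) → ∀ t, |Γ t w| ≤ T₂)
    (hcard : (2 * T₁ + 3) ^ s * (2 * T₂ + 1) ^ (m - s) < Z ^ (m + 1)) :
    ∃ w w' : Fin (m + 1) → ℕ, w ≠ w' ∧ (∀ i, w i < Z) ∧ (∀ i, w' i < Z) ∧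
      (∀ t, |Λ t w - Λ t w'| < 1) ∧ (∀ t, Γ t w = Γ t w') := by
  classical
  let S : Finset (Fin (m + 1) → ℕ) := Fintype.piFinset fun _ => Finset.range Z
  have hS : S.card = Z ^ (m + 1) := by simp [S]
  let T : Finset ((Fin s → ℤ) × (Fin (m - s) → ℤ)) :=
    (Fintype.piFinset fun _ => Finset.Icc (-((T₁ : ℤ) + 1)) (T₁ + 1)) ×ˢ
      (Fintype.piFinset fun _ => Finset.Icc (-(T₂ : ℤ)) T₂)
  have hT : T.card = (2 * T₁ + 3) ^ s * (2 * T₂ + 1) ^ (m - s) := by
    simp only [T, Finset.card_product, Fintype.card_piFinset, Int.card_Icc, Finset.prod_const,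
      Finset.card_univ, Fintype.card_fin]
    congr 2
    · omega
    · omega
  let f : (Fin (m + 1) → ℕ) → (Fin s → ℤ) × (Fin (m - s) → ℤ) := fun w =>
    (fun t => ⌊Λ t w⌋, fun t => Γ t w)
  have hSmem : ∀ w, w ∈ S ↔ ∀ i, w i < Z := fun w => by simp [S]
  have hf : Set.MapsTo f S T := by
    intro w hw
    have hw' := (hSmem w).1 hw
    rw [Finset.mem_coe, Finset.mem_product]
    refine ⟨Fintype.mem_piFinset.2 fun t => ?_, Fintype.mem_piFinset.2 fun t => ?_⟩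
    · have h1 := hΛ w hw' t
      rw [abs_le] at h1
      have h2 := Int.floor_le (Λ t w)
      have h3 := Int.lt_floor_add_one (Λ t w)
      rw [Finset.mem_Icc]
      simp only [f]
      constructor
      · have : (-((T₁ : ℝ) + 1)) ≤ (⌊Λ t w⌋ : ℝ) := by linarith [h1.1]
        exact_mod_cast this
      · have : (⌊Λ t w⌋ : ℝ) ≤ T₁ + 1 := by linarith [h1.2]
        exact_mod_cast this
    · have h1 := hΓ w hw' t
      rw [Finset.mem_Icc]
      exact abs_le.1 h1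
  obtain ⟨w, hw, w', hw', hne, heq⟩ := Finset.exists_ne_map_eq_of_card_lt_of_maps_to
    (by rw [hT, hS]; exact hcard) hf
  refine ⟨w, w', hne, (hSmem w).1 hw, (hSmem w').1 hw', fun t => ?_, fun t => ?_⟩
  · have h1 := congrFun (congrArg Prod.fst heq) t
    exact Int.abs_sub_lt_one_of_floor_eq_floor h1
  · exact congrFun (congrArg Prod.snd heq) t

set_option maxHeartbeats 4000000 in
theorem step2 (ξ : ℝ) (hξ : Irrational ξ) (m s : ℕ) (hsm : s + 1 ≤ m) :
    ∃ C : ℝ, 1 ≤ C ∧ ∀ (P : ℤ[X]) (Z : ℕ) (δ : ℝ), P ≠ 0 → P.natDegree ≤ s + 1 → 0 < δ → δ ≤ 1 →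
      1 ≤ Z → C * (hgt P : ℝ) ^ (m - s) ≤ Z * δ ^ s →
      C * (δ + Z * (|∑ j ∈ Finset.range (s + 2), (P.coeff j : ℝ) * ξ ^ j| / hgt P)) < 1 →
      ∃ y : ℕ → ℤ, y 0 ≠ 0 ∧ |(y 0 : ℝ)| ≤ Z ∧ ∀ j ≤ m, |(y j : ℝ) - y 0 * ξ ^ j| ≤
        C * (δ + Z * (|∑ j ∈ Finset.range (s + 2), (P.coeff j : ℝ) * ξ ^ j| / hgt P)) := by
  classical
  obtain ⟨CL, hCL1, hCL⟩ := interp (s + 1)
  have hne : ∀ c : ℕ, ξ - c ≠ 0 := fun c h => hξ ⟨(c : ℚ), by push_cast; linarith⟩
  -- bound for the powers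
  let Θ : ℝ := ∑ c ∈ Finset.range (m + 1), (1 + |ξ - c| + |(ξ - c)⁻¹|) ^ m
  have hΘ : ∀ c ≤ m, ∀ t ≤ m, |ξ - c| ^ t ≤ Θ ∧ |(ξ - c)⁻¹| ^ t ≤ Θ := by
    intro c hc t ht
    have h0 : (1 + |ξ - c| + |(ξ - c)⁻¹|) ^ m ≤ Θ :=
      Finset.single_le_sum (f := fun c : ℕ => (1 + |ξ - c| + |(ξ - c)⁻¹|) ^ m)
        (fun _ _ => by positivity) (Finset.mem_range.2 (by omega))
    have h1 : (1 + |ξ - c| + |(ξ - c)⁻¹|) ^ t ≤ (1 + |ξ - c| + |(ξ - c)⁻¹|) ^ m :=
      pow_le_pow_right₀ (by linarith [abs_nonneg (ξ - c), abs_nonneg (ξ - c)⁻¹]) ht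
    constructor
    · refine le_trans ?_ (h1.trans h0)
      gcongr
      linarith [abs_nonneg (ξ - c), abs_nonneg (ξ - c)⁻¹]
    · refine le_trans ?_ (h1.trans h0)
      gcongr
      linarith [abs_nonneg (ξ - c), abs_nonneg (ξ - c)⁻¹]
  have hΘ1 : 1 ≤ Θ := by simpa using (hΘ 0 (Nat.zero_le _) 0 (Nat.zero_le _)).1
  let Cb : ℕ := (s + 2) * (2 ^ (s + 1) * (m + 1) ^ (s + 1))
  have hCb1 : 1 ≤ Cb := Nat.one_le_iff_ne_zero.2 (by positivity)
  let D : ℝ := CL * (m + 1) * Cb + CL * Θ + 1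
  have hD1 : 1 ≤ D := by
    have : 0 ≤ CL * (m + 1) * Cb + CL * Θ := by positivity
    simp only [D]; linarith
  let K1 : ℝ := 4 * Θ + 7
  let K2 : ℝ := 2 * (s + 2) * Cb + 1
  have hK1 : 1 ≤ K1 := by simp only [K1]; linarith
  have hK2 : 1 ≤ K2 := by
    have : 0 ≤ 2 * ((s : ℝ) + 2) * Cb := by positivity
    simp only [K2]; linarith
  let C : ℝ := K1 ^ s * K2 ^ (m - s) + 1 + ((m + 1) ^ m + (1 + |ξ|) ^ m + Θ + 1) * D ^ m
  have hK0 : 0 < K1 ^ s * K2 ^ (m - s) := by positivity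
  have hC1 : 1 ≤ C := by
    have : 0 ≤ ((m + 1 : ℝ) ^ m + (1 + |ξ|) ^ m + Θ + 1) * D ^ m := by positivity
    simp only [C]; linarith
  refine ⟨C, hC1, ?_⟩
  intro P Z δ hP hPd hδ hδ1 hZ hCZ hCκ
  have hH : (0 : ℝ) < hgt P := by exact_mod_cast hgt_pos P hP
  have hH1 : (1 : ℝ) ≤ hgt P := by exact_mod_cast hgt_pos P hP
  have hZR : (1 : ℝ) ≤ Z := by exact_mod_cast hZ
  set p₀ : ℝ := |∑ j ∈ Finset.range (s + 2), (P.coeff j : ℝ) * ξ ^ j| with hp₀
  set κ : ℝ := δ + Z * (p₀ / hgt P) with hκ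
  have hp₀0 : 0 ≤ p₀ := abs_nonneg _
  have hκ0 : 0 ≤ κ := by positivity
  obtain ⟨c, hcs, hc⟩ := hCL P hP hPd
  obtain ⟨b, hb0, hbb, hbη⟩ := shift P (s + 1) hPd c
  set η : ℝ := ξ - c with hη
  have hη0 : η ≠ 0 := hne c
  set θ : ℝ := η⁻¹ with hθ
  have hθt : ∀ t ≤ m, |θ| ^ t ≤ Θ := fun t ht => (hΘ c (by omega) t ht).2
  have hηt : ∀ t ≤ m, |η| ^ t ≤ Θ := fun t ht => (hΘ c (by omega) t ht).1
  have hbb' : ∀ i, |(b i : ℝ)| ≤ Cb * hgt P := by
    intro i
    refine (hbb i).trans ?_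
    simp only [Cb]
    push_cast
    have : (c : ℝ) ≤ m := by exact_mod_cast (by omega : c ≤ m)
    have e : ((s : ℝ) + 1 + 1) = s + 2 := by ring
    rw [e]
    gcongr
  have hbbZ : ∀ i, |b i| ≤ (Cb * hgt P : ℕ) := by
    intro i
    have := hbb' i
    exact_mod_cast this
  have hPη : |∑ i ∈ Finset.range (s + 2), (b i : ℝ) * η ^ i| = p₀ := by
    have h1 := hbη η
    rw [show s + 1 + 1 = s + 2 by ring] at h1
    rw [h1, hp₀, hη]
    congr 1
    refine Finset.sum_congr rfl fun j _ => ?_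
    congr 2
    ring
  have hb0' : (hgt P : ℝ) ≤ CL * |(b 0 : ℝ)| := by rw [hb0]; exact hc
  have hb0ne : |(b 0 : ℝ)| ≠ 0 := by
    intro h0; rw [h0] at hb0'; linarith
  -- the pigeonhole
  let T₁ : ℕ := ⌈2 * Θ * Z / δ⌉₊
  let T₂ : ℕ := (s + 2) * (Cb * hgt P) * Z
  let Λ : Fin s → (Fin (m + 1) → ℕ) → ℝ := fun t w =>
    ((w ⟨t + 1, by omega⟩ : ℕ) - (w 0 : ℕ) * θ ^ ((t : ℕ) + 1)) / δ
  let Γ : Fin (m - s) → (Fin (m + 1) → ℕ) → ℤ := fun t w =>
    ∑ i : Fin (s + 2), b i * (w ⟨(t : ℕ) + s + 1 - i, by have := t.2; have := i.2; omega⟩ : ℕ)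
  have hΛ : ∀ w : Fin (m + 1) → ℕ, (∀ i, w i < Z) → ∀ t, |Λ t w| ≤ T₁ := by
    intro w hw t
    have h1 : |((w ⟨t + 1, by omega⟩ : ℕ) : ℝ) - (w 0 : ℕ) * θ ^ ((t : ℕ) + 1)| ≤ 2 * Θ * Z := by
      have e1 : ((w ⟨t + 1, by omega⟩ : ℕ) : ℝ) ≤ Z := by exact_mod_cast (hw _).le
      have e2 : ((w 0 : ℕ) : ℝ) ≤ Z := by exact_mod_cast (hw _).le
      have e3 := hθt ((t : ℕ) + 1) (by have := t.2; omega)
      refine (abs_sub _ _).trans ?_
      rw [abs_mul, abs_pow, Nat.abs_cast, Nat.abs_cast]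
      calc ((w ⟨t + 1, by omega⟩ : ℕ) : ℝ) + (w 0 : ℕ) * |θ| ^ ((t : ℕ) + 1) ≤ Z + Z * Θ := by gcongr
        _ ≤ Θ * Z + Z * Θ := by
          have : (Z : ℝ) ≤ Θ * Z := le_mul_of_one_le_left (by linarith) hΘ1
          linarith
        _ = _ := by ring
    simp only [Λ, abs_div, abs_of_pos hδ]
    refine le_trans ?_ (Nat.le_ceil _)
    gcongr
  have hΓ : ∀ w : Fin (m + 1) → ℕ, (∀ i, w i < Z) → ∀ t, |Γ t w| ≤ T₂ := by
    intro w hw t
    simp only [Γ]
    calc |∑ i : Fin (s + 2), b i * (w ⟨(t : ℕ) + s + 1 - i, by have := t.2; have := i.2; omega⟩ : ℕ)|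
        ≤ ∑ i : Fin (s + 2), |b i * (w ⟨(t : ℕ) + s + 1 - i, by have := t.2; have := i.2; omega⟩ : ℕ)| :=
          Finset.abs_sum_le_sum_abs _ _
      _ ≤ ∑ _i : Fin (s + 2), ((Cb * hgt P : ℕ) : ℤ) * Z := by
          refine Finset.sum_le_sum fun i _ => ?_
          rw [abs_mul, Nat.abs_cast]
          have h1 := hbbZ i
          have h2 : ((w ⟨(t : ℕ) + s + 1 - i, by have := t.2; have := i.2; omega⟩ : ℕ) : ℤ) ≤ Z := by
            exact_mod_cast (hw _).le
          gcongr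
      _ = (T₂ : ℤ) := by
          simp only [Finset.sum_const, Finset.card_univ, Fintype.card_fin, T₂]
          push_cast
          ring
  have hT1 : (2 * (T₁ : ℝ) + 3) ≤ K1 * (Z / δ) := by
    have h1 : (T₁ : ℝ) < 2 * Θ * Z / δ + 1 := Nat.ceil_lt_add_one (by positivity)
    have h2 : 1 ≤ Z / δ := by rw [le_div_iff₀ hδ]; linarith
    have h3 : 2 * Θ * Z / δ = 2 * Θ * (Z / δ) := by ring
    rw [h3] at h1
    simp only [K1]
    nlinarith
  have hT2 : (2 * (T₂ : ℝ) + 1) ≤ K2 * (hgt P * Z) := by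
    have h2 : 1 ≤ (hgt P : ℝ) * Z := one_le_mul_of_one_le_of_one_le hH1 hZR
    simp only [T₂, K2]
    push_cast
    nlinarith
  have hcard : (2 * T₁ + 3) ^ s * (2 * T₂ + 1) ^ (m - s) < Z ^ (m + 1) := by
    have h1 : ((2 * (T₁ : ℝ) + 3) ^ s * (2 * (T₂ : ℝ) + 1) ^ (m - s)) < (Z : ℝ) ^ (m + 1) := by
      calc (2 * (T₁ : ℝ) + 3) ^ s * (2 * (T₂ : ℝ) + 1) ^ (m - s)
          ≤ (K1 * (Z / δ)) ^ s * (K2 * (hgt P * Z)) ^ (m - s) := by gcongr
        _ = (K1 ^ s * K2 ^ (m - s)) * (hgt P : ℝ) ^ (m - s) * ((Z : ℝ) ^ s * (Z : ℝ) ^ (m - s)) / δ ^ s := by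
            rw [mul_pow, mul_pow, mul_pow, div_pow]
            ring
        _ = (K1 ^ s * K2 ^ (m - s)) * (hgt P : ℝ) ^ (m - s) * (Z : ℝ) ^ m / δ ^ s := by
            rw [← pow_add]
            congr 3
            omega
        _ < C * (hgt P : ℝ) ^ (m - s) * (Z : ℝ) ^ m / δ ^ s := by
            have : K1 ^ s * K2 ^ (m - s) < C := by
              have : 0 ≤ ((m + 1 : ℝ) ^ m + (1 + |ξ|) ^ m + Θ + 1) * D ^ m := by positivity
              simp only [C]; linarith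
            gcongr
        _ ≤ (Z * δ ^ s) * (Z : ℝ) ^ m / δ ^ s := by gcongr
        _ = (Z : ℝ) ^ (m + 1) := by
            rw [pow_succ]
            field_simp
    exact_mod_cast h1
  obtain ⟨w, w', hww, hw, hw', hΛw, hΓw⟩ := pigeon m s (by omega) Z Λ Γ T₁ T₂ hΛ hΓ hcard
  -- the difference
  let u : ℕ → ℤ := fun t => if h : t < m + 1 then (w ⟨t, h⟩ : ℤ) - w' ⟨t, h⟩ else 0
  have hu : ∀ t (h : t < m + 1), u t = (w ⟨t, h⟩ : ℤ) - w' ⟨t, h⟩ := fun t h => dif_pos h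
  have hu0 : ∃ t, t ≤ m ∧ u t ≠ 0 := by
    by_contra hcon
    push Not at hcon
    apply hww
    ext i
    have h1 := hcon i (by have := i.2; omega)
    rw [hu i i.2] at h1
    have : (w i : ℤ) = w' i := by linarith
    exact_mod_cast this
  have huZ : ∀ t ≤ m, |(u t : ℝ)| ≤ Z := by
    intro t ht
    rw [hu t (by omega)]
    have e1 : ((w ⟨t, by omega⟩ : ℕ) : ℝ) ≤ Z := by exact_mod_cast (hw _).le
    have e2 : ((w' ⟨t, by omega⟩ : ℕ) : ℝ) ≤ Z := by exact_mod_cast (hw' _).le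
    have e3 : (0 : ℝ) ≤ (w ⟨t, by omega⟩ : ℕ) := Nat.cast_nonneg _
    have e4 : (0 : ℝ) ≤ (w' ⟨t, by omega⟩ : ℕ) := Nat.cast_nonneg _
    push_cast
    rw [abs_le]
    constructor <;> linarith
  have hud : ∀ t, 1 ≤ t → t ≤ s → |(u t : ℝ) - u 0 * θ ^ t| < δ := by
    intro t ht1 hts
    have h1 := hΛw ⟨t - 1, by omega⟩
    simp only [Λ] at h1
    have e1 : t - 1 + 1 = t := by omega
    have e2 : ∀ w : Fin (m + 1) → ℕ, w ⟨t - 1 + 1, by omega⟩ = w ⟨t, by omega⟩ := by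
      intro w; congr 1; ext; exact e1
    rw [e2 w, e2 w', e1, ← sub_div, abs_div, abs_of_pos hδ, div_lt_one hδ] at h1
    rw [hu t (by omega), hu 0 (by omega)]
    push_cast
    have e3 : ((w ⟨t, by omega⟩ : ℕ) : ℝ) - (w' ⟨t, by omega⟩ : ℕ) -
        (((w ⟨0, by omega⟩ : ℕ) : ℝ) - (w' ⟨0, by omega⟩ : ℕ)) * θ ^ t =
        ((w ⟨t, by omega⟩ : ℕ) : ℝ) - (w 0 : ℕ) * θ ^ t - (((w' ⟨t, by omega⟩ : ℕ) : ℝ) - (w' 0 : ℕ) * θ ^ t) := by
      have : (⟨0, by omega⟩ : Fin (m + 1)) = 0 := rfl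
      rw [this]; ring
    rw [e3]
    exact h1
  have hurec : ∀ t, s + 1 ≤ t → t ≤ m → ∑ i ∈ Finset.range (s + 2), b i * u (t - i) = 0 := by
    intro t ht1 htm
    have h1 := hΓw ⟨t - (s + 1), by omega⟩
    simp only [Γ] at h1
    rw [Finset.sum_range]
    rw [← sub_eq_zero, ← Finset.sum_sub_distrib] at h1
    rw [← h1]
    refine Finset.sum_congr rfl fun i _ => ?_
    have e1 : t - (s + 1) + s + 1 - (i : ℕ) = t - i := by omega
    have e2 : ∀ w : Fin (m + 1) → ℕ, w ⟨t - (s + 1) + s + 1 - (i : ℕ), by omega⟩ = w ⟨t - i, by omega⟩ := by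
      intro w; congr 1; ext; exact e1
    rw [e2 w, e2 w', hu (t - i) (by omega)]
    ring
  -- the errors
  have herr : ∀ t ≤ m, |(u t : ℝ) - u 0 * θ ^ t| ≤ D ^ t * κ := by
    intro t
    induction t using Nat.strong_induction_on with
    | _ t ih =>
      intro htm
      rcases Nat.eq_zero_or_pos t with h0 | hpos
      · subst h0; simpa using hκ0
      rcases le_or_gt t s with hts | hts
      · refine (hud t hpos hts).le.trans ?_
        have h1 : δ ≤ κ := by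
          have : 0 ≤ Z * (p₀ / hgt P) := by positivity
          rw [hκ]; linarith
        have h2 : 1 ≤ D ^ t := one_le_pow₀ hD1
        calc δ ≤ κ := h1
          _ ≤ D ^ t * κ := le_mul_of_one_le_left hκ0 h2
      · have hrec := hurec t (by omega) htm
        have hrecR : ∑ i ∈ Finset.range (s + 2), (b i : ℝ) * u (t - i) = 0 := by exact_mod_cast hrec
        rw [Finset.sum_range_succ'] at hrecR
        have hpoly : ∑ i ∈ Finset.range (s + 2), (b i : ℝ) * θ ^ (t - i) =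
            θ ^ t * ∑ i ∈ Finset.range (s + 2), (b i : ℝ) * η ^ i := by
          rw [Finset.mul_sum]
          refine Finset.sum_congr rfl fun i hi => ?_
          rw [Finset.mem_range] at hi
          have : θ ^ t = θ ^ (t - i) * θ ^ i := by rw [← pow_add]; congr 1; omega
          rw [this, hθ, inv_pow, inv_pow]
          field_simp
        rw [Finset.sum_range_succ'] at hpoly
        have hkey : (b 0 : ℝ) * ((u t : ℝ) - u 0 * θ ^ t) =
            - (∑ i ∈ Finset.range (s + 1), (b (i + 1) : ℝ) * ((u (t - (i + 1)) : ℝ) - u 0 * θ ^ (t - (i + 1))))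
            - u 0 * (θ ^ t * ∑ i ∈ Finset.range (s + 2), (b i : ℝ) * η ^ i) := by
          rw [← hpoly]
          simp only [Nat.sub_zero] at hrecR ⊢
          have e1 : ∑ i ∈ Finset.range (s + 1), (b (i + 1) : ℝ) * ((u (t - (i + 1)) : ℝ) - u 0 * θ ^ (t - (i + 1))) =
              (∑ i ∈ Finset.range (s + 1), (b (i + 1) : ℝ) * (u (t - (i + 1)) : ℝ)) -
              u 0 * ∑ i ∈ Finset.range (s + 1), (b (i + 1) : ℝ) * θ ^ (t - (i + 1)) := by
            rw [Finset.mul_sum, ← Finset.sum_sub_distrib]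
            refine Finset.sum_congr rfl fun i _ => by ring
          rw [e1]
          linear_combination hrecR
        have hb : |(b 0 : ℝ)| * |(u t : ℝ) - u 0 * θ ^ t| ≤
            (s + 1) * (Cb * hgt P * (D ^ (t - 1) * κ)) + Z * (Θ * p₀) := by
          rw [← abs_mul, hkey]
          refine (abs_sub _ _).trans (add_le_add ?_ ?_)
          · rw [abs_neg]
            calc |∑ i ∈ Finset.range (s + 1), (b (i + 1) : ℝ) * ((u (t - (i + 1)) : ℝ) - u 0 * θ ^ (t - (i + 1)))|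
                ≤ ∑ i ∈ Finset.range (s + 1), |(b (i + 1) : ℝ) * ((u (t - (i + 1)) : ℝ) - u 0 * θ ^ (t - (i + 1)))| :=
                  Finset.abs_sum_le_sum_abs _ _
              _ ≤ ∑ i ∈ Finset.range (s + 1), Cb * hgt P * (D ^ (t - 1) * κ) := by
                  refine Finset.sum_le_sum fun i hi => ?_
                  rw [Finset.mem_range] at hi
                  rw [abs_mul]
                  have e1 := hbb' (i + 1)
                  have e2 := ih (t - (i + 1)) (by omega) (by omega)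
                  have e3 : D ^ (t - (i + 1)) ≤ D ^ (t - 1) := pow_le_pow_right₀ hD1 (by omega)
                  have e4 : |(u (t - (i + 1)) : ℝ) - u 0 * θ ^ (t - (i + 1))| ≤ D ^ (t - 1) * κ := by
                    refine e2.trans ?_
                    gcongr
                  gcongr
              _ = _ := by simp
          · rw [abs_mul, abs_mul, abs_pow, hPη]
            have e1 := huZ 0 (by omega)
            have e2 := hθt t htm
            gcongr
        have hb2 : |(u t : ℝ) - u 0 * θ ^ t| ≤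
            CL * ((m + 1) * Cb * (D ^ (t - 1) * κ)) + CL * (Θ * (Z * (p₀ / hgt P))) := by
          have e1 : (hgt P : ℝ) * |(u t : ℝ) - u 0 * θ ^ t| ≤
              CL * ((s + 1) * (Cb * hgt P * (D ^ (t - 1) * κ)) + Z * (Θ * p₀)) := by
            calc (hgt P : ℝ) * |(u t : ℝ) - u 0 * θ ^ t|
                ≤ (CL * |(b 0 : ℝ)|) * |(u t : ℝ) - u 0 * θ ^ t| := by gcongr
              _ = CL * (|(b 0 : ℝ)| * |(u t : ℝ) - u 0 * θ ^ t|) := by ring
              _ ≤ _ := by gcongr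
          have e2 : (s : ℝ) + 1 ≤ m + 1 := by
            have : (s : ℝ) ≤ m := by exact_mod_cast (by omega : s ≤ m)
            linarith
          have e3 : (hgt P : ℝ) * |(u t : ℝ) - u 0 * θ ^ t| ≤
              hgt P * (CL * ((m + 1) * Cb * (D ^ (t - 1) * κ)) + CL * (Θ * (Z * (p₀ / hgt P)))) := by
            refine e1.trans ?_
            have e4 : (hgt P : ℝ) * (CL * ((m + 1) * Cb * (D ^ (t - 1) * κ)) + CL * (Θ * (Z * (p₀ / hgt P)))) =
                CL * ((m + 1) * (Cb * hgt P * (D ^ (t - 1) * κ)) + Z * (Θ * p₀)) := by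
              field_simp
            rw [e4]
            gcongr
          exact le_of_mul_le_mul_left e3 hH
        have hD' : D ^ t = D * D ^ (t - 1) := by
          rw [← pow_succ']; congr 1; omega
        have hDt : 1 ≤ D ^ (t - 1) := one_le_pow₀ hD1
        have e5 : Z * (p₀ / hgt P) ≤ D ^ (t - 1) * κ := by
          have h1 : Z * (p₀ / hgt P) ≤ κ := by rw [hκ]; linarith
          exact h1.trans (le_mul_of_one_le_left hκ0 hDt)
        refine hb2.trans ?_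
        rw [hD', mul_assoc D]
        calc CL * ((m + 1) * Cb * (D ^ (t - 1) * κ)) + CL * (Θ * (Z * (p₀ / hgt P)))
            ≤ CL * ((m + 1) * Cb * (D ^ (t - 1) * κ)) + CL * (Θ * (D ^ (t - 1) * κ)) := by gcongr
          _ = (CL * (m + 1) * Cb + CL * Θ) * (D ^ (t - 1) * κ) := by ring
          _ ≤ D * (D ^ (t - 1) * κ) := by
              have : 0 ≤ D ^ (t - 1) * κ := by positivity
              simp only [D]
              nlinarith
  have herr' : ∀ t ≤ m, |(u t : ℝ) - u 0 * θ ^ t| ≤ D ^ m * κ := fun t ht => by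
    refine (herr t ht).trans ?_
    have := pow_le_pow_right₀ hD1 ht
    gcongr
  have hDm : 0 < D ^ m := by positivity
  have hCbig : ((m + 1 : ℝ) ^ m + (1 + |ξ|) ^ m + Θ + 1) * D ^ m ≤ C := by
    simp only [C]; linarith
  have hΘκ : (Θ + 1) * D ^ m * κ < 1 := by
    refine lt_of_le_of_lt ?_ hCκ
    have : (Θ + 1) * D ^ m ≤ C := by
      refine le_trans ?_ hCbig
      gcongr
      have : 0 ≤ (m + 1 : ℝ) ^ m + (1 + |ξ|) ^ m := by positivity
      linarith
    gcongr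
  -- the last coordinate is nonzero
  have hum : u m ≠ 0 := by
    intro h0
    have h1 := herr' m le_rfl
    rw [h0, Int.cast_zero, zero_sub, abs_neg, abs_mul, abs_pow] at h1
    have h2 : |(u 0 : ℝ)| < 1 := by
      have e1 : |(u 0 : ℝ)| = |(u 0 : ℝ)| * |θ| ^ m * |η| ^ m := by
        rw [mul_assoc, ← mul_pow, hθ, abs_inv, inv_mul_cancel₀ (abs_ne_zero.2 hη0), one_pow, mul_one]
      rw [e1]
      calc |(u 0 : ℝ)| * |θ| ^ m * |η| ^ m ≤ (D ^ m * κ) * Θ := by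
            exact mul_le_mul h1 (hηt m le_rfl) (pow_nonneg (abs_nonneg _) _) (mul_nonneg hDm.le hκ0)
        _ = Θ * D ^ m * κ := by ring
        _ ≤ (Θ + 1) * D ^ m * κ :=
            mul_le_mul_of_nonneg_right (mul_le_mul_of_nonneg_right (by linarith) hDm.le) hκ0
        _ < 1 := hΘκ
    have h3 : u 0 = 0 := by
      have : |u 0| < 1 := by exact_mod_cast h2
      exact Int.abs_lt_one_iff.1 this
    obtain ⟨t, htm, hut⟩ := hu0
    apply hut
    have h4 := herr' t htm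
    rw [h3, Int.cast_zero, zero_mul, sub_zero] at h4
    have h5 : |(u t : ℝ)| < 1 := by
      refine lt_of_le_of_lt h4 (lt_of_le_of_lt ?_ hΘκ)
      have : D ^ m * κ ≤ (Θ + 1) * (D ^ m * κ) := le_mul_of_one_le_left (by positivity) (by linarith)
      linarith
    have : |u t| < 1 := by exact_mod_cast h5
    exact Int.abs_lt_one_iff.1 this
  -- back to the original coordinates
  refine ⟨fun i => ∑ j ∈ Finset.range (i + 1), ((i.choose j : ℕ) : ℤ) * (c : ℤ) ^ (i - j) * u (m - j), ?_, ?_, ?_⟩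
  · show (∑ j ∈ Finset.range (0 + 1), (((0 : ℕ).choose j : ℕ) : ℤ) * (c : ℤ) ^ (0 - j) * u (m - j)) ≠ 0
    rw [zero_add, Finset.sum_range_one, Nat.choose_self, Nat.sub_self, pow_zero, Nat.sub_zero,
      Nat.cast_one, one_mul, one_mul]
    exact hum
  · show |((∑ j ∈ Finset.range (0 + 1), (((0 : ℕ).choose j : ℕ) : ℤ) * (c : ℤ) ^ (0 - j) * u (m - j) : ℤ) : ℝ)| ≤ Z
    rw [zero_add, Finset.sum_range_one, Nat.choose_self, Nat.sub_self, pow_zero, Nat.sub_zero,
      Nat.cast_one, one_mul, one_mul]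
    exact huZ m le_rfl
  · intro i him
    have hy0 : ((∑ j ∈ Finset.range (0 + 1), (((0 : ℕ).choose j : ℕ) : ℤ) * (c : ℤ) ^ (0 - j) * u (m - j) : ℤ) : ℝ) = u m := by
      rw [zero_add, Finset.sum_range_one, Nat.choose_self, Nat.sub_self, pow_zero, Nat.sub_zero,
        Nat.cast_one, one_mul, one_mul]
    rw [hy0]
    push_cast
    have e1 : ∑ j ∈ Finset.range (i + 1), ((i.choose j : ℕ) : ℝ) * (c : ℝ) ^ (i - j) * θ ^ (m - j) = θ ^ m * ξ ^ i := by
      have h1 : ξ = η + c := by rw [hη]; ring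
      rw [h1, add_pow, Finset.mul_sum]
      refine Finset.sum_congr rfl fun j hj => ?_
      rw [Finset.mem_range] at hj
      have : θ ^ m = θ ^ (m - j) * θ ^ j := by rw [← pow_add]; congr 1; omega
      rw [this, hθ, inv_pow, inv_pow]
      field_simp
    have e2 : ∑ j ∈ Finset.range (i + 1), ((i.choose j : ℕ) : ℝ) * (c : ℝ) ^ (i - j) * (u (m - j) : ℝ) - u m * ξ ^ i =
        (∑ j ∈ Finset.range (i + 1), ((i.choose j : ℕ) : ℝ) * (c : ℝ) ^ (i - j) * ((u (m - j) : ℝ) - u 0 * θ ^ (m - j)))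
          - ξ ^ i * ((u m : ℝ) - u 0 * θ ^ m) := by
      have h1 : ∑ j ∈ Finset.range (i + 1), ((i.choose j : ℕ) : ℝ) * (c : ℝ) ^ (i - j) * ((u (m - j) : ℝ) - u 0 * θ ^ (m - j)) =
          (∑ j ∈ Finset.range (i + 1), ((i.choose j : ℕ) : ℝ) * (c : ℝ) ^ (i - j) * (u (m - j) : ℝ)) -
          u 0 * ∑ j ∈ Finset.range (i + 1), ((i.choose j : ℕ) : ℝ) * (c : ℝ) ^ (i - j) * θ ^ (m - j) := by
        rw [Finset.mul_sum, ← Finset.sum_sub_distrib]
        refine Finset.sum_congr rfl fun j _ => by ring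
      rw [h1, e1]
      ring
    rw [e2]
    have e3 : |∑ j ∈ Finset.range (i + 1), ((i.choose j : ℕ) : ℝ) * (c : ℝ) ^ (i - j) * ((u (m - j) : ℝ) - u 0 * θ ^ (m - j))|
        ≤ (m + 1) ^ m * (D ^ m * κ) := by
      calc |∑ j ∈ Finset.range (i + 1), ((i.choose j : ℕ) : ℝ) * (c : ℝ) ^ (i - j) * ((u (m - j) : ℝ) - u 0 * θ ^ (m - j))|
          ≤ ∑ j ∈ Finset.range (i + 1), |((i.choose j : ℕ) : ℝ) * (c : ℝ) ^ (i - j) * ((u (m - j) : ℝ) - u 0 * θ ^ (m - j))| :=
            Finset.abs_sum_le_sum_abs _ _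
        _ ≤ ∑ j ∈ Finset.range (i + 1), ((i.choose j : ℕ) : ℝ) * (c : ℝ) ^ (i - j) * (D ^ m * κ) := by
            refine Finset.sum_le_sum fun j _ => ?_
            rw [abs_mul, abs_of_nonneg (by positivity : (0 : ℝ) ≤ ((i.choose j : ℕ) : ℝ) * (c : ℝ) ^ (i - j))]
            have := herr' (m - j) (by omega)
            gcongr
        _ = (1 + c) ^ i * (D ^ m * κ) := by
            rw [← Finset.sum_mul]
            congr 1
            rw [add_pow 1 (c : ℝ) i]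
            refine Finset.sum_congr rfl fun j _ => ?_
            rw [one_pow, one_mul, mul_comm]
        _ ≤ (m + 1) ^ m * (D ^ m * κ) := by
            have h1 : (1 + (c : ℝ)) ≤ m + 1 := by
              have : (c : ℝ) ≤ m := by exact_mod_cast (by omega : c ≤ m)
              linarith
            have h2 : (1 + (c : ℝ)) ^ i ≤ (m + 1) ^ m := by
              calc (1 + (c : ℝ)) ^ i ≤ (m + 1) ^ i := by gcongr
                _ ≤ (m + 1) ^ m := pow_le_pow_right₀ (by linarith [(Nat.cast_nonneg m : (0 : ℝ) ≤ m)]) him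
            gcongr
    have e4 : |ξ ^ i * ((u m : ℝ) - u 0 * θ ^ m)| ≤ (1 + |ξ|) ^ m * (D ^ m * κ) := by
      rw [abs_mul, abs_pow]
      have h1 : |ξ| ^ i ≤ (1 + |ξ|) ^ m := by
        calc |ξ| ^ i ≤ (1 + |ξ|) ^ i := by gcongr; linarith
          _ ≤ _ := pow_le_pow_right₀ (by linarith [abs_nonneg ξ]) him
      have h2 := herr' m le_rfl
      gcongr
    refine (abs_sub _ _).trans ((add_le_add e3 e4).trans ?_)
    calc (m + 1 : ℝ) ^ m * (D ^ m * κ) + (1 + |ξ|) ^ m * (D ^ m * κ)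
        = (((m + 1 : ℝ) ^ m + (1 + |ξ|) ^ m) * D ^ m) * κ := by ring
      _ ≤ (((m + 1 : ℝ) ^ m + (1 + |ξ|) ^ m + Θ + 1) * D ^ m) * κ := by
          have h1 : (m + 1 : ℝ) ^ m + (1 + |ξ|) ^ m ≤ (m + 1 : ℝ) ^ m + (1 + |ξ|) ^ m + Θ + 1 := by
            linarith
          exact mul_le_mul_of_nonneg_right (mul_le_mul_of_nonneg_right h1 hDm.le) hκ0
      _ ≤ C * κ := by gcongr

end Pool.Agent.W10.Schl
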