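import Mathlib
import Pool.Agent.W10.SchlB

/-!
Extraction of infinitely many good denominators.
-/

open Filter Topology

namespace Pool.Agent.W10.Schl

/-- The set of denominators of good simultaneous approximations. -/
def goodSet (ξ : ℝ) (m : ℕ) (μ : ℝ) : Set ℕ :=
  {q : ℕ | 0 < q ∧ ∀ j ∈ Finset.Icc 1 m,
    |(q : ℝ) * ξ ^ j - ((round ((q : ℝ) * ξ ^ j) : ℤ) : ℝ)| ≤ (q : ℝ) ^ (-μ)}

theorem dist_pos (ξ : ℝ) (hξ : Irrational ξ) (N : ℕ) : ∃ ρ : ℝ, 0 < ρ ∧ ∀ q : ℕ, 1 ≤ q → q ≤ N →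
    ∀ z : ℤ, ρ ≤ |(q : ℝ) * ξ - z| := by
  induction N with
  | zero => exact ⟨1, one_pos, fun q h1 h2 => by omega⟩
  | succ N ih =>
    obtain ⟨ρ, hρ, h⟩ := ih
    have hne : 0 < |((N + 1 : ℕ) : ℝ) * ξ - round (((N + 1 : ℕ) : ℝ) * ξ)| := by
      rw [abs_pos]
      intro h0
      have h1 : Irrational (((N + 1 : ℕ) : ℝ) * ξ) := hξ.natCast_mul (by omega)
      exact h1 ⟨(round (((N + 1 : ℕ) : ℝ) * ξ) : ℚ), by push_cast; push_cast at h0; linarith⟩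
    refine ⟨min ρ |((N + 1 : ℕ) : ℝ) * ξ - round (((N + 1 : ℕ) : ℝ) * ξ)|, lt_min hρ hne, ?_⟩
    intro q h1 h2 z
    rcases Nat.lt_or_ge q (N + 1) with h3 | h3
    · exact (min_le_left _ _).trans (h q h1 (by omega) z)
    · have : q = N + 1 := by omega
      subst this
      exact (min_le_right _ _).trans (round_le _ _)

theorem infinite_of_frequently (ξ : ℝ) (hξ : Irrational ξ) (m : ℕ) (hm : 1 ≤ m) (μ a b K C : ℝ)
    (ha : 0 < a) (hb : 0 < b) (hK : 1 ≤ K) (hC : 1 ≤ C) (hμ : μ * a < b)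
    (h : ∃ᶠ q : ℕ in atTop, ∃ y : ℕ → ℤ, y 0 ≠ 0 ∧ |(y 0 : ℝ)| ≤ K * (q : ℝ) ^ a ∧
      ∀ j ≤ m, |(y j : ℝ) - y 0 * ξ ^ j| ≤ C * (q : ℝ) ^ (-b)) :
    (goodSet ξ m μ).Infinite := by
  rw [Set.infinite_iff_exists_gt]
  intro N
  obtain ⟨ρ, hρ, hdist⟩ := dist_pos ξ hξ N
  set ν := max μ 0 with hν
  have hν0 : 0 ≤ ν := le_max_right _ _
  have hνa : ν * a < b := by
    rcases max_cases μ 0 with ⟨h1, _⟩ | ⟨h1, _⟩
    · rw [hν, h1]; exact hμ
    · rw [hν, h1]; simpa using hb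
  have ev1 : ∀ᶠ q : ℕ in atTop, C * (q : ℝ) ^ (-b) < ρ := by
    have h1 : Tendsto (fun q : ℕ => C * (q : ℝ) ^ (-b)) atTop (𝓝 (C * 0)) :=
      ((tendsto_rpow_neg_atTop hb).comp tendsto_natCast_atTop_atTop).const_mul C
    rw [mul_zero] at h1
    exact h1.eventually_lt_const hρ
  have ev2 : ∀ᶠ q : ℕ in atTop, C * K ^ ν * (q : ℝ) ^ (ν * a - b) < 1 := by
    have h1 : Tendsto (fun q : ℕ => C * K ^ ν * (q : ℝ) ^ (-(b - ν * a))) atTop (𝓝 (C * K ^ ν * 0)) :=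
      ((tendsto_rpow_neg_atTop (by linarith : 0 < b - ν * a)).comp
        tendsto_natCast_atTop_atTop).const_mul _
    rw [mul_zero] at h1
    have h2 := h1.eventually_lt_const one_pos
    filter_upwards [h2] with q hq
    rw [show ν * a - b = -(b - ν * a) by ring]
    exact hq
  obtain ⟨q, ⟨y, hy0, hyK, hyC⟩, hq1, hq2, hq0⟩ :=
    (h.and_eventually (ev1.and (ev2.and (eventually_ge_atTop 1)))).exists
  have hqR : (1 : ℝ) ≤ q := by exact_mod_cast hq0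
  have hqpos : (0 : ℝ) < q := by linarith
  set r : ℕ := (y 0).natAbs with hr
  have hr1 : 1 ≤ r := Int.natAbs_pos.2 hy0
  have hrR : (1 : ℝ) ≤ r := by exact_mod_cast hr1
  have hrabs : (r : ℝ) = |(y 0 : ℝ)| := by
    rw [hr, Nat.cast_natAbs, Int.cast_abs]
  -- the integer approximations with positive denominator
  have hz : ∀ j ≤ m, ∃ z : ℤ, |(r : ℝ) * ξ ^ j - z| ≤ C * (q : ℝ) ^ (-b) := by
    intro j hj
    rcases le_total 0 (y 0 : ℝ) with h0 | h0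
    · refine ⟨y j, ?_⟩
      rw [hrabs, abs_of_nonneg h0, abs_sub_comm]
      exact hyC j hj
    · refine ⟨-y j, ?_⟩
      rw [hrabs, abs_of_nonpos h0]
      have := hyC j hj
      rw [show -(y 0 : ℝ) * ξ ^ j - ((-y j : ℤ) : ℝ) = (y j : ℝ) - y 0 * ξ ^ j by push_cast; ring]
      exact this
  refine ⟨r, ⟨hr1, fun j hj => ?_⟩, ?_⟩
  · rw [Finset.mem_Icc] at hj
    obtain ⟨z, hz'⟩ := hz j hj.2
    refine (round_le _ z).trans (hz'.trans ?_)
    have h1 : (r : ℝ) ^ (-ν) ≤ (r : ℝ) ^ (-μ) :=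
      Real.rpow_le_rpow_of_exponent_le hrR (by simp [hν])
    refine le_trans ?_ h1
    have h2 : (K * (q : ℝ) ^ a) ^ (-ν) ≤ (r : ℝ) ^ (-ν) :=
      Real.rpow_le_rpow_of_nonpos (by linarith) (by rw [hrabs]; exact hyK) (by linarith)
    refine le_trans ?_ h2
    rw [Real.mul_rpow (by linarith) (by positivity), ← Real.rpow_mul hqpos.le]
    have h3 : K ^ (-ν) * (q : ℝ) ^ (a * -ν) =
        K ^ (-ν) * (q : ℝ) ^ (a * -ν) * 1 := by ring
    rw [h3]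
    have h4 : C * (q : ℝ) ^ (-b) = K ^ (-ν) * (q : ℝ) ^ (a * -ν) * (C * K ^ ν * (q : ℝ) ^ (ν * a - b)) := by
      have e1 : K ^ (-ν) * K ^ ν = 1 := by
        rw [← Real.rpow_add (by linarith)]; simp
      have e2 : (q : ℝ) ^ (a * -ν) * (q : ℝ) ^ (ν * a - b) = (q : ℝ) ^ (-b) := by
        rw [← Real.rpow_add hqpos]; congr 1; ring
      calc C * (q : ℝ) ^ (-b) = C * (K ^ (-ν) * K ^ ν) * ((q : ℝ) ^ (a * -ν) * (q : ℝ) ^ (ν * a - b)) := by
            rw [e1, e2]; ring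
        _ = _ := by ring
    rw [h4]
    exact mul_le_mul_of_nonneg_left hq2.le (by positivity)
  · by_contra hcon
    push Not at hcon
    obtain ⟨z, hz'⟩ := hz 1 hm
    have := hdist r hr1 hcon z
    rw [pow_one] at hz'
    linarith

end Pool.Agent.W10.Schl
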