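import Mathlib
import Pool.Agent.W10.SchlC
import Pool.Agent.W10.SchlD
import Pool.Agent.W10.SchlE

/-!
Schleischitz' inequality, the final steps.
-/

open Filter Topology Polynomial

namespace Pool.Agent.W10.Schl

theorem dirichlet (ξ : ℝ) (m : ℕ) (hm : 1 ≤ m) : ∃ K : ℝ, 1 ≤ K ∧ ∀ᶠ Z : ℕ in atTop,
    ∃ y : ℕ → ℤ, y 0 ≠ 0 ∧ |(y 0 : ℝ)| ≤ Z ∧ ∀ j ≤ m, |(y j : ℝ) - y 0 * ξ ^ j| ≤
      K * (Z : ℝ) ^ (-(1 / (m : ℝ))) := by
  classical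
  have hmR : (0 : ℝ) < m := by exact_mod_cast hm
  let Θ : ℝ := (1 + |ξ|) ^ m
  have hΘ1 : 1 ≤ Θ := one_le_pow₀ (by linarith [abs_nonneg ξ])
  have hΘ : ∀ t ≤ m, |ξ| ^ t ≤ Θ := by
    intro t ht
    calc |ξ| ^ t ≤ (1 + |ξ|) ^ t := by gcongr; linarith
      _ ≤ _ := pow_le_pow_right₀ (by linarith [abs_nonneg ξ]) ht
  clear_value Θ
  let K1 : ℝ := 4 * Θ + 7
  have hK1 : 1 ≤ K1 := by simp only [K1]; linarith
  refine ⟨K1 + 1, by linarith, ?_⟩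
  have ev1 : ∀ᶠ Z : ℕ in atTop, (K1 + 1) * (Z : ℝ) ^ (-(1 / (m : ℝ))) < 1 := by
    have h1 : Tendsto (fun q : ℕ => (K1 + 1) * (q : ℝ) ^ (-(1 / (m : ℝ)))) atTop (𝓝 ((K1 + 1) * 0)) :=
      ((tendsto_rpow_neg_atTop (by positivity)).comp tendsto_natCast_atTop_atTop).const_mul _
    rw [mul_zero] at h1
    exact h1.eventually_lt_const one_pos
  filter_upwards [ev1, eventually_ge_atTop 1] with Z hZ1 hZ
  have hZR : (1 : ℝ) ≤ Z := by exact_mod_cast hZ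
  have hZ0 : (0 : ℝ) < Z := by linarith
  set δ : ℝ := (K1 + 1) * (Z : ℝ) ^ (-(1 / (m : ℝ))) with hδdef
  have hδ : 0 < δ := by positivity
  have hδm : δ ^ m = (K1 + 1) ^ m * (Z : ℝ)⁻¹ := by
    rw [hδdef, mul_pow, ← Real.rpow_natCast ((Z : ℝ) ^ _), ← Real.rpow_mul hZ0.le]
    congr 1
    rw [← Real.rpow_neg_one]
    congr 1
    field_simp
  let T₁ : ℕ := ⌈2 * Θ * Z / δ⌉₊
  let Λ : Fin m → (Fin (m + 1) → ℕ) → ℝ := fun t w =>
    ((w ⟨t + 1, by omega⟩ : ℕ) - (w 0 : ℕ) * ξ ^ ((t : ℕ) + 1)) / δ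
  have hΛ : ∀ w : Fin (m + 1) → ℕ, (∀ i, w i < Z) → ∀ t, |Λ t w| ≤ T₁ := by
    intro w hw t
    have h1 : |((w ⟨t + 1, by omega⟩ : ℕ) : ℝ) - (w 0 : ℕ) * ξ ^ ((t : ℕ) + 1)| ≤ 2 * Θ * Z := by
      have e1 : ((w ⟨t + 1, by omega⟩ : ℕ) : ℝ) ≤ Z := by exact_mod_cast (hw _).le
      have e2 : ((w 0 : ℕ) : ℝ) ≤ Z := by exact_mod_cast (hw _).le
      have e3 := hΘ ((t : ℕ) + 1) (by have := t.2; omega)
      refine (abs_sub _ _).trans ?_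
      rw [abs_mul, abs_pow, Nat.abs_cast, Nat.abs_cast]
      calc ((w ⟨t + 1, by omega⟩ : ℕ) : ℝ) + (w 0 : ℕ) * |ξ| ^ ((t : ℕ) + 1) ≤ Z + Z * Θ := by gcongr
        _ ≤ Θ * Z + Z * Θ := by
          have : (Z : ℝ) ≤ Θ * Z := le_mul_of_one_le_left (by linarith) hΘ1
          linarith
        _ = _ := by ring
    simp only [Λ, abs_div, abs_of_pos hδ]
    refine le_trans ?_ (Nat.le_ceil _)
    gcongr
  have hT1 : (2 * (T₁ : ℝ) + 3) ≤ K1 * (Z / δ) := by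
    have h1 : (T₁ : ℝ) < 2 * Θ * Z / δ + 1 := Nat.ceil_lt_add_one (by positivity)
    have h2 : 1 ≤ Z / δ := by rw [le_div_iff₀ hδ]; linarith
    have h3 : 2 * Θ * Z / δ = 2 * Θ * (Z / δ) := by ring
    rw [h3] at h1
    simp only [K1]
    nlinarith
  have hcard : (2 * T₁ + 3) ^ m * (2 * 0 + 1) ^ (m - m) < Z ^ (m + 1) := by
    have h1 : (2 * (T₁ : ℝ) + 3) ^ m < (Z : ℝ) ^ (m + 1) := by
      calc (2 * (T₁ : ℝ) + 3) ^ m ≤ (K1 * (Z / δ)) ^ m := by gcongr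
        _ = K1 ^ m * (Z : ℝ) ^ m / δ ^ m := by rw [mul_pow, div_pow]; ring
        _ < (K1 + 1) ^ m * (Z : ℝ) ^ m / δ ^ m := by
            have : K1 ^ m < (K1 + 1) ^ m := pow_lt_pow_left₀ (by linarith) (by linarith) (by omega)
            gcongr
        _ = (Z : ℝ) ^ (m + 1) := by
            rw [hδm, pow_succ]
            field_simp
    simp only [Nat.sub_self, pow_zero, mul_one]
    exact_mod_cast h1
  obtain ⟨w, w', hww, hw, hw', hΛw, -⟩ := pigeon m m le_rfl Z Λ (fun _ _ => 0) T₁ 0 hΛ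
    (fun _ _ _ => by simp) hcard
  let u : ℕ → ℤ := fun t => if h : t < m + 1 then (w ⟨t, h⟩ : ℤ) - w' ⟨t, h⟩ else 0
  have hu : ∀ t (h : t < m + 1), u t = (w ⟨t, h⟩ : ℤ) - w' ⟨t, h⟩ := fun t h => dif_pos h
  have hud : ∀ t, t ≤ m → |(u t : ℝ) - u 0 * ξ ^ t| < δ := by
    intro t hts
    rcases Nat.eq_zero_or_pos t with h0 | ht1
    · subst h0; simpa using hδ
    have h1 := hΛw ⟨t - 1, by omega⟩
    simp only [Λ] at h1
    have e1 : t - 1 + 1 = t := by omega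
    have e2 : ∀ w : Fin (m + 1) → ℕ, w ⟨t - 1 + 1, by omega⟩ = w ⟨t, by omega⟩ := by
      intro w; congr 1; ext; exact e1
    rw [e2 w, e2 w', e1, ← sub_div, abs_div, abs_of_pos hδ, div_lt_one hδ] at h1
    rw [hu t (by omega), hu 0 (by omega)]
    push_cast
    have e3 : ((w ⟨t, by omega⟩ : ℕ) : ℝ) - (w' ⟨t, by omega⟩ : ℕ) -
        (((w ⟨0, by omega⟩ : ℕ) : ℝ) - (w' ⟨0, by omega⟩ : ℕ)) * ξ ^ t =
        ((w ⟨t, by omega⟩ : ℕ) : ℝ) - (w 0 : ℕ) * ξ ^ t - (((w' ⟨t, by omega⟩ : ℕ) : ℝ) - (w' 0 : ℕ) * ξ ^ t) := by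
      have : (⟨0, by omega⟩ : Fin (m + 1)) = 0 := rfl
      rw [this]; ring
    rw [e3]
    exact h1
  have hu0 : u 0 ≠ 0 := by
    intro h0
    apply hww
    ext i
    have h1 := hud i (by have := i.2; omega)
    rw [h0, Int.cast_zero, zero_mul, sub_zero] at h1
    have h2 : |u i| < 1 := by exact_mod_cast h1.trans hZ1
    have h3 : u i = 0 := Int.abs_lt_one_iff.1 h2
    rw [hu i i.2] at h3
    have : (w i : ℤ) = w' i := by linarith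
    exact_mod_cast this
  refine ⟨u, hu0, ?_, fun j hj => (hud j hj).le⟩
  rw [hu 0 (by omega)]
  have e1 : ((w ⟨0, by omega⟩ : ℕ) : ℝ) ≤ Z := by exact_mod_cast (hw _).le
  have e2 : ((w' ⟨0, by omega⟩ : ℕ) : ℝ) ≤ Z := by exact_mod_cast (hw' _).le
  have e3 : (0 : ℝ) ≤ (w ⟨0, by omega⟩ : ℕ) := Nat.cast_nonneg _
  have e4 : (0 : ℝ) ≤ (w' ⟨0, by omega⟩ : ℕ) := Nat.cast_nonneg _
  push_cast
  rw [abs_le]
  constructor <;> linarith

/-- The exponent inequality. -/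
theorem expo (m n s : ℕ) (l : ℝ) (hs : 2 * s + 1 ≤ n) (hnm : n < m)
    (hl : (m : ℝ) - n + 1 < n * l) :
    (1 - s * l) * ((m : ℝ) - s) / ((n : ℝ) - 2 * s) ≤ m / n + s * (m / n - 1 - l) := by
  have hn : (0 : ℝ) < n := by exact_mod_cast (by omega : 0 < n)
  have hns : (0 : ℝ) < (n : ℝ) - 2 * s := by
    have : ((2 * s + 1 : ℕ) : ℝ) ≤ n := by exact_mod_cast hs
    push_cast at this; linarith
  have hk : (1 : ℝ) ≤ (m : ℝ) - n := by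
    have : ((n + 1 : ℕ) : ℝ) ≤ m := by exact_mod_cast hnm
    push_cast at this; linarith
  have hs0 : (0 : ℝ) ≤ s := Nat.cast_nonneg _
  rw [div_le_iff₀ hns]
  have e1 : ((m : ℝ) / n + s * (m / n - 1 - l)) * (n - 2 * s) =
      ((m + s * (m - n - n * l)) * (n - 2 * s)) / n := by field_simp
  rw [e1, le_div_iff₀ hn]
  set k : ℝ := (m : ℝ) - n with hkdef
  have hmk : (m : ℝ) = n + k := by rw [hkdef]; ring
  rw [hmk]
  have e2 : (↑n + k + ↑s * (k - ↑n * l)) * (↑n - 2 * ↑s) - (1 - ↑s * l) * (↑n + k - ↑s) * ↑n =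
      s * (n * l * (k + s) - n * (1 - k) - 2 * k * (s + 1)) := by ring
  have e3 : 0 ≤ (n : ℝ) * l * (k + s) - n * (1 - k) - 2 * k * (s + 1) := by
    have h1 : 0 ≤ (n * l - k - 1) * (k + s) := mul_nonneg (by linarith) (by linarith)
    have h2 : 0 ≤ (k - 1) * (k - s + n) := mul_nonneg (by linarith) (by linarith)
    nlinarith
  have e4 := mul_nonneg hs0 e3
  linarith

end Pool.Agent.W10.Schl
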