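import Mathlib
import Pool.Agent.W10.SchlF

/-!
Schleischitz' inequality, the main case and the conclusion.
-/

open Filter Topology Polynomial

namespace Pool.Agent.W10.Schl

/-- The main case. -/
theorem main_case (ξ : ℝ) (hξ : Irrational ξ) (m n : ℕ) (hn : 1 ≤ n) (hnm : n < m) (l : ℝ)
    (hl : (m : ℝ) - n + 1 < n * l) (hinf : (goodSet ξ n l).Infinite) :
    ∃ K C : ℝ, 1 ≤ K ∧ 1 ≤ C ∧ ∃ᶠ q : ℕ in atTop, ∃ y : ℕ → ℤ, y 0 ≠ 0 ∧
      |(y 0 : ℝ)| ≤ K * (q : ℝ) ^ ((m : ℝ) / n) ∧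
      ∀ j ≤ m, |(y j : ℝ) - y 0 * ξ ^ j| ≤ C * (q : ℝ) ^ (-(1 + l - (m : ℝ) / n)) := by
  have hnR : (0 : ℝ) < n := by exact_mod_cast hn
  have hmR : (0 : ℝ) < m := by exact_mod_cast (by omega : 0 < m)
  have hk : (1 : ℝ) ≤ (m : ℝ) - n := by
    have : ((n + 1 : ℕ) : ℝ) ≤ m := by exact_mod_cast hnm
    push_cast at this; linarith
  have hl2 : 2 < n * l := by linarith
  obtain ⟨C₁', hC₁'0, hstep1⟩ := step1 ξ l n hn hl2
  set C₁ : ℝ := max C₁' 1 with hC₁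
  have hC₁1 : 1 ≤ C₁ := le_max_right _ _
  have hC₁' : C₁' ≤ C₁ := le_max_left _ _
  choose! D hD1 hD using fun (s : ℕ) (hs : s + 1 ≤ m) => step2 ξ hξ m s hs
  set C₂ : ℝ := 1 + ∑ s ∈ Finset.range m, D s with hC₂
  have hDs : ∀ s, s < m → D s ≤ C₂ := by
    intro s hs
    have h1 : D s ≤ ∑ s ∈ Finset.range m, D s :=
      Finset.single_le_sum (f := D) (fun i hi => by
        have := hD1 i (by rw [Finset.mem_range] at hi; omega); linarith) (Finset.mem_range.2 hs)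
    linarith
  have hC₂1 : 1 ≤ C₂ := by
    have : 0 ≤ ∑ s ∈ Finset.range m, D s := Finset.sum_nonneg fun i hi => by
      have := hD1 i (by rw [Finset.mem_range] at hi; omega); linarith
    linarith
  set K : ℝ := C₂ * C₁ ^ m with hK
  have hK1 : 1 ≤ K := one_le_mul_of_one_le_of_one_le hC₂1 (one_le_pow₀ hC₁1)
  set b : ℝ := 1 + l - (m : ℝ) / n with hb
  have hb0 : 0 < b := by
    have : (m : ℝ) / n < 1 + l := by
      rw [div_lt_iff₀ hnR]; linarith
    linarith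
  set E : ℝ := C₂ * (1 + 2 * K * C₁) with hE
  have hE1 : 1 ≤ E := by
    have : 0 ≤ 2 * K * C₁ := by positivity
    exact one_le_mul_of_one_le_of_one_le hC₂1 (by linarith)
  refine ⟨2 * K, E, by linarith, hE1, ?_⟩
  have hfreq : ∃ᶠ q : ℕ in atTop, q ∈ goodSet ξ n l := Nat.frequently_atTop_iff_infinite.2 hinf
  have ev1 : ∀ᶠ q : ℕ in atTop, E * (q : ℝ) ^ (-b) < 1 := by
    have h1 : Tendsto (fun q : ℕ => E * (q : ℝ) ^ (-b)) atTop (𝓝 (E * 0)) :=
      ((tendsto_rpow_neg_atTop hb0).comp tendsto_natCast_atTop_atTop).const_mul _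
    rw [mul_zero] at h1
    exact h1.eventually_lt_const one_pos
  refine (hfreq.and_eventually (hstep1.and (ev1.and (eventually_ge_atTop 1)))).mono ?_
  rintro q ⟨hqg, hq1, hqE, hq⟩
  have hqR : (1 : ℝ) ≤ q := by exact_mod_cast hq
  have hq0 : (0 : ℝ) < q := by linarith
  -- step one
  obtain ⟨s, P, hsn, hP, hPd, hHP, hPξ⟩ := hq1 (fun j => round ((q : ℝ) * ξ ^ j))
    (by simp) (by
      intro j hj
      rcases Nat.eq_zero_or_pos j with h0 | hpos
      · subst h0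
        simp only [pow_zero, mul_one, round_natCast, Int.cast_natCast, sub_self, abs_zero]
        positivity
      · rw [abs_sub_comm]
        exact hqg.2 j (Finset.mem_Icc.2 ⟨hpos, hj⟩))
  have hsm : s + 1 ≤ m := by omega
  have hH1 : (1 : ℝ) ≤ hgt P := by exact_mod_cast hgt_pos P hP
  have hH : (0 : ℝ) < hgt P := by linarith
  have hHP' : (hgt P : ℝ) ^ (n - 2 * s) ≤ C₁ * (q : ℝ) ^ (1 - s * l) := by
    refine hHP.trans ?_
    gcongr
  set p₀ : ℝ := |∑ j ∈ Finset.range (s + 2), (P.coeff j : ℝ) * ξ ^ j| with hp₀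
  have hp₀H : p₀ / hgt P ≤ C₁ * (q : ℝ) ^ (-1 - l) := by
    rw [div_le_iff₀ hH]
    refine hPξ.trans ?_
    calc C₁' * hgt P * (q : ℝ) ^ (-1 - l) ≤ C₁ * hgt P * (q : ℝ) ^ (-1 - l) := by gcongr
      _ = _ := by ring
  -- the parameters
  set Z : ℕ := ⌈K * (q : ℝ) ^ ((m : ℝ) / n)⌉₊ with hZ
  have hKq : 1 ≤ K * (q : ℝ) ^ ((m : ℝ) / n) :=
    one_le_mul_of_one_le_of_one_le hK1 (Real.one_le_rpow hqR (by positivity))
  have hZ1 : 1 ≤ Z := Nat.one_le_ceil_iff.2 (by linarith)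
  have hZlow : K * (q : ℝ) ^ ((m : ℝ) / n) ≤ Z := Nat.le_ceil _
  have hZup : (Z : ℝ) ≤ 2 * K * (q : ℝ) ^ ((m : ℝ) / n) := by
    have h1 : (Z : ℝ) < K * (q : ℝ) ^ ((m : ℝ) / n) + 1 := Nat.ceil_lt_add_one (by positivity)
    linarith
  set δ : ℝ := (q : ℝ) ^ (-b) with hδ
  have hδ0 : 0 < δ := by positivity
  have hδ1 : δ ≤ 1 := Real.rpow_le_one_of_one_le_of_nonpos hqR (by linarith)
  have hs2 : 2 * s ≤ n := by omega
  have hns : (0 : ℝ) < (n : ℝ) - 2 * s := by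
    have : ((2 * s + 1 : ℕ) : ℝ) ≤ n := by exact_mod_cast hsn
    push_cast at this; linarith
  have hns1 : (1 : ℝ) ≤ (n : ℝ) - 2 * s := by
    have : ((2 * s + 1 : ℕ) : ℝ) ≤ n := by exact_mod_cast hsn
    push_cast at this; linarith
  have hms : (0 : ℝ) ≤ (m : ℝ) - s := by
    have : ((s + 1 : ℕ) : ℝ) ≤ m := by exact_mod_cast hsm
    push_cast at this; linarith
  -- the height
  have hHm : (hgt P : ℝ) ^ (m - s) ≤ C₁ ^ m * ((q : ℝ) ^ ((m : ℝ) / n) * δ ^ s) := by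
    have h1 : (hgt P : ℝ) ^ (m - s) = ((hgt P : ℝ) ^ (n - 2 * s)) ^ (((m : ℝ) - s) / (n - 2 * s)) := by
      rw [← Real.rpow_natCast (hgt P : ℝ) (n - 2 * s), ← Real.rpow_mul hH.le,
        ← Real.rpow_natCast (hgt P : ℝ) (m - s)]
      congr 1
      rw [Nat.cast_sub (by omega), Nat.cast_sub hs2]
      push_cast
      rw [mul_div_assoc', mul_div_cancel_left₀ _ hns.ne']
    rw [h1]
    have hexp0 : 0 ≤ ((m : ℝ) - s) / (n - 2 * s) := div_nonneg hms hns.le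
    calc ((hgt P : ℝ) ^ (n - 2 * s)) ^ (((m : ℝ) - s) / (n - 2 * s))
        ≤ (C₁ * (q : ℝ) ^ (1 - s * l)) ^ (((m : ℝ) - s) / (n - 2 * s)) :=
          Real.rpow_le_rpow (by positivity) hHP' hexp0
      _ = C₁ ^ (((m : ℝ) - s) / (n - 2 * s)) * (q : ℝ) ^ ((1 - s * l) * (((m : ℝ) - s) / (n - 2 * s))) := by
          rw [Real.mul_rpow (by positivity) (by positivity), ← Real.rpow_mul hq0.le]
      _ ≤ C₁ ^ m * (q : ℝ) ^ ((m : ℝ) / n + s * (m / n - 1 - l)) := by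
          have e1 : C₁ ^ (((m : ℝ) - s) / (n - 2 * s)) ≤ C₁ ^ m := by
            rw [← Real.rpow_natCast C₁ m]
            refine Real.rpow_le_rpow_of_exponent_le hC₁1 ?_
            rw [div_le_iff₀ hns]
            have : (0 : ℝ) ≤ s := Nat.cast_nonneg _
            nlinarith
          have e2 : (q : ℝ) ^ ((1 - s * l) * (((m : ℝ) - s) / (n - 2 * s))) ≤
              (q : ℝ) ^ ((m : ℝ) / n + s * (m / n - 1 - l)) := by
            refine Real.rpow_le_rpow_of_exponent_le hqR ?_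
            have := expo m n s l hsn hnm hl
            rw [mul_div_assoc] at this
            exact this
          gcongr
      _ = C₁ ^ m * ((q : ℝ) ^ ((m : ℝ) / n) * δ ^ s) := by
          have e3 : (s : ℝ) * (m / n - 1 - l) = -b * s := by rw [hb]; ring
          rw [Real.rpow_add hq0, hδ, ← Real.rpow_natCast ((q : ℝ) ^ (-b)) s, ← Real.rpow_mul hq0.le,
            e3]
  have hcond1 : D s * (hgt P : ℝ) ^ (m - s) ≤ Z * δ ^ s := by
    calc D s * (hgt P : ℝ) ^ (m - s) ≤ C₂ * (C₁ ^ m * ((q : ℝ) ^ ((m : ℝ) / n) * δ ^ s)) := by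
          have := hDs s (by omega)
          gcongr
      _ = (K * (q : ℝ) ^ ((m : ℝ) / n)) * δ ^ s := by rw [hK]; ring
      _ ≤ Z * δ ^ s := by gcongr
  have hbd : D s * (δ + Z * (p₀ / hgt P)) ≤ E * (q : ℝ) ^ (-b) := by
    have h1 : (Z : ℝ) * (p₀ / hgt P) ≤ 2 * K * C₁ * δ := by
      have hp0 : 0 ≤ p₀ / hgt P := div_nonneg (abs_nonneg _) hH.le
      calc (Z : ℝ) * (p₀ / hgt P) ≤ (2 * K * (q : ℝ) ^ ((m : ℝ) / n)) * (C₁ * (q : ℝ) ^ (-1 - l)) := by
            gcongr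
        _ = 2 * K * C₁ * ((q : ℝ) ^ ((m : ℝ) / n) * (q : ℝ) ^ (-1 - l)) := by ring
        _ = 2 * K * C₁ * δ := by
            rw [← Real.rpow_add hq0, hδ]
            congr 2
            rw [hb]; ring
    have hp0 : 0 ≤ p₀ / hgt P := div_nonneg (abs_nonneg _) hH.le
    calc D s * (δ + Z * (p₀ / hgt P)) ≤ C₂ * (δ + 2 * K * C₁ * δ) := by
          have := hDs s (by omega)
          gcongr
      _ = E * (q : ℝ) ^ (-b) := by rw [hE, ← hδ]; ring
  obtain ⟨y, hy0, hyZ, hyj⟩ := hD s hsm P Z δ hP hPd hδ0 hδ1 hZ1 hcond1 (lt_of_le_of_lt hbd hqE)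
  exact ⟨y, hy0, hyZ.trans hZup, fun j hj => (hyj j hj).trans hbd⟩

/-- Schleischitz' inequality. -/
theorem schleischitz (m n : ℕ) (hn : 1 ≤ n) (hnm : n ≤ m) (ξ : ℝ) (hξ : Irrational ξ) (l μ : ℝ)
    (hinf : (goodSet ξ n l).Infinite)
    (hμ : μ < ((n : ℝ) * l - (m : ℝ) + (n : ℝ)) / (m : ℝ)) : (goodSet ξ m μ).Infinite := by
  have hnR : (0 : ℝ) < n := by exact_mod_cast hn
  have hmR : (0 : ℝ) < m := by exact_mod_cast (by omega : 0 < m)
  rcases hnm.eq_or_lt with h | h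
  · subst h
    refine hinf.mono ?_
    rintro q ⟨hq, hqj⟩
    refine ⟨hq, fun j hj => (hqj j hj).trans ?_⟩
    have hqR : (1 : ℝ) ≤ q := by exact_mod_cast hq
    refine Real.rpow_le_rpow_of_exponent_le hqR ?_
    have : ((n : ℝ) * l - n + n) / n = l := by field_simp; ring
    rw [this] at hμ
    linarith
  rcases le_or_gt (n * l) ((m : ℝ) - n + 1) with h2 | h2
  · obtain ⟨K, hK, hev⟩ := dirichlet ξ m (by omega)
    refine infinite_of_frequently ξ hξ m (by omega) μ 1 (1 / m) 1 K one_pos (by positivity) le_rfl hK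
      ?_ (hev.frequently.mono ?_)
    · rw [mul_one]
      refine hμ.trans_le ?_
      gcongr
      linarith
    · rintro Z ⟨y, h0, h1, h2⟩
      exact ⟨y, h0, by rw [Real.rpow_one, one_mul]; exact h1, h2⟩
  · obtain ⟨K, C, hK, hC, hf⟩ := main_case ξ hξ m n hn h l h2 hinf
    refine infinite_of_frequently ξ hξ m (by omega) μ ((m : ℝ) / n) (1 + l - (m : ℝ) / n) K C
      (by positivity) ?_ hK hC ?_ hf
    · have h3 : (m : ℝ) / n < 1 + l := by
        rw [div_lt_iff₀ hnR]; linarith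
      linarith
    · have h3 : μ * m < n * l - m + n := by rwa [lt_div_iff₀ hmR] at hμ
      have h4 : μ * ((m : ℝ) / n) = (μ * m) / n := by ring
      rw [h4, div_lt_iff₀ hnR]
      have h5 : (1 + l - (m : ℝ) / n) * n = n * l - m + n := by field_simp; ring
      rw [h5]
      exact h3

end Pool.Agent.W10.Schl
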