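import Mathlib

/-!
Generic non-vanishing of the Wronskian matrix of linearly independent real analytic functions.
-/

open Set Filter Topology

namespace Pool.Agent.W10

/-- In a linearly independent family (on every subinterval) of `n` real analytic functions, some
subinterval consists of points at which no nonzero combination vanishes to order `n`. -/
theorem exists_order_lt (n : ℕ) : ∀ (g : Fin n → ℝ → ℝ) (a b : ℝ), a < b →
    (∀ k, ∀ x ∈ Ioo a b, AnalyticAt ℝ (g k) x) →
    (∀ a' b', a ≤ a' → a' < b' → b' ≤ b → ∀ c : Fin n → ℝ,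
      (∀ x ∈ Ioo a' b', ∑ k, c k * g k x = 0) → c = 0) →
    ∃ a' b', a ≤ a' ∧ a' < b' ∧ b' ≤ b ∧ ∀ x ∈ Ioo a' b', ∀ c : Fin n → ℝ,
      (n : ℕ∞) ≤ analyticOrderAt (fun t => ∑ k, c k * g k t) x → c = 0 := by
  induction n with
  | zero =>
    intro g a b hab _ _
    exact ⟨a, b, le_rfl, hab, le_rfl, fun x _ c _ => Subsingleton.elim _ _⟩
  | succ n ih =>
    intro g a b hab han hli
    -- a point where `g 0` does not vanish
    obtain ⟨x₀, hx₀, hgx₀⟩ : ∃ x₀ ∈ Ioo a b, g 0 x₀ ≠ 0 := by
      by_contra hcon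
      push Not at hcon
      have := hli a b le_rfl hab le_rfl (Pi.single 0 1) (fun x hx => by
        rw [Finset.sum_eq_single 0]
        · simp [hcon x hx]
        · intro k _ hk
          simp [hk]
        · simp)
      have h2 := congrFun this 0
      simp at h2
    have hcont : ContinuousAt (g 0) x₀ := (han 0 x₀ hx₀).continuousAt
    have hev : ∀ᶠ x in 𝓝 x₀, g 0 x ≠ 0 ∧ x ∈ Ioo a b :=
      (hcont.eventually_ne hgx₀).and (Ioo_mem_nhds hx₀.1 hx₀.2)
    obtain ⟨a₁, b₁, hx₁, hsub⟩ := mem_nhds_iff_exists_Ioo_subset.1 hev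
    have hab₁ : a₁ < b₁ := hx₁.1.trans hx₁.2
    have ha₁ : a ≤ a₁ := by
      by_contra h
      push Not at h
      have : (max a₁ (a₁)) = a₁ := max_self _
      have h1 : (a₁ + min a b₁) / 2 ∈ Ioo a₁ b₁ := by
        constructor
        · have : a₁ < min a b₁ := lt_min h hab₁
          linarith
        · have : min a b₁ ≤ b₁ := min_le_right _ _
          linarith
      have h2 := (hsub h1).2.1
      have : min a b₁ ≤ a := min_le_left _ _
      linarith
    have hb₁ : b₁ ≤ b := by
      by_contra h
      push Not at h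
      have h1 : (b₁ + max b a₁) / 2 ∈ Ioo a₁ b₁ := by
        constructor
        · have : a₁ ≤ max b a₁ := le_max_right _ _
          linarith
        · have : max b a₁ < b₁ := max_lt h hab₁
          linarith
      have h2 := (hsub h1).2.2
      have : b ≤ max b a₁ := le_max_left _ _
      linarith
    have hne : ∀ x ∈ Ioo a₁ b₁, g 0 x ≠ 0 := fun x hx => (hsub hx).1
    have han₁ : ∀ k, ∀ x ∈ Ioo a₁ b₁, AnalyticAt ℝ (g k) x := fun k x hx => han k x (hsub hx).2
    -- the quotients and their derivatives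
    let ψ : Fin n → ℝ → ℝ := fun k => deriv (fun t => g k.succ t / g 0 t)
    have hqan : ∀ k : Fin n, ∀ x ∈ Ioo a₁ b₁, AnalyticAt ℝ (fun t => g k.succ t / g 0 t) x :=
      fun k x hx => (han₁ _ x hx).fun_div (han₁ 0 x hx) (hne x hx)
    have hψan : ∀ k, ∀ x ∈ Ioo a₁ b₁, AnalyticAt ℝ (ψ k) x := fun k x hx => (hqan k x hx).deriv
    -- the derivative of a combination of quotients
    have hder : ∀ (c : Fin n → ℝ), ∀ x ∈ Ioo a₁ b₁,
        HasDerivAt (fun t => ∑ k, c k * (g k.succ t / g 0 t)) (∑ k, c k * ψ k x) x := by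
      intro c x hx
      refine HasDerivAt.fun_sum fun k _ => ?_
      exact ((hqan k x hx).differentiableAt.hasDerivAt).const_mul (c k)
    have hψli : ∀ a' b', a₁ ≤ a' → a' < b' → b' ≤ b₁ → ∀ c : Fin n → ℝ,
        (∀ x ∈ Ioo a' b', ∑ k, c k * ψ k x = 0) → c = 0 := by
      intro a' b' ha' hab' hb' c hc
      have hsub' : Ioo a' b' ⊆ Ioo a₁ b₁ := Ioo_subset_Ioo ha' hb'
      -- the combination of quotients is constant
      set h : ℝ → ℝ := fun t => ∑ k, c k * (g k.succ t / g 0 t) with hh
      set m := (a' + b') / 2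
      have hm : m ∈ Ioo a' b' := ⟨by simp only [m]; linarith, by simp only [m]; linarith⟩
      have hconst : ∀ x ∈ Ioo a' b', h x = h m := by
        intro x hx
        have hd : DifferentiableOn ℝ h (Ioo a' b') := fun y hy =>
          (hder c y (hsub' hy)).differentiableAt.differentiableWithinAt
        refine IsOpen.is_const_of_deriv_eq_zero isOpen_Ioo isPreconnected_Ioo hd ?_ hx hm
        intro y hy
        rw [(hder c y (hsub' hy)).deriv, hc y hy]
        rfl
      have := hli a' b' (ha₁.trans ha') hab' (hb'.trans hb₁)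
        (Fin.cons (-(h m)) c) (fun x hx => by
          rw [Fin.sum_univ_succ]
          simp only [Fin.cons_zero, Fin.cons_succ]
          have h1 := hconst x hx
          have h2 : g 0 x ≠ 0 := hne x (hsub' hx)
          have h3 : ∑ k, c k * g k.succ x = g 0 x * h x := by
            simp only [hh, Finset.mul_sum]
            refine Finset.sum_congr rfl fun k _ => ?_
            field_simp
          rw [h3, h1]
          ring)
      ext k
      have := congrFun this k.succ
      simpa using this
    obtain ⟨a', b', ha', hab', hb', hord⟩ := ih ψ a₁ b₁ hab₁ hψan hψli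
    refine ⟨a', b', ha₁.trans ha', hab', hb'.trans hb₁, fun x hx c hc => ?_⟩
    have hx₁ : x ∈ Ioo a₁ b₁ := Ioo_subset_Ioo ha' hb' hx
    have hg0 : g 0 x ≠ 0 := hne x hx₁
    -- split off the first function
    have hGan : AnalyticAt ℝ (fun t => ∑ k, c k * g k t) x :=
      Finset.analyticAt_fun_sum _ fun k _ => analyticAt_const.mul (han₁ k x hx₁)
    have hinv : AnalyticAt ℝ (fun t => (g 0 t)⁻¹) x := (han₁ 0 x hx₁).fun_inv hg0
    set q : ℝ → ℝ := (fun t => ∑ k, c k * g k t) * (fun t => (g 0 t)⁻¹) with hq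
    have hqan' : AnalyticAt ℝ q x := hGan.mul hinv
    have hqord : ((n + 1 : ℕ) : ℕ∞) ≤ analyticOrderAt q x := by
      rw [hq, analyticOrderAt_mul hGan hinv]
      exact le_trans hc le_self_add
    have hq0 : q x = 0 := by
      have h0 := (natCast_le_analyticOrderAt_iff_iteratedDeriv_eq_zero hqan').1 hqord 0 (by omega)
      simpa using h0
    have hder' : (n : ℕ∞) ≤ analyticOrderAt (deriv q) x :=
      (analyticOrderAt_deriv_ge_iff hqan' hq0).2 (by exact_mod_cast hqord)
    have hqeq : ∀ t ∈ Ioo a₁ b₁, q t = c 0 + ∑ k : Fin n, c k.succ * (g k.succ t / g 0 t) := by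
      intro t ht
      have h2 : g 0 t ≠ 0 := hne t ht
      simp only [hq, Pi.mul_apply]
      rw [Fin.sum_univ_succ, add_mul, Finset.sum_mul]
      congr 1
      · field_simp
      · refine Finset.sum_congr rfl fun k _ => ?_
        rw [div_eq_mul_inv, mul_assoc]
    have hderiv : deriv q =ᶠ[𝓝 x] fun t => ∑ k : Fin n, c k.succ * ψ k t := by
      filter_upwards [Ioo_mem_nhds hx₁.1 hx₁.2] with t ht
      have h1 : q =ᶠ[𝓝 t] fun t => c 0 + ∑ k : Fin n, c k.succ * (g k.succ t / g 0 t) := by
        filter_upwards [Ioo_mem_nhds ht.1 ht.2] with s hs using hqeq s hs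
      rw [h1.deriv_eq]
      exact ((hder (fun k => c k.succ) t ht).const_add (c 0)).deriv
    rw [analyticOrderAt_congr hderiv] at hder'
    have hc0 := hord x hx (fun k => c k.succ) hder'
    have hck : ∀ k : Fin n, c k.succ = 0 := fun k => congrFun hc0 k
    have hc00 : c 0 = 0 := by
      have h3 := hqeq x hx₁
      simp only [hck, zero_mul, Finset.sum_const_zero, add_zero] at h3
      rw [← h3, hq0]
    ext k
    refine Fin.cases ?_ (fun k => ?_) k
    · simpa using hc00
    · simpa using hck k

/-- The matrix of (scaled) derivatives. -/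
noncomputable def jet {n : ℕ} (g : Fin n → ℝ → ℝ) (x : ℝ) : Matrix (Fin n) (Fin n) ℝ :=
  Matrix.of fun j k => iteratedDeriv j (g k) x / (j : ℕ).factorial

theorem jet_det_ne_zero {n : ℕ} (g : Fin n → ℝ → ℝ) (x : ℝ)
    (han : ∀ k, AnalyticAt ℝ (g k) x)
    (h : ∀ c : Fin n → ℝ, (n : ℕ∞) ≤ analyticOrderAt (fun t => ∑ k, c k * g k t) x → c = 0) :
    (jet g x).det ≠ 0 := by
  intro hdet
  obtain ⟨c, hc0, hc⟩ := Matrix.exists_mulVec_eq_zero_iff.2 hdet
  apply hc0
  apply h
  have hGan : AnalyticAt ℝ (fun t => ∑ k, c k * g k t) x :=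
    Finset.analyticAt_fun_sum _ fun k _ => analyticAt_const.mul (han k)
  rw [natCast_le_analyticOrderAt_iff_iteratedDeriv_eq_zero hGan]
  intro i hi
  have h1 := congrFun hc ⟨i, hi⟩
  simp only [Matrix.mulVec, dotProduct, jet, Matrix.of_apply, Pi.zero_apply] at h1
  have h2 : iteratedDeriv i (fun t => ∑ k, c k * g k t) x
      = ∑ k, c k * iteratedDeriv i (g k) x := by
    rw [iteratedDeriv_fun_sum]
    · refine Finset.sum_congr rfl fun k _ => ?_
      rw [iteratedDeriv_const_mul_field]
    · intro k _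
      exact (analyticAt_const.mul (han k)).contDiffAt
  rw [h2]
  have h3 : (∑ k, c k * iteratedDeriv i (g k) x)
      = (i.factorial : ℝ) * ∑ k, iteratedDeriv i (g k) x / (i.factorial : ℝ) * c k := by
    rw [Finset.mul_sum]
    refine Finset.sum_congr rfl fun k _ => ?_
    have : (i.factorial : ℝ) ≠ 0 := by exact_mod_cast Nat.factorial_ne_zero i
    field_simp
  rw [h3, h1, mul_zero]

theorem jet_det_analytic {n : ℕ} (g : Fin n → ℝ → ℝ) (x : ℝ)
    (han : ∀ k, AnalyticAt ℝ (g k) x) : AnalyticAt ℝ (fun x => (jet g x).det) x := by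
  have : (fun x => (jet g x).det) = fun x => ∑ σ : Equiv.Perm (Fin n),
      ((Equiv.Perm.sign σ : ℤ) : ℝ) * ∏ i, (iteratedDeriv (σ i) (g i) x / ((σ i : ℕ)).factorial) := by
    ext x
    rw [Matrix.det_apply']
    rfl
  rw [this]
  refine Finset.analyticAt_fun_sum _ fun σ _ => analyticAt_const.mul ?_
  refine Finset.analyticAt_fun_prod _ fun i _ => ?_
  simp only [div_eq_mul_inv]
  refine AnalyticAt.mul ?_ analyticAt_const
  rw [iteratedDeriv_eq_iterate]
  exact AnalyticAt.iterated_deriv (han i) _

/-- For a family of real analytic functions on the line which is linearly independent on every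
interval the jet matrix is nonsingular outside a countable set. -/
theorem countable_jet_det_eq_zero {n : ℕ} (g : Fin n → ℝ → ℝ)
    (han : ∀ k, ∀ x, AnalyticAt ℝ (g k) x)
    (hli : ∀ a b : ℝ, a < b → ∀ c : Fin n → ℝ, (∀ x ∈ Ioo a b, ∑ k, c k * g k x = 0) → c = 0) :
    {x : ℝ | (jet g x).det = 0}.Countable := by
  obtain ⟨a', b', -, hab', -, h⟩ := exists_order_lt n g 0 1 one_pos (fun k x _ => han k x)
    (fun a' b' _ h _ c => hli a' b' h c)
  have hm : (a' + b') / 2 ∈ Ioo a' b' := ⟨by linarith, by linarith⟩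
  have hne : (jet g ((a' + b') / 2)).det ≠ 0 :=
    jet_det_ne_zero g _ (fun k => han k _) (h _ hm)
  have hana : AnalyticOnNhd ℝ (fun x => (jet g x).det) univ :=
    fun x _ => jet_det_analytic g x fun k => han k x
  have hcod : ∀ x : ℝ, ∀ᶠ y in 𝓝[≠] x, (jet g y).det ≠ 0 := by
    intro x
    rcases (hana x (mem_univ x)).eventually_eq_zero_or_eventually_ne_zero with h0 | h0
    · exfalso
      have := hana.eqOn_zero_of_preconnected_of_eventuallyEq_zero isPreconnected_univ
        (mem_univ x) h0
      exact hne (this (mem_univ _))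
    · exact h0
  have hdisc : IsDiscrete {x : ℝ | (jet g x).det = 0} := by
    rw [isDiscrete_iff_nhdsNE]
    intro x _
    rw [← disjoint_iff, disjoint_principal_right]
    filter_upwards [hcod x] with y hy using hy
  exact (HereditarilyLindelofSpace.isLindelof _).countable_of_isDiscrete hdisc

end Pool.Agent.W10
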