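import Mathlib
import Pool.Agent.W10.Wronsk

/-!
A nonpolynomial entire function is not quadratic over the rational functions, and the resulting
linear independence on every real interval.
-/

open Set Filter Topology

namespace Pool.Agent.W10

theorem poly_of_growth (f : ℂ → ℂ) (hf : Differentiable ℂ f) (C : ℝ) (N : ℕ)
    (hb : ∀ z, ‖f z‖ ≤ C * (1 + ‖z‖) ^ N) : ∃ p : Polynomial ℂ, ∀ z, f z = p.eval z := by
  have hC : 0 ≤ C := by
    have := (norm_nonneg _).trans (hb 0)
    simpa using this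
  have hzero : ∀ n, N < n → iteratedDeriv n f 0 = 0 := by
    intro n hn
    have hbound : ∀ R : ℝ, 1 ≤ R → ‖iteratedDeriv n f 0‖ ≤ (n.factorial * C * 2 ^ N) / R := by
      intro R hR
      have hR0 : 0 < R := lt_of_lt_of_le one_pos hR
      have h1 := Complex.norm_iteratedDeriv_le_of_forall_mem_sphere_norm_le (c := 0) (C := C * (2 * R) ^ N)
        n hR0 hf.diffContOnCl (fun z hz => by
          have hz' : ‖z‖ = R := by simpa using hz
          refine (hb z).trans ?_
          rw [hz']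
          gcongr
          linarith)
      refine h1.trans ?_
      rw [div_le_div_iff₀ (by positivity) hR0]
      have h2 : R ^ N * R ≤ R ^ n := by
        rw [← pow_succ]
        exact pow_le_pow_right₀ hR hn
      calc n.factorial * (C * (2 * R) ^ N) * R = (n.factorial * C * 2 ^ N) * (R ^ N * R) := by
            rw [mul_pow]; ring
        _ ≤ (n.factorial * C * 2 ^ N) * R ^ n := by gcongr
    have hlim : Tendsto (fun R : ℝ => (n.factorial * C * 2 ^ N) / R) atTop (𝓝 0) :=
      tendsto_const_nhds.div_atTop tendsto_id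
    have : ‖iteratedDeriv n f 0‖ ≤ 0 :=
      ge_of_tendsto hlim ((eventually_ge_atTop 1).mono fun R hR => hbound R hR)
    exact norm_le_zero_iff.1 this
  refine ⟨∑ n ∈ Finset.range (N + 1), Polynomial.C ((n.factorial : ℂ)⁻¹ * iteratedDeriv n f 0) *
    Polynomial.X ^ n, fun z => ?_⟩
  have h := Complex.taylorSeries_eq_of_entire' 0 z hf
  rw [← h, tsum_eq_sum (s := Finset.range (N + 1))]
  · rw [Polynomial.eval_finsetSum]
    refine Finset.sum_congr rfl fun n _ => ?_
    simp
  · intro n hn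
    rw [hzero n (by simpa using hn)]
    simp

theorem poly_norm_le (P : Polynomial ℂ) : ∃ C : ℝ, 0 ≤ C ∧ ∀ N, P.natDegree ≤ N → ∀ z : ℂ,
    ‖P.eval z‖ ≤ C * (1 + ‖z‖) ^ N := by
  refine ⟨∑ i ∈ Finset.range (P.natDegree + 1), ‖P.coeff i‖, Finset.sum_nonneg fun _ _ =>
    norm_nonneg _, fun N hN z => ?_⟩
  rw [Polynomial.eval_eq_sum_range, Finset.sum_mul]
  refine (norm_sum_le _ _).trans (Finset.sum_le_sum fun i hi => ?_)
  rw [norm_mul, norm_pow]
  have hi' : i ≤ N := by
    have := Finset.mem_range.1 hi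
    omega
  have h1 : ‖z‖ ^ i ≤ (1 + ‖z‖) ^ i := by gcongr; linarith [norm_nonneg z]
  have h2 : (1 + ‖z‖) ^ i ≤ (1 + ‖z‖) ^ N :=
    pow_le_pow_right₀ (by linarith [norm_nonneg z]) hi'
  gcongr
  exact h1.trans h2

theorem poly_norm_ge (P : Polynomial ℂ) (hP : P ≠ 0) : ∃ R δ : ℝ, 0 < δ ∧ ∀ z : ℂ, R ≤ ‖z‖ →
    δ ≤ ‖P.eval z‖ := by
  by_cases hd : 0 < P.degree
  · have h := Polynomial.tendsto_norm_atTop P hd (tendsto_norm_cobounded_atTop (E := ℂ))
    have h1 := h.eventually (eventually_ge_atTop (1 : ℝ))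
    rw [← comap_norm_atTop, eventually_comap] at h1
    obtain ⟨R, hR⟩ := eventually_atTop.1 h1
    exact ⟨R, 1, one_pos, fun z hz => hR ‖z‖ hz z rfl⟩
  · have := Polynomial.eq_C_of_degree_le_zero (not_lt.1 hd)
    have hc : P.coeff 0 ≠ 0 := by
      intro h0
      rw [h0, Polynomial.C_0] at this
      exact hP this
    refine ⟨0, ‖P.coeff 0‖, norm_pos_iff.2 hc, fun z _ => ?_⟩
    rw [this]
    simp

/-- An entire function which is quadratic over the polynomials is a polynomial. -/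
theorem poly_of_quadratic (f : ℂ → ℂ) (hf : Differentiable ℂ f) (A₀ A₁ A₂ : Polynomial ℂ)
    (h : ∀ z, A₀.eval z + A₁.eval z * f z + A₂.eval z * f z ^ 2 = 0)
    (hne : ¬ (A₀ = 0 ∧ A₁ = 0 ∧ A₂ = 0)) : ∃ p : Polynomial ℂ, ∀ z, f z = p.eval z := by
  -- growth outside a disc
  have hgrow : ∃ R C : ℝ, ∃ N : ℕ, 0 ≤ C ∧ ∀ z : ℂ, R ≤ ‖z‖ → ‖f z‖ ≤ C * (1 + ‖z‖) ^ N := by
    obtain ⟨C₀, hC₀, hA₀⟩ := poly_norm_le A₀
    obtain ⟨C₁, hC₁, hA₁⟩ := poly_norm_le A₁
    set N := max A₀.natDegree A₁.natDegree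
    have hA₀' := hA₀ N (le_max_left _ _)
    have hA₁' := hA₁ N (le_max_right _ _)
    by_cases h2 : A₂ = 0
    · by_cases h1 : A₁ = 0
      · exfalso
        apply hne
        refine ⟨?_, h1, h2⟩
        apply Polynomial.funext
        intro z
        have := h z
        simpa [h1, h2] using this
      · obtain ⟨R, δ, hδ, hR⟩ := poly_norm_ge A₁ h1
        refine ⟨R, C₀ / δ, N, by positivity, fun z hz => ?_⟩
        have h3 : A₁.eval z * f z = - A₀.eval z := by
          have := h z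
          simp only [h2, Polynomial.eval_zero, zero_mul, add_zero] at this
          linear_combination this
        have h4 : ‖A₁.eval z‖ * ‖f z‖ = ‖A₀.eval z‖ := by
          rw [← norm_mul, h3, norm_neg]
        have h5 : δ * ‖f z‖ ≤ C₀ * (1 + ‖z‖) ^ N := by
          calc δ * ‖f z‖ ≤ ‖A₁.eval z‖ * ‖f z‖ := by gcongr; exact hR z hz
            _ = ‖A₀.eval z‖ := h4
            _ ≤ _ := hA₀' z
        rw [div_mul_eq_mul_div, le_div_iff₀ hδ]
        linarith
    · obtain ⟨R, δ, hδ, hR⟩ := poly_norm_ge A₂ h2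
      refine ⟨R, 1 + (C₀ + C₁) / δ, N, by positivity, fun z hz => ?_⟩
      have hpow : 1 ≤ (1 + ‖z‖) ^ N := one_le_pow₀ (by linarith [norm_nonneg z])
      rcases le_or_gt ‖f z‖ 1 with h1 | h1
      · calc ‖f z‖ ≤ 1 := h1
          _ ≤ (1 + (C₀ + C₁) / δ) * (1 + ‖z‖) ^ N := by
            have : 0 ≤ (C₀ + C₁) / δ := by positivity
            nlinarith
      · have h3 : A₂.eval z * f z ^ 2 = - (A₀.eval z + A₁.eval z * f z) := by
          linear_combination h z
        have h4 : δ * ‖f z‖ ^ 2 ≤ (C₀ + C₁) * (1 + ‖z‖) ^ N * ‖f z‖ := by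
          calc δ * ‖f z‖ ^ 2 ≤ ‖A₂.eval z‖ * ‖f z‖ ^ 2 := by gcongr; exact hR z hz
            _ = ‖A₂.eval z * f z ^ 2‖ := by rw [norm_mul, norm_pow]
            _ = ‖A₀.eval z + A₁.eval z * f z‖ := by rw [h3, norm_neg]
            _ ≤ ‖A₀.eval z‖ + ‖A₁.eval z‖ * ‖f z‖ := by
              refine (norm_add_le _ _).trans ?_
              rw [norm_mul]
            _ ≤ C₀ * (1 + ‖z‖) ^ N * ‖f z‖ + C₁ * (1 + ‖z‖) ^ N * ‖f z‖ := by
              gcongr
              · calc ‖A₀.eval z‖ ≤ C₀ * (1 + ‖z‖) ^ N := hA₀' z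
                  _ ≤ C₀ * (1 + ‖z‖) ^ N * ‖f z‖ := le_mul_of_one_le_right (by positivity) h1.le
              · exact hA₁' z
            _ = _ := by ring
        have h5 : δ * ‖f z‖ ≤ (C₀ + C₁) * (1 + ‖z‖) ^ N := by
          have h6 : 0 < ‖f z‖ := by linarith
          by_contra hcon
          push Not at hcon
          nlinarith
        have h7 : ‖f z‖ ≤ (C₀ + C₁) / δ * (1 + ‖z‖) ^ N := by
          rw [div_mul_eq_mul_div, le_div_iff₀ hδ]
          linarith
        refine h7.trans ?_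
        gcongr
        linarith
  obtain ⟨R, C, N, hC, hRC⟩ := hgrow
  obtain ⟨M, hM⟩ := (isCompact_closedBall (0 : ℂ) R).exists_bound_of_continuousOn
    (hf.continuous.continuousOn)
  refine poly_of_growth f hf (C + max M 0) N fun z => ?_
  have hpow : 1 ≤ (1 + ‖z‖) ^ N := one_le_pow₀ (by linarith [norm_nonneg z])
  rcases le_or_gt R ‖z‖ with hz | hz
  · refine (hRC z hz).trans ?_
    gcongr
    linarith [le_max_right M 0]
  · have h1 := hM z (by simpa using hz.le)
    calc ‖f z‖ ≤ M := h1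
      _ ≤ max M 0 := le_max_left _ _
      _ ≤ C + max M 0 := by linarith
      _ ≤ (C + max M 0) * (1 + ‖z‖) ^ N :=
        le_mul_of_one_le_right (by have := le_max_right M 0; linarith) hpow

theorem sum_three (k : ℕ) {M : Type*} [AddCommMonoid M] (h : ℕ → M) :
    ∑ s ∈ Finset.range (3 * (k + 1)), h s =
      ∑ i ∈ Finset.range (k + 1), (h (3 * i) + h (3 * i + 1) + h (3 * i + 2)) := by
  induction k with
  | zero => simp [Finset.sum_range_succ]
  | succ k ih =>
    rw [Finset.sum_range_succ, ← ih, show 3 * (k + 1 + 1) = 3 * (k + 1) + 1 + 1 + 1 by ring,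
      Finset.sum_range_succ, Finset.sum_range_succ, Finset.sum_range_succ]
    simp only [add_assoc]

/-- The family of monomials `x ^ i F(x) ^ j`, `i ≤ k`, `j ≤ 2`. -/
def mono (F : ℝ → ℝ) (k : ℕ) (s : Fin (3 * (k + 1))) (x : ℝ) : ℝ :=
  x ^ ((s : ℕ) / 3) * F x ^ ((s : ℕ) % 3)

theorem mono_li (f : ℂ → ℂ) (hf : Differentiable ℂ f) (F : ℝ → ℝ)
    (hF : ∀ x : ℝ, f x = (F x : ℂ))
    (hnp : ¬ ∃ p : Polynomial ℂ, ∀ z : ℂ, f z = p.eval z) (k : ℕ) :
    ∀ a b : ℝ, a < b → ∀ c : Fin (3 * (k + 1)) → ℝ,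
      (∀ x ∈ Ioo a b, ∑ s, c s * mono F k s x = 0) → c = 0 := by
  intro a b hab c hc
  by_contra hc0
  apply hnp
  -- extend the coefficients to all natural numbers
  let e : ℕ → ℂ := fun s => if h : s < 3 * (k + 1) then ((c ⟨s, h⟩ : ℝ) : ℂ) else 0
  let A : ℕ → Polynomial ℂ := fun j => ∑ i ∈ Finset.range (k + 1),
    Polynomial.C (e (3 * i + j)) * Polynomial.X ^ i
  let H : ℂ → ℂ := fun z => (A 0).eval z + (A 1).eval z * f z + (A 2).eval z * f z ^ 2
  have hHsum : ∀ z, H z = ∑ s ∈ Finset.range (3 * (k + 1)), e s * (z ^ (s / 3) * f z ^ (s % 3)) := by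
    intro z
    rw [sum_three]
    simp only [H, A, Polynomial.eval_finsetSum, Polynomial.eval_mul, Polynomial.eval_C,
      Polynomial.eval_pow, Polynomial.eval_X, Finset.sum_mul, ← Finset.sum_add_distrib]
    refine Finset.sum_congr rfl fun i _ => ?_
    have e1 : 3 * i / 3 = i := by omega
    have e2 : 3 * i % 3 = 0 := by omega
    have e3 : (3 * i + 1) / 3 = i := by omega
    have e4 : (3 * i + 1) % 3 = 1 := by omega
    have e5 : (3 * i + 2) / 3 = i := by omega
    have e6 : (3 * i + 2) % 3 = 2 := by omega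
    rw [e1, e2, e3, e4, e5, e6]
    simp only [add_zero]
    ring
  have hHreal : ∀ x ∈ Ioo a b, H x = 0 := by
    intro x hx
    rw [hHsum]
    have h1 := hc x hx
    have h2 : ∑ s ∈ Finset.range (3 * (k + 1)), e s * ((x : ℂ) ^ (s / 3) * f x ^ (s % 3))
        = ((∑ s, c s * mono F k s x : ℝ) : ℂ) := by
      rw [Finset.sum_range]
      push_cast
      refine Finset.sum_congr rfl fun s _ => ?_
      simp only [e, s.2, dif_pos, mono, hF x]
      push_cast
      rfl
    rw [h2, h1]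
    simp
  have hHdiff : Differentiable ℂ H := by
    simp only [H]
    have := (A 0).differentiable
    have := (A 1).differentiable
    have := (A 2).differentiable
    fun_prop
  have hHzero : ∀ z, H z = 0 := by
    have hana : AnalyticOnNhd ℂ H univ := fun z _ => (hHdiff.analyticAt z)
    set m := (a + b) / 2 with hm
    have hmI : m ∈ Ioo a b := ⟨by simp only [hm]; linarith, by simp only [hm]; linarith⟩
    have hfreq : ∃ᶠ z in 𝓝[≠] (m : ℂ), H z = 0 := by
      have ht : Tendsto (fun x : ℝ => (x : ℂ)) (𝓝[≠] m) (𝓝[≠] (m : ℂ)) := by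
        refine tendsto_nhdsWithin_iff.2 ⟨?_, ?_⟩
        · exact (Complex.continuous_ofReal.tendsto m).mono_left nhdsWithin_le_nhds
        · filter_upwards [self_mem_nhdsWithin] with x hx
          simpa using hx
      have hev : ∀ᶠ x : ℝ in 𝓝[≠] m, H x = 0 := by
        filter_upwards [nhdsWithin_le_nhds (Ioo_mem_nhds hmI.1 hmI.2)] with x hx using hHreal x hx
      exact ht.frequently hev.frequently
    intro z
    exact hana.eqOn_zero_of_preconnected_of_frequently_eq_zero isPreconnected_univ (mem_univ _)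
      hfreq (mem_univ z)
  refine poly_of_quadratic f hf (A 0) (A 1) (A 2) hHzero ?_
  rintro ⟨h0, h1, h2⟩
  apply hc0
  ext s
  have hcoef : ∀ j, A j = 0 → ∀ i < k + 1, e (3 * i + j) = 0 := by
    intro j hj i hi
    have := congrArg (fun P => Polynomial.coeff P i) hj
    simp only [A, Polynomial.finsetSum_coeff, Polynomial.coeff_C_mul, Polynomial.coeff_X_pow,
      Polynomial.coeff_zero, mul_ite, mul_one, mul_zero] at this
    rw [Finset.sum_ite_eq] at this
    simpa [hi] using this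
  have hs : e s = 0 := by
    have h3 : (s : ℕ) / 3 < k + 1 := by omega
    have h4 : (s : ℕ) % 3 < 3 := Nat.mod_lt _ (by norm_num)
    have h5 : (s : ℕ) = 3 * (s / 3) + s % 3 := by omega
    rw [h5]
    interval_cases h : (s : ℕ) % 3
    · exact hcoef 0 h0 _ h3
    · exact hcoef 1 h1 _ h3
    · exact hcoef 2 h2 _ h3
  simp only [e, s.2, dif_pos] at hs
  simpa using hs

end Pool.Agent.W10
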