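import Mathlib
import Pool.Agent.W10.Transc

/-!
The determinant argument: among consecutive rationals with a common large denominator near a
generic point, few are such that the value of the function is close to a rational of moderate
denominator.
-/

open Set Filter Topology Matrix

namespace Pool.Agent.W10

theorem taylor_bound (g : ℝ → ℝ) (hg : ∀ x, AnalyticAt ℝ g x) (n : ℕ) (M x₀ h : ℝ) (hh : 0 ≤ h)
    (hh1 : h ≤ 1) (hM : ∀ y ∈ Icc x₀ (x₀ + 1), |iteratedDeriv (n + 1) g y| ≤ M) :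
    |g (x₀ + h) - ∑ j ∈ Finset.range (n + 1), iteratedDeriv j g x₀ / (j.factorial : ℝ) * h ^ j|
      ≤ M * h ^ (n + 1) := by
  have hcd : ContDiff ℝ (n + 1 : ℕ) g := contDiff_iff_contDiffAt.2 fun x => (hg x).contDiffAt
  have hud : UniqueDiffOn ℝ (Icc x₀ (x₀ + 1)) := uniqueDiffOn_Icc (by linarith)
  have hw : ∀ j ≤ n + 1, ∀ y ∈ Icc x₀ (x₀ + 1),
      iteratedDerivWithin j g (Icc x₀ (x₀ + 1)) y = iteratedDeriv j g y := fun j hj y hy =>
    iteratedDerivWithin_eq_iteratedDeriv hud (hg y).contDiffAt hy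
  have hM0 : 0 ≤ M := (abs_nonneg _).trans (hM x₀ ⟨le_rfl, by linarith⟩)
  have h1 := taylor_mean_remainder_bound (f := g) (a := x₀) (b := x₀ + 1) (C := M)
    (x := x₀ + h) (n := n) (by linarith) (by exact_mod_cast hcd.contDiffOn)
    ⟨by linarith, by linarith⟩
    (fun y hy => by rw [hw _ le_rfl y hy]; exact hM y hy)
  rw [taylor_within_apply] at h1
  have h2 : ∑ k ∈ Finset.range (n + 1), ((k.factorial : ℝ)⁻¹ * (x₀ + h - x₀) ^ k) •
      iteratedDerivWithin k g (Icc x₀ (x₀ + 1)) x₀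
      = ∑ j ∈ Finset.range (n + 1), iteratedDeriv j g x₀ / (j.factorial : ℝ) * h ^ j := by
    refine Finset.sum_congr rfl fun j hj => ?_
    rw [hw j (Finset.mem_range.1 hj).le x₀ ⟨le_rfl, by linarith⟩]
    simp only [add_sub_cancel_left, smul_eq_mul]
    ring
  rw [h2, add_sub_cancel_left] at h1
  refine h1.trans ?_
  have h3 : (1 : ℝ) ≤ n.factorial := by exact_mod_cast Nat.one_le_iff_ne_zero.2 (Nat.factorial_ne_zero n)
  exact div_le_self (by positivity) h3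

theorem core_det {D : ℕ} (Z J E : Matrix (Fin D) (Fin D) ℝ) (Q : ℝ) (hQ : Q ≠ 0)
    (hZ : Z.det ≠ 0) :
    (Z * diagonal (fun j : Fin D => (Q ^ (j : ℕ))⁻¹) * J + E).det =
      Z.det * (∏ j : Fin D, (Q ^ (j : ℕ))⁻¹) *
        (J + diagonal (fun j : Fin D => Q ^ (j : ℕ)) * (Z⁻¹ * E)).det := by
  have hZu : IsUnit Z.det := isUnit_iff_ne_zero.2 hZ
  have h1 : Z * diagonal (fun j : Fin D => (Q ^ (j : ℕ))⁻¹) * J + E =
      Z * diagonal (fun j : Fin D => (Q ^ (j : ℕ))⁻¹) *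
        (J + diagonal (fun j : Fin D => Q ^ (j : ℕ)) * (Z⁻¹ * E)) := by
    rw [mul_add]
    congr 1
    have h2 : diagonal (fun j : Fin D => (Q ^ (j : ℕ))⁻¹) *
        diagonal (fun j : Fin D => Q ^ (j : ℕ)) = 1 := by
      rw [diagonal_mul_diagonal, ← diagonal_one]
      congr 1
      ext j
      exact inv_mul_cancel₀ (pow_ne_zero _ hQ)
    calc E = Z * (Z⁻¹ * E) := by rw [← mul_assoc, mul_nonsing_inv _ hZu, one_mul]
      _ = Z * ((diagonal (fun j : Fin D => (Q ^ (j : ℕ))⁻¹) *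
        diagonal (fun j : Fin D => Q ^ (j : ℕ))) * (Z⁻¹ * E)) := by rw [h2, one_mul]
      _ = _ := by simp only [mul_assoc]
  rw [h1, det_mul, det_mul, det_diagonal]

theorem pow_sub_bound (B y w : ℝ) (hB : 1 ≤ B) (hw : |w| ≤ B) (hyw : |y - w| ≤ 1) (j : ℕ)
    (hj : j < 3) : |y ^ j - w ^ j| ≤ (2 * B + 1) * |y - w| := by
  interval_cases j
  · simp
    positivity
  · simp only [pow_one]
    nlinarith [abs_nonneg (y - w)]
  · have : y ^ 2 - w ^ 2 = (y + w) * (y - w) := by ring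
    rw [this, abs_mul]
    gcongr
    have h1 : |y + w| ≤ |y - w| + |w| + |w| := by
      calc |y + w| = |(y - w) + w + w| := by ring_nf
        _ ≤ _ := abs_add_three _ _ _
    linarith

/-- Integrality of the determinant. -/
theorem det_int {k : ℕ} (Q : ℕ) (p : Fin (3 * (k + 1)) → ℤ) (a : Fin (3 * (k + 1)) → ℤ)
    (b : Fin (3 * (k + 1)) → ℕ) (hQ : Q ≠ 0) (hb : ∀ s, b s ≠ 0)
    (A : Matrix (Fin (3 * (k + 1))) (Fin (3 * (k + 1))) ℝ)
    (hA : ∀ s c, A s c = ((p s : ℝ) / Q) ^ ((c : ℕ) / 3) * ((a s : ℝ) / b s) ^ ((c : ℕ) % 3))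
    (hdet : A.det ≠ 0) : 1 ≤ (∏ s, ((Q : ℝ) ^ k * (b s : ℝ) ^ 2)) * |A.det| := by
  let A' : Matrix (Fin (3 * (k + 1))) (Fin (3 * (k + 1))) ℤ := Matrix.of fun s c =>
    (p s) ^ ((c : ℕ) / 3) * (Q : ℤ) ^ (k - (c : ℕ) / 3) *
      ((a s) ^ ((c : ℕ) % 3) * (b s : ℤ) ^ (2 - (c : ℕ) % 3))
  have h1 : ((A'.det : ℤ) : ℝ) = (∏ s, ((Q : ℝ) ^ k * (b s : ℝ) ^ 2)) * A.det := by
    rw [← det_mul_column, Int.cast_det]
    congr 1
    ext s c
    simp only [A', Matrix.map_apply, Matrix.of_apply]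
    push_cast
    rw [hA]
    have hc1 : (c : ℕ) / 3 ≤ k := by have := c.2; omega
    have hc2 : (c : ℕ) % 3 ≤ 2 := by omega
    have hQ' : (Q : ℝ) ≠ 0 := by exact_mod_cast hQ
    have hb' : (b s : ℝ) ≠ 0 := by exact_mod_cast hb s
    have e1 : (Q : ℝ) ^ k = (Q : ℝ) ^ (k - (c : ℕ) / 3) * (Q : ℝ) ^ ((c : ℕ) / 3) := by
      rw [← pow_add]; congr 1; omega
    have e2 : (b s : ℝ) ^ 2 = (b s : ℝ) ^ (2 - (c : ℕ) % 3) * (b s : ℝ) ^ ((c : ℕ) % 3) := by
      rw [← pow_add]; congr 1; omega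
    rw [e1, e2, div_pow, div_pow]
    field_simp
  have hpos : 0 < ∏ s, ((Q : ℝ) ^ k * (b s : ℝ) ^ 2) := by
    refine Finset.prod_pos fun s _ => ?_
    have hQ' : (0 : ℝ) < Q := by exact_mod_cast Nat.pos_of_ne_zero hQ
    have hb' : (0 : ℝ) < b s := by exact_mod_cast Nat.pos_of_ne_zero (hb s)
    positivity
  have h2 : A'.det ≠ 0 := by
    intro h0
    rw [h0] at h1
    simp only [Int.cast_zero] at h1
    exact (mul_ne_zero hpos.ne' hdet) h1.symm
  have h3 : (1 : ℝ) ≤ |((A'.det : ℤ) : ℝ)| := by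
    rw [← Int.cast_abs]
    exact_mod_cast Int.one_le_abs h2
  rw [h1, abs_mul, abs_of_pos hpos] at h3
  exact h3

theorem mono_analytic (F : ℝ → ℝ) (hF : ∀ x, AnalyticAt ℝ F x) (k : ℕ) (s : Fin (3 * (k + 1)))
    (x : ℝ) : AnalyticAt ℝ (mono F k s) x := by
  have h1 : mono F k s = fun x => x ^ ((s : ℕ) / 3) * F x ^ ((s : ℕ) % 3) := rfl
  rw [h1]
  exact (analyticAt_id.pow _).mul ((hF x).pow _)

set_option maxHeartbeats 4000000 in
theorem key (F : ℝ → ℝ) (hF : ∀ x, AnalyticAt ℝ F x) (k : ℕ) (hk : 1 ≤ k) (xs : ℝ)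
    (hdet : (jet (mono F k) xs).det ≠ 0) (i : Fin (3 * (k + 1)) → ℕ)
    (hi : Function.Injective i) :
    ∀ᶠ R : ℕ in atTop, ¬ ∀ s, ∃ b : ℕ, R ^ k ≤ b ∧ b < R ^ (k + 1) ∧ ∃ a : ℤ,
      |F (((⌊(R : ℝ) ^ 4 * xs⌋ + i s : ℤ) : ℝ) / (R : ℝ) ^ 4) - a / b| < 1 / (b : ℝ) ^ 21 := by
  -- constants
  set Z : Matrix (Fin (3 * (k + 1))) (Fin (3 * (k + 1))) ℝ :=
    vandermonde (fun s => (i s : ℝ)) with hZdef
  have hZ : Z.det ≠ 0 := det_vandermonde_ne_zero_iff.2 (Nat.cast_injective.comp hi)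
  obtain ⟨N, hN⟩ : ∃ N : ℕ, ∀ s, i s ≤ N :=
    ⟨∑ s, i s, fun s => Finset.single_le_sum (f := i) (fun _ _ => Nat.zero_le _) (Finset.mem_univ s)⟩
  have hFc : Continuous F := continuous_iff_continuousAt.2 fun x => (hF x).continuousAt
  obtain ⟨B₀, hB₀⟩ := (isCompact_Icc (a := xs - 1) (b := xs + 1)).exists_bound_of_continuousOn
    hFc.continuousOn
  obtain ⟨B₁, hB₁⟩ := (isCompact_Icc (a := xs - 1) (b := xs + 1)).exists_bound_of_continuousOn
    (f := fun x : ℝ => x) continuous_id.continuousOn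
  set B : ℝ := max 1 (max B₀ B₁) with hBdef
  have hB1 : 1 ≤ B := le_max_left _ _
  have hBF : ∀ x ∈ Icc (xs - 1) (xs + 1), |F x| ≤ B := fun x hx =>
    (hB₀ x hx).trans ((le_max_left _ _).trans (le_max_right _ _))
  have hBx : ∀ x ∈ Icc (xs - 1) (xs + 1), |x| ≤ B := fun x hx =>
    (hB₁ x hx).trans ((le_max_right _ _).trans (le_max_right _ _))
  have hMex : ∀ c : Fin (3 * (k + 1)), ∃ M : ℝ, ∀ x ∈ Icc (xs - 1) (xs + 1),
      |iteratedDeriv (3 * k + 2 + 1) (mono F k c) x| ≤ M := by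
    intro c
    have hcont : ContinuousOn (iteratedDeriv (3 * k + 2 + 1) (mono F k c))
        (Icc (xs - 1) (xs + 1)) := by
      intro x _
      have : AnalyticAt ℝ (iteratedDeriv (3 * k + 2 + 1) (mono F k c)) x := by
        rw [iteratedDeriv_eq_iterate]
        exact (mono_analytic F hF k c x).iterated_deriv _
      exact this.continuousAt.continuousWithinAt
    exact (isCompact_Icc (a := xs - 1) (b := xs + 1)).exists_bound_of_continuousOn hcont
  choose Mc hMc using hMex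
  set M : ℝ := ∑ c, |Mc c| with hMdef
  have hM0 : 0 ≤ M := Finset.sum_nonneg fun _ _ => abs_nonneg _
  have hM : ∀ c, ∀ x ∈ Icc (xs - 1) (xs + 1),
      |iteratedDeriv (3 * k + 2 + 1) (mono F k c) x| ≤ M := fun c x hx =>
    ((hMc c x hx).trans (le_abs_self _)).trans
      (Finset.single_le_sum (f := fun c => |Mc c|) (fun _ _ => abs_nonneg _) (Finset.mem_univ c))
  set S : ℝ := ∑ j, ∑ s, |Z⁻¹ j s| with hSdef
  have hS0 : 0 ≤ S := Finset.sum_nonneg fun _ _ => Finset.sum_nonneg fun _ _ => abs_nonneg _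
  set C1 : ℝ := B ^ k * (2 * B + 1) with hC1def
  have hC1 : 0 ≤ C1 := by positivity
  set C2 : ℝ := S * (C1 + M * (N : ℝ) ^ (3 * k + 2 + 1)) with hC2def
  have hC2 : 0 ≤ C2 := by positivity
  -- continuity of the determinant
  set W₀ : Fin (3 * (k + 1)) → Fin (3 * (k + 1)) → ℝ := fun j c => jet (mono F k) xs j c with hW₀
  have hcd : Continuous (fun W : Fin (3 * (k + 1)) → Fin (3 * (k + 1)) → ℝ => (Matrix.of W).det) :=
    Continuous.matrix_det (by
      refine continuous_pi fun j => continuous_pi fun c => ?_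
      exact (continuous_apply c).comp (continuous_apply j))
  set d : ℝ := |(jet (mono F k) xs).det| with hd
  have hd0 : 0 < d := abs_pos.2 hdet
  obtain ⟨ε, hε, hεW⟩ := Metric.continuousAt_iff.1 (hcd.continuousAt (x := W₀)) (d / 2) (half_pos hd0)
  have hofW₀ : (Matrix.of W₀) = jet (mono F k) xs := by ext; rfl
  -- the base point
  have hx0lim : Tendsto (fun R : ℕ => (⌊(R : ℝ) ^ 4 * xs⌋ : ℝ) / (R : ℝ) ^ 4) atTop (𝓝 xs) := by
    rw [tendsto_iff_dist_tendsto_zero]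
    refine squeeze_zero' (g := fun R : ℕ => 1 / (R : ℝ)) (Eventually.of_forall fun _ => dist_nonneg) ?_
      tendsto_one_div_atTop_nhds_zero_nat
    filter_upwards [eventually_ge_atTop 1] with R hR
    have hR1 : (1 : ℝ) ≤ R := by exact_mod_cast hR
    have hR4 : (0 : ℝ) < (R : ℝ) ^ 4 := by positivity
    have h1 := Int.floor_le ((R : ℝ) ^ 4 * xs)
    have h2 := Int.lt_floor_add_one ((R : ℝ) ^ 4 * xs)
    have h3 : (⌊(R : ℝ) ^ 4 * xs⌋ : ℝ) / (R : ℝ) ^ 4 - xs = ((⌊(R : ℝ) ^ 4 * xs⌋ : ℝ) - (R : ℝ) ^ 4 * xs) / (R : ℝ) ^ 4 := by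
      field_simp
    rw [Real.dist_eq, h3, abs_div, abs_of_pos hR4, div_le_div_iff₀ hR4 (by positivity)]
    have h4 : |(⌊(R : ℝ) ^ 4 * xs⌋ : ℝ) - (R : ℝ) ^ 4 * xs| ≤ 1 := by
      rw [abs_le]; constructor <;> linarith
    have h5 : (R : ℝ) ≤ (R : ℝ) ^ 4 := le_self_pow₀ hR1 (by norm_num)
    calc |(⌊(R : ℝ) ^ 4 * xs⌋ : ℝ) - (R : ℝ) ^ 4 * xs| * R ≤ 1 * R := by gcongr
      _ ≤ 1 * (R : ℝ) ^ 4 := by linarith
  have hjetlim : ∀ᶠ R : ℕ in atTop, ∀ j c,
      |jet (mono F k) ((⌊(R : ℝ) ^ 4 * xs⌋ : ℝ) / (R : ℝ) ^ 4) j c - jet (mono F k) xs j c| < ε / 2 := by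
    rw [eventually_all]
    intro j
    rw [eventually_all]
    intro c
    have hjc : ContinuousAt (fun x => jet (mono F k) x j c) xs := by
      have : AnalyticAt ℝ (iteratedDeriv j (mono F k c)) xs := by
        rw [iteratedDeriv_eq_iterate]
        exact (mono_analytic F hF k c xs).iterated_deriv _
      exact this.continuousAt.div_const _
    have := (hjc.tendsto.comp hx0lim)
    have h2 := Metric.tendsto_nhds.1 this (ε / 2) (half_pos hε)
    simpa only [Real.dist_eq, Function.comp] using h2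
  -- the final contradiction
  have hlarge : ∀ᶠ R : ℕ in atTop, (|Z.det| * (2 * d) < R) := by
    exact (tendsto_natCast_atTop_atTop (R := ℝ)).eventually (eventually_gt_atTop _)
  have hlarge2 : ∀ᶠ R : ℕ in atTop, (2 * C2 / ε < R) := by
    exact (tendsto_natCast_atTop_atTop (R := ℝ)).eventually (eventually_gt_atTop _)
  filter_upwards [hjetlim, hlarge, hlarge2, eventually_ge_atTop (N + 1), hx0lim.eventually
    (Ioo_mem_nhds (by linarith : xs - 1 < xs) (by linarith : xs < xs + 1))] with R hjet hlg hlg2 hRN hx0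
  intro hbad
  choose b hb1 hb2 a hab using hbad
  have hR1 : 1 ≤ R := by omega
  have hR1' : (1 : ℝ) ≤ R := by exact_mod_cast hR1
  have hR0 : (0 : ℝ) < R := by linarith
  set Q : ℕ := R ^ 4 with hQ
  have hQc : (Q : ℝ) = (R : ℝ) ^ 4 := by rw [hQ]; push_cast; rfl
  have hQ1 : (1 : ℝ) ≤ Q := by rw [hQc]; exact one_le_pow₀ hR1'
  have hQ0 : (0 : ℝ) < Q := by linarith
  set x0 : ℝ := (⌊(R : ℝ) ^ 4 * xs⌋ : ℝ) / (R : ℝ) ^ 4 with hx0def
  have hbpos : ∀ s, 0 < b s := fun s => lt_of_lt_of_le (by positivity) (hb1 s)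
  let p : Fin (3 * (k + 1)) → ℤ := fun s => ⌊(R : ℝ) ^ 4 * xs⌋ + i s
  have hxs : ∀ s, ((p s : ℤ) : ℝ) / Q = x0 + (i s : ℝ) / Q := by
    intro s
    simp only [p]
    push_cast
    rw [hQc, hx0def, add_div]
  have hNR : (N : ℝ) ≤ R := by
    have : N ≤ R := by omega
    exact_mod_cast this
  have hiQ : ∀ s, (i s : ℝ) / Q ≤ (N : ℝ) / Q := fun s => by
    have : (i s : ℝ) ≤ N := by exact_mod_cast hN s
    gcongr
  have hNQ : (N : ℝ) / Q ≤ 1 := by
    rw [div_le_one hQ0, hQc]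
    exact hNR.trans (le_self_pow₀ hR1' (by norm_num))
  have hx0le : x0 ≤ xs := by
    rw [hx0def, div_le_iff₀ (by positivity)]
    have := Int.floor_le ((R : ℝ) ^ 4 * xs)
    linarith
  have hxsK : ∀ s, x0 + (i s : ℝ) / Q ∈ Icc (xs - 1) (xs + 1) := fun s => by
    have h1 := hiQ s
    have h2 : 0 ≤ (i s : ℝ) / Q := by positivity
    exact ⟨by linarith [hx0.1], by linarith⟩
  -- matrices
  set A : Matrix (Fin (3 * (k + 1))) (Fin (3 * (k + 1))) ℝ := Matrix.of fun s c =>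
    ((p s : ℝ) / Q) ^ ((c : ℕ) / 3) * ((a s : ℝ) / b s) ^ ((c : ℕ) % 3) with hA
  set J := jet (mono F k) x0 with hJ
  set E := A - Z * diagonal (fun j : Fin (3 * (k + 1)) => ((Q : ℝ) ^ (j : ℕ))⁻¹) * J with hE
  have hAE : A = Z * diagonal (fun j : Fin (3 * (k + 1)) => ((Q : ℝ) ^ (j : ℕ))⁻¹) * J + E := by
    rw [hE]; abel
  have hdetA : A.det = Z.det * (∏ j : Fin (3 * (k + 1)), ((Q : ℝ) ^ (j : ℕ))⁻¹) *
      (J + diagonal (fun j : Fin (3 * (k + 1)) => (Q : ℝ) ^ (j : ℕ)) * (Z⁻¹ * E)).det := by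
    rw [hAE]
    exact core_det Z J E Q hQ0.ne' hZ
  -- the error matrix
  have hEbound : ∀ s c, |E s c| ≤ (C1 + M * (N : ℝ) ^ (3 * k + 2 + 1)) / (R * (Q : ℝ) ^ (3 * k + 2)) := by
    intro s c
    have hc1 : (c : ℕ) / 3 ≤ k := by have := c.2; omega
    have hc2 : (c : ℕ) % 3 < 3 := Nat.mod_lt _ (by norm_num)
    have hT : (Z * diagonal (fun j : Fin (3 * (k + 1)) => ((Q : ℝ) ^ (j : ℕ))⁻¹) * J) s c =
        ∑ j ∈ Finset.range (3 * k + 2 + 1), iteratedDeriv j (mono F k c) x0 / (j.factorial : ℝ) *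
          ((i s : ℝ) / Q) ^ j := by
      have e : 3 * k + 2 + 1 = 3 * (k + 1) := by ring
      rw [Matrix.mul_apply, e, Finset.sum_range]
      refine Finset.sum_congr rfl fun j _ => ?_
      rw [mul_diagonal, hZdef, vandermonde_apply, hJ]
      simp only [jet, Matrix.of_apply, div_pow]
      field_simp
    have h1 := taylor_bound (mono F k c) (mono_analytic F hF k c) (3 * k + 2) M x0 ((i s : ℝ) / Q)
      (by positivity) ((hiQ s).trans hNQ) (fun y hy => hM c y ⟨by linarith [hx0.1, hy.1], by linarith [hy.2]⟩)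
    rw [← hT] at h1
    have h2 : |A s c - mono F k c (x0 + (i s : ℝ) / Q)| ≤ C1 * (1 / (R : ℝ) ^ (21 * k)) := by
      have e1 : A s c = (x0 + (i s : ℝ) / Q) ^ ((c : ℕ) / 3) * ((a s : ℝ) / b s) ^ ((c : ℕ) % 3) := by
        rw [hA, Matrix.of_apply, hxs]
      rw [e1, mono, ← mul_sub, abs_mul, hC1def, abs_pow]
      have hclose : |(a s : ℝ) / b s - F (x0 + (i s : ℝ) / Q)| < 1 / (R : ℝ) ^ (21 * k) := by
        rw [abs_sub_comm]
        have h3 := hab s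
        have e2 : (((⌊(R : ℝ) ^ 4 * xs⌋ + i s : ℤ) : ℝ) / (R : ℝ) ^ 4) = x0 + (i s : ℝ) / Q := by
          rw [← hxs s, hQc]
        rw [e2] at h3
        refine h3.trans_le ?_
        have h4 : ((R : ℝ) ^ k) ≤ b s := by exact_mod_cast hb1 s
        have h5 : (R : ℝ) ^ (21 * k) ≤ (b s : ℝ) ^ 21 := by
          rw [mul_comm, pow_mul]
          gcongr
        exact one_div_le_one_div_of_le (by positivity) h5
      have hle1 : 1 / (R : ℝ) ^ (21 * k) ≤ 1 := by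
        rw [div_le_one (by positivity)]
        exact one_le_pow₀ hR1'
      have h6 := pow_sub_bound B _ _ hB1 (hBF _ (hxsK s)) (hclose.le.trans hle1) _ hc2
      have h7 : |x0 + (i s : ℝ) / Q| ^ ((c : ℕ) / 3) ≤ B ^ k :=
        (pow_le_pow_left₀ (abs_nonneg _) (hBx _ (hxsK s)) _).trans (pow_le_pow_right₀ hB1 hc1)
      calc |x0 + (i s : ℝ) / Q| ^ ((c : ℕ) / 3) *
            |((a s : ℝ) / b s) ^ ((c : ℕ) % 3) - F (x0 + (i s : ℝ) / Q) ^ ((c : ℕ) % 3)|
          ≤ B ^ k * ((2 * B + 1) * |(a s : ℝ) / b s - F (x0 + (i s : ℝ) / Q)|) := by gcongr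
        _ ≤ B ^ k * ((2 * B + 1) * (1 / (R : ℝ) ^ (21 * k))) := by gcongr
        _ = _ := by ring
    have h3 : E s c = (A s c - mono F k c (x0 + (i s : ℝ) / Q)) +
        (mono F k c (x0 + (i s : ℝ) / Q) -
          (Z * diagonal (fun j : Fin (3 * (k + 1)) => ((Q : ℝ) ^ (j : ℕ))⁻¹) * J) s c) := by
      rw [hE, Matrix.sub_apply]; ring
    have h4 : |E s c| ≤ C1 * (1 / (R : ℝ) ^ (21 * k)) + M * ((N : ℝ) / Q) ^ (3 * k + 2 + 1) := by
      rw [h3]
      refine (abs_add_le _ _).trans (add_le_add h2 (h1.trans ?_))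
      have := hiQ s
      gcongr
    refine h4.trans ?_
    have h5 : 1 / (R : ℝ) ^ (21 * k) ≤ 1 / (R * (Q : ℝ) ^ (3 * k + 2)) := by
      apply one_div_le_one_div_of_le (by positivity)
      rw [hQc, ← pow_mul, ← pow_succ']
      exact pow_le_pow_right₀ hR1' (by omega)
    have h6 : ((N : ℝ) / Q) ^ (3 * k + 2 + 1) ≤ (N : ℝ) ^ (3 * k + 2 + 1) * (1 / (R * (Q : ℝ) ^ (3 * k + 2))) := by
      rw [div_pow, div_eq_mul_one_div]
      have h8 : (R : ℝ) ≤ Q := by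
        rw [hQc]
        exact le_self_pow₀ hR1' (by norm_num)
      have h7 : R * (Q : ℝ) ^ (3 * k + 2) ≤ (Q : ℝ) ^ (3 * k + 2 + 1) :=
        (mul_le_mul_of_nonneg_right h8 (pow_nonneg hQ0.le _)).trans_eq
          (pow_succ' (Q : ℝ) (3 * k + 2)).symm
      have h9 : 1 / (Q : ℝ) ^ (3 * k + 2 + 1) ≤ 1 / (R * (Q : ℝ) ^ (3 * k + 2)) :=
        one_div_le_one_div_of_le (by positivity) h7
      exact mul_le_mul_of_nonneg_left h9 (pow_nonneg (Nat.cast_nonneg N) _)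
    calc C1 * (1 / (R : ℝ) ^ (21 * k)) + M * ((N : ℝ) / Q) ^ (3 * k + 2 + 1)
        ≤ C1 * (1 / (R * (Q : ℝ) ^ (3 * k + 2))) +
          M * ((N : ℝ) ^ (3 * k + 2 + 1) * (1 / (R * (Q : ℝ) ^ (3 * k + 2)))) := by gcongr
      _ = _ := by ring
  -- the perturbed jet matrix
  set W : Fin (3 * (k + 1)) → Fin (3 * (k + 1)) → ℝ := fun j c =>
    (J + diagonal (fun j : Fin (3 * (k + 1)) => (Q : ℝ) ^ (j : ℕ)) * (Z⁻¹ * E)) j c with hW
  have hofW : Matrix.of W = J + diagonal (fun j : Fin (3 * (k + 1)) => (Q : ℝ) ^ (j : ℕ)) * (Z⁻¹ * E) := by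
    ext; rfl
  have hWclose : dist W W₀ < ε := by
    rw [dist_pi_lt_iff hε]
    intro j
    rw [dist_pi_lt_iff hε]
    intro c
    rw [Real.dist_eq]
    have h1 : W j c - W₀ j c = (jet (mono F k) x0 j c - jet (mono F k) xs j c) +
        (Q : ℝ) ^ (j : ℕ) * ∑ s, Z⁻¹ j s * E s c := by
      simp only [hW, hW₀, Matrix.add_apply, Matrix.diagonal_mul, hJ]
      rw [Matrix.mul_apply]
      ring
    have h2 : |(Q : ℝ) ^ (j : ℕ) * ∑ s, Z⁻¹ j s * E s c| ≤ C2 / R := by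
      have h3 : |∑ s, Z⁻¹ j s * E s c| ≤
          S * ((C1 + M * (N : ℝ) ^ (3 * k + 2 + 1)) / (R * (Q : ℝ) ^ (3 * k + 2))) := by
        refine (Finset.abs_sum_le_sum_abs _ _).trans ?_
        calc ∑ s, |Z⁻¹ j s * E s c| ≤ ∑ s, |Z⁻¹ j s| *
              ((C1 + M * (N : ℝ) ^ (3 * k + 2 + 1)) / (R * (Q : ℝ) ^ (3 * k + 2))) := by
              refine Finset.sum_le_sum fun s _ => ?_
              rw [abs_mul]
              gcongr
              exact hEbound s c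
          _ = (∑ s, |Z⁻¹ j s|) * ((C1 + M * (N : ℝ) ^ (3 * k + 2 + 1)) / (R * (Q : ℝ) ^ (3 * k + 2))) := by
              exact (Finset.sum_mul _ _ _).symm
          _ ≤ _ := by
              gcongr
              exact Finset.single_le_sum (f := fun j => ∑ s, |Z⁻¹ j s|)
                (fun _ _ => Finset.sum_nonneg fun _ _ => abs_nonneg _) (Finset.mem_univ j)
      have h4 : (Q : ℝ) ^ (j : ℕ) ≤ (Q : ℝ) ^ (3 * k + 2) :=
        pow_le_pow_right₀ hQ1 (by have := j.2; omega)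
      rw [abs_mul, abs_of_pos (by positivity : (0 : ℝ) < (Q : ℝ) ^ (j : ℕ))]
      calc (Q : ℝ) ^ (j : ℕ) * |∑ s, Z⁻¹ j s * E s c|
          ≤ (Q : ℝ) ^ (3 * k + 2) * (S * ((C1 + M * (N : ℝ) ^ (3 * k + 2 + 1)) / (R * (Q : ℝ) ^ (3 * k + 2)))) := by
            gcongr
        _ = C2 / R := by
            rw [hC2def]
            field_simp
    have h3 : C2 / R < ε / 2 := by
      rw [div_lt_iff₀ hε] at hlg2
      rw [div_lt_iff₀ hR0]
      linarith
    rw [h1]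
    have h4 := hjet j c
    calc |(jet (mono F k) x0 j c - jet (mono F k) xs j c) + (Q : ℝ) ^ (j : ℕ) * ∑ s, Z⁻¹ j s * E s c|
        ≤ |jet (mono F k) x0 j c - jet (mono F k) xs j c| + |(Q : ℝ) ^ (j : ℕ) * ∑ s, Z⁻¹ j s * E s c| :=
          abs_add_le _ _
      _ < ε / 2 + ε / 2 := by linarith
      _ = ε := by ring
  have hWdet := hεW hWclose
  simp only [hofW₀] at hWdet
  rw [hofW, Real.dist_eq] at hWdet
  set w := (J + diagonal (fun j : Fin (3 * (k + 1)) => (Q : ℝ) ^ (j : ℕ)) * (Z⁻¹ * E)).det with hw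
  have hw1 : |w| ≤ 2 * d := by
    have := abs_add_le (w - (jet (mono F k) xs).det) ((jet (mono F k) xs).det)
    rw [sub_add_cancel] at this
    linarith
  have hw0 : w ≠ 0 := by
    intro h0
    rw [h0, zero_sub, abs_neg] at hWdet
    linarith
  have hprodpos : 0 < ∏ j : Fin (3 * (k + 1)), ((Q : ℝ) ^ (j : ℕ))⁻¹ :=
    Finset.prod_pos fun j _ => by positivity
  have hAne : A.det ≠ 0 := by
    rw [hdetA]
    exact mul_ne_zero (mul_ne_zero hZ hprodpos.ne') hw0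
  have hint := det_int Q p a b (by rw [hQ]; positivity) (fun s => (hbpos s).ne') A
    (fun s c => rfl) hAne
  -- the size of the determinant
  have hprod1 : ∏ s : Fin (3 * (k + 1)), ((Q : ℝ) ^ k * (b s : ℝ) ^ 2) ≤ (R : ℝ) ^ (3 * (k + 1) * (6 * k + 2)) := by
    calc ∏ s : Fin (3 * (k + 1)), ((Q : ℝ) ^ k * (b s : ℝ) ^ 2)
        ≤ ∏ s : Fin (3 * (k + 1)), (R : ℝ) ^ (6 * k + 2) := by
          refine Finset.prod_le_prod (fun s _ => by positivity) fun s _ => ?_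
          have h1 : (b s : ℝ) ≤ (R : ℝ) ^ (k + 1) := by exact_mod_cast (hb2 s).le
          calc (Q : ℝ) ^ k * (b s : ℝ) ^ 2 ≤ (Q : ℝ) ^ k * ((R : ℝ) ^ (k + 1)) ^ 2 := by gcongr
            _ = (R : ℝ) ^ (6 * k + 2) := by
              rw [hQc, ← pow_mul, ← pow_mul, ← pow_add]
              congr 1
              ring
      _ = _ := by
          rw [Finset.prod_const, Finset.card_univ, Fintype.card_fin, ← pow_mul]
          congr 1
          ring
  have hprod2 : ∏ j : Fin (3 * (k + 1)), ((Q : ℝ) ^ (j : ℕ))⁻¹ = ((R : ℝ) ^ (3 * (k + 1) * (6 * k + 4)))⁻¹ := by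
    rw [Finset.prod_inv_distrib, Finset.prod_pow_eq_pow_sum, hQc, ← pow_mul]
    congr 2
    have h1 : ∑ j : Fin (3 * (k + 1)), (j : ℕ) = ∑ j ∈ Finset.range (3 * (k + 1)), j := by
      rw [Finset.sum_range]
    rw [h1]
    have h2 := Finset.sum_range_id_mul_two (3 * (k + 1))
    have h3 : 3 * (k + 1) - 1 = 3 * k + 2 := by omega
    rw [h3] at h2
    calc 4 * ∑ j ∈ Finset.range (3 * (k + 1)), j = 2 * ((∑ j ∈ Finset.range (3 * (k + 1)), j) * 2) := by ring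
      _ = 2 * (3 * (k + 1) * (3 * k + 2)) := by rw [h2]
      _ = _ := by ring
  have hfin : (∏ s : Fin (3 * (k + 1)), ((Q : ℝ) ^ k * (b s : ℝ) ^ 2)) * |A.det| ≤
      |Z.det| * (2 * d) / R := by
    rw [hdetA, abs_mul, abs_mul, abs_of_pos hprodpos, hprod2]
    calc (∏ s : Fin (3 * (k + 1)), ((Q : ℝ) ^ k * (b s : ℝ) ^ 2)) *
          (|Z.det| * ((R : ℝ) ^ (3 * (k + 1) * (6 * k + 4)))⁻¹ * |w|)
        ≤ (R : ℝ) ^ (3 * (k + 1) * (6 * k + 2)) *
          (|Z.det| * ((R : ℝ) ^ (3 * (k + 1) * (6 * k + 4)))⁻¹ * (2 * d)) := by gcongr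
      _ = |Z.det| * (2 * d) / (R : ℝ) ^ (3 * (k + 1) * 2) := by
        have : (R : ℝ) ^ (3 * (k + 1) * (6 * k + 4)) =
            (R : ℝ) ^ (3 * (k + 1) * (6 * k + 2)) * (R : ℝ) ^ (3 * (k + 1) * 2) := by
          rw [← pow_add]; congr 1; ring
        rw [this]
        field_simp
      _ ≤ |Z.det| * (2 * d) / R := by
        gcongr
        exact le_self_pow₀ hR1' (by omega)
  have hlt : |Z.det| * (2 * d) / R < 1 := by
    rw [div_lt_one hR0]; exact hlg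
  linarith

end Pool.Agent.W10
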