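import Mathlib
import Pool.Agent.W10.Key

/-!
Choice of the good points.
-/

open Set Filter Topology

namespace Pool.Agent.W10

/-- The index `i` is bad at level `k`. -/
def BadAt (F : ℝ → ℝ) (xs : ℝ) (R k i : ℕ) : Prop :=
  ∃ b : ℕ, R ^ k ≤ b ∧ b < R ^ (k + 1) ∧ ∃ a : ℤ,
    |F (((⌊(R : ℝ) ^ 4 * xs⌋ + i : ℤ) : ℝ) / (R : ℝ) ^ 4) - a / b| < 1 / (b : ℝ) ^ 21

theorem good_point (F : ℝ → ℝ) (hF : ∀ x, AnalyticAt ℝ F x) (xs : ℝ)
    (hdet : ∀ k, (jet (mono F k) xs).det ≠ 0) (K : ℕ) :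
    ∃ N : ℕ, 1 ≤ N ∧ ∀ᶠ R : ℕ in atTop, ∃ i : ℕ, i < N ∧ ∀ b : ℕ, R ≤ b → b < R ^ (K + 1) →
      ∀ a : ℤ, 1 / (b : ℝ) ^ 21 ≤
        |F (((⌊(R : ℝ) ^ 4 * xs⌋ + i : ℤ) : ℝ) / (R : ℝ) ^ 4) - a / b| := by
  classical
  set N : ℕ := K * (3 * K + 2) + 1 with hN
  refine ⟨N, by omega, ?_⟩
  have hev : ∀ᶠ R : ℕ in atTop, ∀ k ∈ Finset.Icc 1 K, ∀ i : Fin (3 * (k + 1)) → Fin N,
      Function.Injective i → ¬ ∀ s, BadAt F xs R k (i s) := by
    rw [Filter.eventually_all_finset]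
    intro k hk
    rw [eventually_all]
    intro i
    by_cases hi : Function.Injective i
    · have := key F hF k (Finset.mem_Icc.1 hk).1 xs (hdet k) (fun s => (i s : ℕ))
        (Fin.val_injective.comp hi)
      filter_upwards [this] with R hR _ using hR
    · exact Eventually.of_forall fun R h => absurd h hi
  filter_upwards [hev, eventually_ge_atTop 2] with R hR hR2
  by_contra hcon
  push Not at hcon
  -- every index is bad at some level
  have hall : ∀ i < N, ∃ k ∈ Finset.Icc 1 K, BadAt F xs R k i := by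
    intro i hi
    obtain ⟨b, hb1, hb2, a, ha⟩ := hcon i hi
    have hb0 : b ≠ 0 := by omega
    refine ⟨Nat.log R b, ?_, b, Nat.pow_log_le_self R hb0, Nat.lt_pow_succ_log_self hR2 b, a, ha⟩
    rw [Finset.mem_Icc]
    constructor
    · exact Nat.log_pos hR2 hb1
    · have h1 : R ^ (Nat.log R b) < R ^ (K + 1) := (Nat.pow_log_le_self R hb0).trans_lt hb2
      have h2 := (Nat.pow_lt_pow_iff_right hR2).1 h1
      omega
  let S : ℕ → Finset ℕ := fun k => (Finset.range N).filter (fun i => BadAt F xs R k i)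
  have hcard : ∀ k ∈ Finset.Icc 1 K, (S k).card ≤ 3 * K + 2 := by
    intro k hk
    by_contra hlt
    push Not at hlt
    have hk2 := (Finset.mem_Icc.1 hk).2
    obtain ⟨T, hT, hTc⟩ := Finset.exists_subset_card_eq (s := S k) (n := 3 * (k + 1)) (by omega)
    let e := (T.equivFinOfCardEq hTc).symm
    have hmem : ∀ s, (e s : ℕ) ∈ S k := fun s => hT (e s).2
    have hlt' : ∀ s, (e s : ℕ) < N := fun s => Finset.mem_range.1 (Finset.mem_filter.1 (hmem s)).1
    refine hR k hk (fun s => ⟨(e s : ℕ), hlt' s⟩) ?_ ?_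
    · intro s t hst
      have : (e s : ℕ) = (e t : ℕ) := by simpa using hst
      exact e.injective (Subtype.ext this)
    · intro s
      exact (Finset.mem_filter.1 (hmem s)).2
  have hsub : Finset.range N ⊆ (Finset.Icc 1 K).biUnion S := by
    intro i hi
    obtain ⟨k, hk, hbad⟩ := hall i (Finset.mem_range.1 hi)
    rw [Finset.mem_biUnion]
    exact ⟨k, hk, Finset.mem_filter.2 ⟨hi, hbad⟩⟩
  have h1 := Finset.card_le_card hsub
  have h2 := Finset.card_biUnion_le_card_mul (Finset.Icc 1 K) S (3 * K + 2) hcard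
  rw [Finset.card_range] at h1
  rw [Nat.card_Icc, Nat.add_sub_cancel] at h2
  omega

theorem irr_small (θ : ℝ) (hθ : Irrational θ) (n : ℕ) : ∃ c : ℝ, 0 < c ∧ c ≤ 1 ∧ ∀ b : ℕ, 0 < b →
    b < n → ∀ a : ℤ, c ≤ |θ - a / b| := by
  induction n with
  | zero => exact ⟨1, one_pos, le_rfl, fun b _ h => absurd h (Nat.not_lt_zero _)⟩
  | succ n ih =>
    obtain ⟨c, hc, hc1, h⟩ := ih
    rcases Nat.eq_zero_or_pos n with hn | hn
    · subst hn
      exact ⟨1, one_pos, le_rfl, fun b h1 h2 => by omega⟩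
    have hnR : (0 : ℝ) < n := by exact_mod_cast hn
    set δ : ℝ := |θ * n - round (θ * n)| / n with hδ
    have hδ0 : 0 < δ := by
      refine div_pos (abs_pos.2 ?_) hnR
      intro h0
      have h1 : Irrational (θ * (n : ℕ)) := hθ.mul_natCast (by omega)
      apply h1
      exact ⟨(round (θ * n) : ℤ), by push_cast; linarith⟩
    refine ⟨min c δ, lt_min hc hδ0, (min_le_left _ _).trans hc1, fun b hb hbn a => ?_⟩
    rcases Nat.lt_succ_iff_lt_or_eq.1 hbn with hlt | heq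
    · exact (min_le_left _ _).trans (h b hb hlt a)
    · subst heq
      refine (min_le_right _ _).trans ?_
      rw [hδ, div_le_iff₀ hnR]
      have h1 := round_le (θ * b) a
      have h2 : |θ - a / b| * b = |θ * b - a| := by
        rw [← abs_of_pos hnR, ← abs_mul, abs_of_pos hnR, sub_mul, div_mul_cancel₀ _ hnR.ne']
      rw [h2]
      exact h1

/-- An uncountable set of uniformly badly approximable numbers (with exponent three). -/
theorem exists_uncountable : ∃ c : ℝ, 0 < c ∧ ∃ E : Set ℝ, E ⊆ Ioo 0 1 ∧ ¬ E.Countable ∧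
    ∀ θ ∈ E, ∀ a : ℤ, ∀ b : ℕ, 0 < b → c / (b : ℝ) ^ 3 ≤ |θ - a / b| := by
  by_contra hcon
  push Not at hcon
  let E : ℕ → Set ℝ := fun j => {θ | θ ∈ Ioo (0 : ℝ) 1 ∧ ∀ a : ℤ, ∀ b : ℕ, 0 < b →
    (1 / ((j : ℝ) + 1)) / (b : ℝ) ^ 3 ≤ |θ - a / b|}
  have hE : ∀ j, (E j).Countable := by
    intro j
    by_contra hnc
    obtain ⟨θ, hθ, a, b, hb, hlt⟩ := hcon (1 / ((j : ℝ) + 1)) (by positivity) (E j)
      (fun θ hθ => hθ.1) hnc
    exact absurd (hθ.2 a b hb) (not_le.2 hlt)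
  have hU : (⋃ j, E j).Countable := countable_iUnion hE
  have hae : ∀ᵐ θ : ℝ, θ ∈ Ioo (0 : ℝ) 1 → θ ∈ ⋃ j, E j := by
    have h1 := ae_not_liouvilleWith
    have h2 : ∀ᵐ θ : ℝ, Irrational θ := by
      have : (range ((↑) : ℚ → ℝ)).Countable := countable_range _
      exact this.ae_notMem _
    filter_upwards [h1, h2] with θ hθ hirr hθI
    have h3 := hθ 3 (by norm_num)
    unfold LiouvilleWith at h3
    push Not at h3
    have h4 := h3 1
    rw [eventually_atTop] at h4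
    obtain ⟨n, hn⟩ := h4
    obtain ⟨c, hc, hc1, hcb⟩ := irr_small θ hirr n
    obtain ⟨j, hj⟩ := exists_nat_gt (1 / c)
    have hj' : 1 / ((j : ℝ) + 1) ≤ c := by
      rw [div_le_iff₀ (by positivity)]
      rw [div_lt_iff₀ hc] at hj
      nlinarith
    rw [mem_iUnion]
    refine ⟨j, hθI, fun a b hb => ?_⟩
    have hbR : (1 : ℝ) ≤ b := by exact_mod_cast hb
    have hb3 : (1 : ℝ) ≤ (b : ℝ) ^ 3 := one_le_pow₀ hbR
    rcases lt_or_ge b n with hlt | hge
    · refine le_trans ?_ (hcb b hb hlt a)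
      exact (div_le_self (by positivity) hb3).trans hj'
    · have hne : θ ≠ a / b := by
        intro h0
        apply hirr
        exact ⟨(a : ℚ) / b, by push_cast; exact h0.symm⟩
      have h5 := hn b hge a hne
      refine le_trans ?_ h5
      rw [show ((3 : ℝ)) = ((3 : ℕ) : ℝ) by norm_num, Real.rpow_natCast]
      gcongr
      rw [div_le_one (by positivity)]
      linarith [(Nat.cast_nonneg j : (0 : ℝ) ≤ j)]
  have hnull : MeasureTheory.volume (⋃ j, E j) = 0 := hU.measure_zero _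
  have h6 : MeasureTheory.volume (Ioo (0 : ℝ) 1) ≤ MeasureTheory.volume (⋃ j, E j) :=
    MeasureTheory.measure_mono_ae hae
  rw [hnull, Real.volume_Ioo] at h6
  norm_num at h6

end Pool.Agent.W10
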