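import Mathlib
import Pool.Agent.W10.Good

/-!
Mahler's question on entire functions preserving the set of Liouville numbers: the construction.
-/

open Set Filter Topology

namespace Pool.Agent.W10

/-- In every subinterval there is a generic point whose image is not too well approximable. -/
theorem choose_point (F : ℝ → ℝ) (hF : ∀ x, AnalyticAt ℝ F x)
    (hcount : ∀ k, {x : ℝ | (jet (mono F k) x).det = 0}.Countable)
    (u₀ v₀ m₀ : ℝ) (hm₀ : 0 < m₀)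
    (hlow : ∀ x ∈ Icc u₀ v₀, ∀ y ∈ Icc u₀ v₀, m₀ * |x - y| ≤ |F x - F y|)
    (hosc : ∀ x ∈ Icc u₀ v₀, ∀ y ∈ Icc u₀ v₀, |F x - F y| ≤ 1) :
    ∃ κ : ℝ, 0 < κ ∧ ∀ u v : ℝ, u₀ ≤ u → u < v → v ≤ v₀ → ∃ xs ∈ Ioo u v,
      (∀ k, (jet (mono F k) xs).det ≠ 0) ∧
      ∀ b : ℕ, 0 < b → ∀ a : ℤ, κ * (v - u) / (b : ℝ) ^ 3 ≤ |F xs - a / b| := by
  obtain ⟨c, hc, E, hE01, hEnc, hEc⟩ := exists_uncountable
  refine ⟨c * m₀ / 3, by positivity, fun u v hu huv hv => ?_⟩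
  have huI : u ∈ Icc u₀ v₀ := ⟨hu, by linarith⟩
  have hvI : v ∈ Icc u₀ v₀ := ⟨by linarith, hv⟩
  have hFc : Continuous F := continuous_iff_continuousAt.2 fun x => (hF x).continuousAt
  set l : ℝ := |F v - F u| with hl
  have hl1 : l ≤ 1 := hosc v hvI u huI
  have hlm : m₀ * (v - u) ≤ l := by
    have := hlow v hvI u huI
    rwa [abs_of_pos (by linarith : 0 < v - u)] at this
  have hl0 : 0 < l := lt_of_lt_of_le (mul_pos hm₀ (by linarith)) hlm
  set w : ℝ := min (F u) (F v) with hw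
  have hwmax : max (F u) (F v) = w + l := by
    rw [hw, hl]
    rcases le_total (F u) (F v) with h | h
    · rw [max_eq_right h, min_eq_left h, abs_of_nonneg (by linarith)]; ring
    · rw [max_eq_left h, min_eq_right h, abs_of_nonpos (by linarith)]; ring
  set n : ℕ := ⌈2 / l⌉₊ with hn
  have hn1 : 2 / l ≤ n := Nat.le_ceil _
  have hn0 : (0 : ℝ) < n := lt_of_lt_of_le (by positivity) hn1
  have hn2 : (n : ℝ) < 2 / l + 1 := Nat.ceil_lt_add_one (by positivity)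
  have hn3 : (n : ℝ) ≤ 3 / l := by
    have : 1 ≤ 1 / l := by rw [le_div_iff₀ hl0]; linarith
    have h2 : 3 / l = 2 / l + 1 / l := by ring
    linarith
  have hnl : 2 ≤ n * l := by
    rw [div_le_iff₀ hl0] at hn1; exact hn1
  have hnl3 : n * l ≤ 3 := by
    rw [le_div_iff₀ hl0] at hn3; exact hn3
  set m : ℤ := ⌈(n : ℝ) * w⌉ with hm
  have hm1 : (n : ℝ) * w ≤ m := Int.le_ceil _
  have hm2 : (m : ℝ) < n * w + 1 := Int.ceil_lt_add_one _
  -- for each `θ` in `E` a preimage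
  have hpre : ∀ θ ∈ E, ∃ x ∈ Ioo u v, F x = (m + θ) / n := by
    intro θ hθ
    have hθ01 := hE01 hθ
    have h1 : w < (m + θ) / n := by
      rw [lt_div_iff₀ hn0]
      nlinarith [hθ01.1]
    have h2 : (m + θ) / n < w + l := by
      rw [div_lt_iff₀ hn0]
      nlinarith [hθ01.2]
    have h3 : (m + θ) / n ∈ uIcc (F u) (F v) := by
      change (m + θ) / n ∈ Icc (min (F u) (F v)) (max (F u) (F v))
      rw [hwmax]
      exact ⟨h1.le, h2.le⟩
    have hFu : F u = w ∨ F u = w + l := by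
      rcases le_total (F u) (F v) with h | h
      · left; rw [hw, min_eq_left h]
      · right; rw [← hwmax, max_eq_left h]
    have hFv : F v = w ∨ F v = w + l := by
      rcases le_total (F u) (F v) with h | h
      · right; rw [← hwmax, max_eq_right h]
      · left; rw [hw, min_eq_right h]
    obtain ⟨x, hx, hxe⟩ := intermediate_value_uIcc hFc.continuousOn h3
    rw [uIcc_of_le huv.le] at hx
    refine ⟨x, ⟨lt_of_le_of_ne hx.1 ?_, lt_of_le_of_ne hx.2 ?_⟩, hxe⟩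
    · rintro rfl
      rcases hFu with h | h <;> linarith
    · rintro rfl
      rcases hFv with h | h <;> linarith
  choose! g hgI hgF using hpre
  have hinj : InjOn g E := by
    intro θ hθ θ' hθ' heq
    have h1 := hgF θ hθ
    have h2 := hgF θ' hθ'
    rw [heq, h2] at h1
    have h3 : (m + θ') = m + θ := by
      field_simp at h1
      exact h1
    linarith
  have hBad : (⋃ k, {x : ℝ | (jet (mono F k) x).det = 0}).Countable := countable_iUnion hcount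
  obtain ⟨θ, hθE, hθ⟩ : ∃ θ ∈ E, g θ ∉ ⋃ k, {x : ℝ | (jet (mono F k) x).det = 0} := by
    by_contra hcon
    push Not at hcon
    exact hEnc (MapsTo.countable_of_injOn (t := ⋃ k, {x : ℝ | (jet (mono F k) x).det = 0})
      hcon hinj hBad)
  refine ⟨g θ, hgI θ hθE, ?_, ?_⟩
  · intro k hk
    exact hθ (mem_iUnion.2 ⟨k, hk⟩)
  · intro b hb a
    rw [hgF θ hθE]
    have hbR : (0 : ℝ) < b := by exact_mod_cast hb
    have h1 := hEc θ hθE (a * n - m * b) b hb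
    have h2 : ((m : ℝ) + θ) / n - a / b = (θ - ((a * n - m * b : ℤ) : ℝ) / b) / n := by
      push_cast
      field_simp
      ring
    rw [h2, abs_div, abs_of_pos hn0]
    have h3 : c * m₀ / 3 * (v - u) ≤ c / n := by
      rw [le_div_iff₀ hn0]
      have h4 : m₀ * (v - u) * n ≤ 3 := by
        calc m₀ * (v - u) * n ≤ l * n := by gcongr
          _ ≤ 3 := by linarith
      calc c * m₀ / 3 * (v - u) * n = c / 3 * (m₀ * (v - u) * n) := by ring
        _ ≤ c / 3 * 3 := by gcongr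
        _ = c := by ring
    calc c * m₀ / 3 * (v - u) / (b : ℝ) ^ 3 ≤ c / n / (b : ℝ) ^ 3 := by gcongr
      _ = c / (b : ℝ) ^ 3 / n := by ring
      _ ≤ |θ - ((a * n - m * b : ℤ) : ℝ) / b| / n := by gcongr

/-- One step of the construction. -/
theorem stage (F : ℝ → ℝ) (hF : ∀ x, AnalyticAt ℝ F x) (u₀ v₀ M₀ κ ε₀ : ℝ) (hM₀ : 0 < M₀)
    (hκ : 0 < κ) (hε₀ : 0 < ε₀) (hε₀' : ε₀ ≤ 1 / 2)
    (hup : ∀ x ∈ Icc u₀ v₀, ∀ y ∈ Icc u₀ v₀, |F x - F y| ≤ M₀ * |x - y|)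
    (hpt : ∀ u v : ℝ, u₀ ≤ u → u < v → v ≤ v₀ → ∃ xs ∈ Ioo u v,
      (∀ k, (jet (mono F k) xs).det ≠ 0) ∧
      ∀ b : ℕ, 0 < b → ∀ a : ℤ, κ * (v - u) / (b : ℝ) ^ 3 ≤ |F xs - a / b|)
    (K : ℕ) (u v : ℝ) (B : ℕ) (hu : u₀ ≤ u) (huv : u < v) (hv : v ≤ v₀) (hB : 1 ≤ B)
    (ha : ∀ x ∈ Icc u v, ∀ b : ℕ, 0 < b → b < B → ∀ a : ℤ, ε₀ / (b : ℝ) ^ 26 ≤ |F x - a / b|)
    (hb : 4 * ε₀ / (B : ℝ) ^ 23 ≤ κ * (v - u)) :
    ∃ u' v' : ℝ, ∃ B' : ℕ, u ≤ u' ∧ u' < v' ∧ v' ≤ v ∧ 1 ≤ B' ∧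
      (∀ x ∈ Icc u' v', ∀ b : ℕ, 0 < b → b < B' → ∀ a : ℤ, ε₀ / (b : ℝ) ^ 26 ≤ |F x - a / b|) ∧
      4 * ε₀ / (B' : ℝ) ^ 23 ≤ κ * (v' - u') ∧ K < B' ∧
      ∃ p q : ℤ, 1 < q ∧ ∀ x ∈ Icc u' v', x ≠ p / q ∧ |x - p / q| < 1 / (q : ℝ) ^ K := by
  obtain ⟨xs, hxs, hdet, hxsb⟩ := hpt u v hu huv hv
  obtain ⟨N, hN1, hN⟩ := good_point F hF xs hdet K
  set δ : ℝ := min (xs - u) (v - xs) with hδ
  have hδ0 : 0 < δ := lt_min (by linarith [hxs.1]) (by linarith [hxs.2])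
  have hvu : 0 < v - u := by linarith
  have hlim : ∀ C : ℝ, ∀ᶠ R : ℕ in atTop, C < R := fun C =>
    (tendsto_natCast_atTop_atTop (R := ℝ)).eventually (eventually_gt_atTop _)
  obtain ⟨R, ⟨i, hiN, hgood⟩, hR2, hRB, h1, h2, h3, h4⟩ := (hN.and ((eventually_ge_atTop 2).and
    ((eventually_ge_atTop (max B K)).and ((hlim ((N + 1) / δ)).and ((hlim (2 * M₀ * (N + 1) / (κ * (v - u)))).and
    ((hlim (2 * M₀)).and (hlim (8 * ε₀ / κ)))))))).exists
  have hR1 : (1 : ℝ) ≤ R := by exact_mod_cast (by omega : 1 ≤ R)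
  have hR2' : (2 : ℝ) ≤ R := by exact_mod_cast hR2
  have hR0 : (0 : ℝ) < R := by linarith
  have hBR : B ≤ R := (le_max_left _ _).trans hRB
  have hKR : K ≤ R := (le_max_right _ _).trans hRB
  set p : ℤ := ⌊(R : ℝ) ^ 4 * xs⌋ + i with hp
  set xi : ℝ := (p : ℝ) / (R : ℝ) ^ 4 with hxi
  set ρ : ℝ := 1 / (R : ℝ) ^ (22 * (K + 1)) with hρ
  have hρ0 : 0 < ρ := by positivity
  have hR4 : (0 : ℝ) < (R : ℝ) ^ 4 := by positivity
  have hρ4 : ρ ≤ 1 / (R : ℝ) ^ 4 :=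
    one_div_le_one_div_of_le hR4 (pow_le_pow_right₀ hR1 (by omega))
  have hN0 : (1 : ℝ) ≤ N := by exact_mod_cast hN1
  have hxidist : |xi - xs| ≤ N / (R : ℝ) ^ 4 := by
    have e1 : xi - xs = ((⌊(R : ℝ) ^ 4 * xs⌋ : ℝ) - (R : ℝ) ^ 4 * xs + i) / (R : ℝ) ^ 4 := by
      rw [hxi, hp]
      push_cast
      field_simp
      ring
    rw [e1, abs_div, abs_of_pos hR4]
    have hf1 := Int.floor_le ((R : ℝ) ^ 4 * xs)
    have hf2 := Int.lt_floor_add_one ((R : ℝ) ^ 4 * xs)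
    have hi0 : (0 : ℝ) ≤ i := Nat.cast_nonneg i
    have hiN' : (i : ℝ) ≤ N := by exact_mod_cast hiN.le
    gcongr
    rw [abs_le]
    constructor <;> linarith
  have hdist : ∀ x ∈ Icc (xi + ρ / 2) (xi + ρ), |x - xs| ≤ (N + 1) / (R : ℝ) ^ 4 := by
    intro x hx
    have e1 : |x - xi| ≤ ρ := by
      rw [abs_le]; constructor <;> linarith [hx.1, hx.2]
    calc |x - xs| = |(x - xi) + (xi - xs)| := by ring_nf
      _ ≤ |x - xi| + |xi - xs| := abs_add_le _ _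
      _ ≤ 1 / (R : ℝ) ^ 4 + N / (R : ℝ) ^ 4 := add_le_add (e1.trans hρ4) hxidist
      _ = _ := by ring
  have hsmall : (N + 1) / (R : ℝ) ^ 4 < δ := by
    rw [div_lt_iff₀ hδ0] at h1
    rw [div_lt_iff₀ hR4]
    have : (R : ℝ) ≤ (R : ℝ) ^ 4 := le_self_pow₀ hR1 (by norm_num)
    calc (N + 1 : ℝ) < R * δ := h1
      _ ≤ (R : ℝ) ^ 4 * δ := by gcongr
      _ = _ := by ring
  have hin : ∀ x, |x - xs| < δ → x ∈ Icc u v := by
    intro x hx
    rw [abs_lt] at hx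
    have e1 : δ ≤ xs - u := min_le_left _ _
    have e2 : δ ≤ v - xs := min_le_right _ _
    exact ⟨by linarith [hx.1], by linarith [hx.2]⟩
  have hsubI : ∀ x ∈ Icc (xi + ρ / 2) (xi + ρ), x ∈ Icc u v := fun x hx =>
    hin x ((hdist x hx).trans_lt hsmall)
  have hI0 : ∀ x ∈ Icc u v, x ∈ Icc u₀ v₀ := fun x hx => ⟨hu.trans hx.1, hx.2.trans hv⟩
  have hxsI : xs ∈ Icc u₀ v₀ := hI0 xs ⟨hxs.1.le, hxs.2.le⟩
  have hxiI : xi ∈ Icc u₀ v₀ := by
    refine hI0 xi (hin xi (hxidist.trans_lt (lt_of_le_of_lt ?_ hsmall)))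
    gcongr
    linarith
  have hl : xi + ρ / 2 ∈ Icc (xi + ρ / 2) (xi + ρ) := ⟨le_rfl, by linarith⟩
  have hr : xi + ρ ∈ Icc (xi + ρ / 2) (xi + ρ) := ⟨by linarith, le_rfl⟩
  refine ⟨xi + ρ / 2, xi + ρ, R ^ (K + 1), (hsubI _ hl).1, by linarith, (hsubI _ hr).2,
    Nat.one_le_pow _ _ (by omega), ?_, ?_, ?_, p, (R : ℤ) ^ 4, ?_, ?_⟩
  · -- the Diophantine condition
    intro x hx b hb0 hbR a
    have hbR0 : (0 : ℝ) < b := by exact_mod_cast hb0
    have hbR1 : (1 : ℝ) ≤ b := by exact_mod_cast hb0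
    have hxI := hI0 x (hsubI x hx)
    rcases lt_or_ge b B with hlt | hge
    · exact ha x (hsubI x hx) b hb0 hlt a
    rcases lt_or_ge b R with hlt | hgeR
    · -- small denominators
      have e1 := hxsb b hb0 a
      have e2 := hup x hxI xs hxsI
      have e3 := hdist x hx
      have e4 : |F xs - a / b| ≤ |F x - a / b| + |F x - F xs| := by
        calc |F xs - a / b| = |(F x - a / b) + -(F x - F xs)| := by ring_nf
          _ ≤ |F x - a / b| + |-(F x - F xs)| := abs_add_le _ _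
          _ = _ := by rw [abs_neg]
      have e5 : M₀ * ((N + 1) / (R : ℝ) ^ 4) ≤ κ * (v - u) / (2 * (b : ℝ) ^ 3) := by
        have e6 : 2 * M₀ * (N + 1) ≤ R * (κ * (v - u)) := by
          rw [div_lt_iff₀ (by positivity)] at h2
          exact h2.le
        have e7 : (b : ℝ) ^ 3 ≤ (R : ℝ) ^ 3 := by
          have : (b : ℝ) ≤ R := by exact_mod_cast hlt.le
          gcongr
        rw [← mul_div_assoc, div_le_div_iff₀ hR4 (by positivity)]
        calc M₀ * (N + 1) * (2 * (b : ℝ) ^ 3) = (2 * M₀ * (N + 1)) * (b : ℝ) ^ 3 := by ring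
          _ ≤ (R * (κ * (v - u))) * (R : ℝ) ^ 3 := by gcongr
          _ = _ := by ring
      have e6 : κ * (v - u) / (2 * (b : ℝ) ^ 3) ≤ |F x - a / b| := by
        have e7 : M₀ * |x - xs| ≤ M₀ * ((N + 1) / (R : ℝ) ^ 4) := by gcongr
        have e8 : κ * (v - u) / (b : ℝ) ^ 3 = κ * (v - u) / (2 * (b : ℝ) ^ 3) + κ * (v - u) / (2 * (b : ℝ) ^ 3) := by
          field_simp
          ring
        linarith
      refine le_trans ?_ e6
      have hBR' : (0 : ℝ) < B := by exact_mod_cast hB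
      have e9 : 4 * ε₀ / (b : ℝ) ^ 23 ≤ κ * (v - u) := by
        refine le_trans ?_ hb
        have : (B : ℝ) ≤ b := by exact_mod_cast hge
        gcongr
      calc ε₀ / (b : ℝ) ^ 26 ≤ (4 * ε₀ / (b : ℝ) ^ 23) / (2 * (b : ℝ) ^ 3) := by
            rw [div_div, div_le_div_iff₀ (by positivity) (by positivity)]
            have : (b : ℝ) ^ 23 * (2 * (b : ℝ) ^ 3) = 2 * (b : ℝ) ^ 26 := by ring
            rw [this]
            nlinarith [pow_pos hbR0 26]
        _ ≤ _ := by gcongr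
    · -- large denominators
      have e1 := hgood b hgeR hbR a
      have e2 := hup x hxI xi hxiI
      have e3 : |x - xi| ≤ ρ := by
        rw [abs_le]; constructor <;> linarith [hx.1, hx.2]
      have e4 : |F xi - a / b| ≤ |F x - a / b| + |F x - F xi| := by
        calc |F xi - a / b| = |(F x - a / b) + -(F x - F xi)| := by ring_nf
          _ ≤ |F x - a / b| + |-(F x - F xi)| := abs_add_le _ _
          _ = _ := by rw [abs_neg]
      have hbRK : (b : ℝ) ≤ (R : ℝ) ^ (K + 1) := by exact_mod_cast hbR.le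
      have e5 : M₀ * ρ ≤ 1 / (2 * (b : ℝ) ^ 21) := by
        rw [hρ, mul_one_div, div_le_div_iff₀ (by positivity) (by positivity)]
        have e6 : (b : ℝ) ^ 21 ≤ (R : ℝ) ^ (21 * (K + 1)) := by
          rw [mul_comm 21, pow_mul]
          gcongr
        calc M₀ * (2 * (b : ℝ) ^ 21) = (2 * M₀) * (b : ℝ) ^ 21 := by ring
          _ ≤ (R : ℝ) ^ (K + 1) * (R : ℝ) ^ (21 * (K + 1)) := by
            gcongr
            exact h3.le.trans (le_self_pow₀ hR1 (by omega))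
          _ = 1 * (R : ℝ) ^ (22 * (K + 1)) := by
            rw [one_mul, ← pow_add]; congr 1; ring
      have e6 : 1 / (2 * (b : ℝ) ^ 21) ≤ |F x - a / b| := by
        have e7 : M₀ * |x - xi| ≤ M₀ * ρ := by gcongr
        have e8 : 1 / (b : ℝ) ^ 21 = 1 / (2 * (b : ℝ) ^ 21) + 1 / (2 * (b : ℝ) ^ 21) := by
          field_simp
          ring
        linarith
      refine le_trans ?_ e6
      rw [div_le_div_iff₀ (by positivity) (by positivity)]
      have e9 : (b : ℝ) ^ 21 ≤ (b : ℝ) ^ 26 := pow_le_pow_right₀ hbR1 (by norm_num)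
      have e10 : 0 < (b : ℝ) ^ 21 := by positivity
      nlinarith
  · -- the length condition
    have e1 : xi + ρ - (xi + ρ / 2) = ρ / 2 := by ring
    rw [e1, hρ]
    push_cast
    rw [div_le_iff₀ (by positivity)]
    have e2 : ((R : ℝ) ^ (K + 1)) ^ 23 = (R : ℝ) ^ (K + 1) * (R : ℝ) ^ (22 * (K + 1)) := by
      rw [← pow_mul, ← pow_add]; congr 1; ring
    rw [e2]
    have e3 : κ * (1 / (R : ℝ) ^ (22 * (K + 1)) / 2) * ((R : ℝ) ^ (K + 1) * (R : ℝ) ^ (22 * (K + 1)))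
        = κ / 2 * (R : ℝ) ^ (K + 1) := by
      field_simp
    rw [e3]
    have e4 : 8 * ε₀ / κ ≤ (R : ℝ) ^ (K + 1) := h4.le.trans (le_self_pow₀ hR1 (by omega))
    rw [div_le_iff₀ hκ] at e4
    linarith
  · -- the new bound is large
    calc K < K + 1 := Nat.lt_succ_self K
      _ < 2 ^ (K + 1) := Nat.lt_two_pow_self
      _ ≤ R ^ (K + 1) := Nat.pow_le_pow_left hR2 _
  · have : (1 : ℤ) < (R : ℤ) := by exact_mod_cast hR2
    exact one_lt_pow₀ this (by norm_num)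
  · intro x hx
    push_cast
    rw [← hxi]
    constructor
    · intro h0
      linarith [hx.1]
    · have e3 : |x - xi| ≤ ρ := by
        rw [abs_le]; constructor <;> linarith [hx.1, hx.2]
      refine e3.trans_lt ?_
      rw [hρ, ← pow_mul]
      exact one_div_lt_one_div_of_lt (by positivity) (pow_lt_pow_right₀ (by linarith) (by omega))

end Pool.Agent.W10
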