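import Mathlib
import Pool.Agent.W10.Mahler

/-!
Mahler's question on entire functions preserving the set of Liouville numbers: conclusion.
-/

open Set Filter Topology

namespace Pool.Agent.W10

/-- The state of the construction. -/
structure St (F : ℝ → ℝ) (u₀ v₀ κ ε₀ : ℝ) where
  u : ℝ
  v : ℝ
  B : ℕ
  hu : u₀ ≤ u
  huv : u < v
  hv : v ≤ v₀
  hB : 1 ≤ B
  ha : ∀ x ∈ Icc u v, ∀ b : ℕ, 0 < b → b < B → ∀ a : ℤ, ε₀ / (b : ℝ) ^ 26 ≤ |F x - a / b|
  hb : 4 * ε₀ / (B : ℝ) ^ 23 ≤ κ * (v - u)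

/-- Two-sided Lipschitz bounds on a small interval. -/
theorem exists_bilip (F : ℝ → ℝ) (hF : ∀ x, AnalyticAt ℝ F x) (x₀ : ℝ) (hx₀ : deriv F x₀ ≠ 0) :
    ∃ u₀ v₀ m₀ M₀ : ℝ, u₀ < v₀ ∧ 0 < m₀ ∧ 0 < M₀ ∧
      (∀ x ∈ Icc u₀ v₀, ∀ y ∈ Icc u₀ v₀, m₀ * |x - y| ≤ |F x - F y|) ∧
      (∀ x ∈ Icc u₀ v₀, ∀ y ∈ Icc u₀ v₀, |F x - F y| ≤ M₀ * |x - y|) ∧
      (∀ x ∈ Icc u₀ v₀, ∀ y ∈ Icc u₀ v₀, |F x - F y| ≤ 1) := by
  have hdc : ContinuousAt (deriv F) x₀ := (hF x₀).deriv.continuousAt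
  set d : ℝ := |deriv F x₀| with hd
  have hd0 : 0 < d := abs_pos.2 hx₀
  obtain ⟨δ, hδ, hδd⟩ := Metric.continuousAt_iff.1 hdc (d / 2) (half_pos hd0)
  set η : ℝ := min (δ / 2) (1 / (4 * d)) with hη
  have hη0 : 0 < η := lt_min (by positivity) (by positivity)
  have hder : ∀ x ∈ Icc (x₀ - η) (x₀ + η), d / 2 ≤ |deriv F x| ∧ |deriv F x| ≤ 2 * d := by
    intro x hx
    have h1 : dist x x₀ < δ := by
      rw [Real.dist_eq, abs_lt]
      have : η ≤ δ / 2 := min_le_left _ _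
      constructor <;> linarith [hx.1, hx.2]
    have h2 := hδd h1
    rw [Real.dist_eq] at h2
    have h3 : |deriv F x| ≤ |deriv F x - deriv F x₀| + |deriv F x₀| := by
      have := abs_add_le (deriv F x - deriv F x₀) (deriv F x₀)
      rwa [sub_add_cancel] at this
    have h4 : |deriv F x₀| ≤ |deriv F x - deriv F x₀| + |deriv F x| := by
      have := abs_sub_abs_le_abs_sub (deriv F x₀) (deriv F x)
      rw [abs_sub_comm (deriv F x₀)] at this
      linarith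
    constructor
    · linarith
    · linarith
  have hdiff : ∀ x, DifferentiableAt ℝ F x := fun x => (hF x).differentiableAt
  have hmv : ∀ x ∈ Icc (x₀ - η) (x₀ + η), ∀ y ∈ Icc (x₀ - η) (x₀ + η), x < y →
      ∃ z ∈ Icc (x₀ - η) (x₀ + η), |F x - F y| = |deriv F z| * |x - y| := by
    intro x hx y hy hxy
    obtain ⟨z, hz, hzd⟩ := exists_deriv_eq_slope F hxy
      (fun t _ => (hdiff t).continuousAt.continuousWithinAt)
      (fun t _ => (hdiff t).differentiableWithinAt)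
    refine ⟨z, ⟨by linarith [hz.1, hx.1], by linarith [hz.2, hy.2]⟩, ?_⟩
    have : y - x ≠ 0 := by linarith
    have h1 : F y - F x = deriv F z * (y - x) := by
      rw [hzd, div_mul_cancel₀ _ (sub_ne_zero.2 hxy.ne')]
    rw [abs_sub_comm (F x), h1, abs_mul, abs_sub_comm x y]
  have hmv' : ∀ x ∈ Icc (x₀ - η) (x₀ + η), ∀ y ∈ Icc (x₀ - η) (x₀ + η),
      ∃ z ∈ Icc (x₀ - η) (x₀ + η), |F x - F y| = |deriv F z| * |x - y| := by
    intro x hx y hy
    rcases lt_trichotomy x y with h | h | h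
    · exact hmv x hx y hy h
    · exact ⟨x, hx, by simp [h]⟩
    · obtain ⟨z, hz, h1⟩ := hmv y hy x hx h
      exact ⟨z, hz, by rw [abs_sub_comm (F x), abs_sub_comm x, h1]⟩
  refine ⟨x₀ - η, x₀ + η, d / 2, 2 * d, by linarith, by positivity, by positivity, ?_, ?_, ?_⟩
  · intro x hx y hy
    obtain ⟨z, hz, h1⟩ := hmv' x hx y hy
    rw [h1]
    have := (hder z hz).1
    gcongr
  · intro x hx y hy
    obtain ⟨z, hz, h1⟩ := hmv' x hx y hy
    rw [h1]
    have := (hder z hz).2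
    gcongr
  · intro x hx y hy
    obtain ⟨z, hz, h1⟩ := hmv' x hx y hy
    rw [h1]
    have h2 := (hder z hz).2
    have h3 : |x - y| ≤ 2 * η := by
      rw [abs_le]; constructor <;> linarith [hx.1, hx.2, hy.1, hy.2]
    have h4 : η ≤ 1 / (4 * d) := min_le_right _ _
    calc |deriv F z| * |x - y| ≤ (2 * d) * (2 * (1 / (4 * d))) := by
          gcongr
          linarith
      _ = 1 := by field_simp; norm_num

/-- **Main theorem.** A real analytic function on the line that is real part of a nonpolynomial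
entire function which is real on the line sends some Liouville number to a number that is not a
Liouville number. -/
theorem main (f : ℂ → ℂ) (hf : Differentiable ℂ f) (hreal : ∀ x : ℝ, (f (x : ℂ)).im = 0)
    (hnp : ¬ ∃ p : Polynomial ℂ, ∀ z : ℂ, f z = p.eval z) :
    ∃ x : ℝ, Liouville x ∧ ∃ c : ℝ, 0 < c ∧ ∀ b : ℕ, 0 < b → ∀ a : ℤ,
      c / (b : ℝ) ^ 26 ≤ |(f (x : ℂ)).re - a / b| := by
  set F : ℝ → ℝ := fun x => (f (x : ℂ)).re with hFdef
  have hFf : ∀ x : ℝ, f x = (F x : ℂ) := fun x => by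
    apply Complex.ext
    · simp [hFdef]
    · simp [hreal x]
  have hF : ∀ x, AnalyticAt ℝ F x := by
    intro x
    have h1 : AnalyticAt ℂ f (x : ℂ) := hf.analyticAt _
    exact h1.re_ofReal
  have hli := fun k => mono_li f hf F hFf hnp k
  have hcount : ∀ k, {x : ℝ | (jet (mono F k) x).det = 0}.Countable := fun k =>
    countable_jet_det_eq_zero (mono F k) (mono_analytic F hF k) (hli k)
  -- the derivative does not vanish identically
  obtain ⟨x₀, hx₀⟩ : ∃ x₀, deriv F x₀ ≠ 0 := by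
    by_contra hcon
    push Not at hcon
    have hconst : ∀ x, F x = F 0 := fun x =>
      is_const_of_deriv_eq_zero (fun x => (hF x).differentiableAt) hcon x 0
    have h1 := hli 0 0 1 one_pos (fun s => if (s : ℕ) = 0 then - F 0 else if (s : ℕ) = 1 then 1 else 0)
      (fun x _ => by
        simp only [mono]
        rw [Fin.sum_univ_three]
        simp [hconst x])
    have h2 := congrFun h1 ⟨1, by norm_num⟩
    simp at h2
  obtain ⟨u₀, v₀, m₀, M₀, huv₀, hm₀, hM₀, hlow, hup, hosc⟩ := exists_bilip F hF x₀ hx₀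
  obtain ⟨κ, hκ, hpt⟩ := choose_point F hF hcount u₀ v₀ m₀ hm₀ hlow hosc
  set ε₀ : ℝ := min (1 / 2) (κ * (v₀ - u₀) / 4) with hε₀
  have hvu₀ : 0 < v₀ - u₀ := by linarith
  have hε₀pos : 0 < ε₀ := lt_min (by norm_num) (by positivity)
  let s₀ : St F u₀ v₀ κ ε₀ :=
    { u := u₀, v := v₀, B := 1, hu := le_rfl, huv := huv₀, hv := le_rfl, hB := le_rfl
      ha := fun x _ b h1 h2 => by omega
      hb := by
        have : ε₀ ≤ κ * (v₀ - u₀) / 4 := min_le_right _ _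
        simp only [Nat.cast_one, one_pow, div_one]
        linarith }
  have hstep : ∀ (K : ℕ) (s : St F u₀ v₀ κ ε₀), ∃ s' : St F u₀ v₀ κ ε₀,
      s.u ≤ s'.u ∧ s'.v ≤ s.v ∧ K < s'.B ∧
      ∃ p q : ℤ, 1 < q ∧ ∀ x ∈ Icc s'.u s'.v, x ≠ p / q ∧ |x - p / q| < 1 / (q : ℝ) ^ K := by
    intro K s
    obtain ⟨u', v', B', h1, h2, h3, h4, h5, h6, h7, h8⟩ := stage F hF u₀ v₀ M₀ κ ε₀ hM₀ hκ hε₀pos
      (min_le_left _ _) hup hpt K s.u s.v s.B s.hu s.huv s.hv s.hB s.ha s.hb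
    exact ⟨{ u := u', v := v', B := B', hu := s.hu.trans h1, huv := h2, hv := h3.trans s.hv
             hB := h4, ha := h5, hb := h6 }, h1, h3, h7, h8⟩
  choose nxt hn1 hn2 hn3 hn4 using hstep
  let sq : ℕ → St F u₀ v₀ κ ε₀ := fun n => Nat.rec s₀ (fun K s => nxt K s) n
  have hsq : ∀ n, sq (n + 1) = nxt n (sq n) := fun n => rfl
  have hanti : Antitone (fun n => Icc (sq n).u (sq n).v) := by
    refine antitone_nat_of_succ_le fun n => ?_
    rw [hsq]
    exact Icc_subset_Icc (hn1 n (sq n)) (hn2 n (sq n))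
  have hmem := ciSup_mem_iInter_Icc_of_antitone_Icc hanti (fun n => (sq n).huv.le)
  set x : ℝ := ⨆ n, (sq n).u with hx
  have hxmem : ∀ n, x ∈ Icc (sq n).u (sq n).v := fun n => mem_iInter.1 hmem n
  refine ⟨x, ?_, ε₀, hε₀pos, ?_⟩
  · intro n
    obtain ⟨p, q, hq, h⟩ := hn4 n (sq n)
    have h1 := h x (hxmem (n + 1))
    exact ⟨p, q, hq, h1.1, h1.2⟩
  · intro b hb a
    have h1 : b < (sq (b + 1)).B := hn3 b (sq b)
    exact (sq (b + 1)).ha x (hxmem (b + 1)) b hb h1 a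

theorem not_liouville_of_bound (y c : ℝ) (hc : 0 < c)
    (h : ∀ b : ℕ, 0 < b → ∀ a : ℤ, c / (b : ℝ) ^ 26 ≤ |y - a / b|) : ¬ Liouville y := by
  intro hL
  obtain ⟨t, ht⟩ := pow_unbounded_of_one_lt (1 / c) (one_lt_two)
  obtain ⟨a, b, hb, -, hab⟩ := hL (26 + t)
  lift b to ℕ using by omega
  have hb2 : (2 : ℝ) ≤ b := by exact_mod_cast hb
  have hb0 : (0 : ℝ) < b := by linarith
  have h1 := h b (by omega) a
  have h2 : c / (b : ℝ) ^ 26 < 1 / (b : ℝ) ^ (26 + t) := by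
    refine lt_of_le_of_lt h1 ?_
    simpa using hab
  rw [div_lt_div_iff₀ (by positivity) (by positivity), pow_add] at h2
  have h3 : c * (b : ℝ) ^ t < 1 := by
    have h4 : 0 < (b : ℝ) ^ 26 := by positivity
    by_contra hcon
    push Not at hcon
    nlinarith
  have h5 : (2 : ℝ) ^ t ≤ (b : ℝ) ^ t := by gcongr
  have h6 : 1 < c * (2 : ℝ) ^ t := by
    rw [div_lt_iff₀ hc] at ht
    linarith
  nlinarith

end Pool.Agent.W10
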